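import Pool.Agent.Lib.PolyTime.Rat

/-! The Cook-Levin theorem: every language in `NP` reduces to satisfiability of CNF formulas. -/

namespace Pool.Agent.Lib.PolyTime

open Function N487b59b3 N68a2faeb

/-- CNF formulas: lists of clauses; the literal given by a pair `i, b` holds when variable `i` has value `b`. -/
abbrev CNF := List (List (ℕ × Bool))

/-- Satisfiability. -/
def CNF.Sat (φ : CNF) : Prop := ∃ v : ℕ → Bool, ∀ c ∈ φ, ∃ l ∈ c, v l.1 = l.2

namespace Cook

variable {α : Type} [N487b59b3 α]

/-- An injective numbering of encodable objects. -/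
def num (a : α) : ℕ := ofBits (bitEncode a ++ [true])

theorem num_inj : Injective (num : α → ℕ) := fun a b h => by
  have := congrArg Nat.bits h
  rw [num, num, bits_ofBits_concat, bits_ofBits_concat] at this
  exact bitEncode_injective (List.append_cancel_right this)

@[fun_prop] theorem pt_num {β : Type} [N487b59b3 β] {f : α → β} (hf : PT f) :
    PT fun a => num (f a) := by
  unfold num; fun_prop

/-- The CNF expressing that a valuation with values below `G` avoids forbidden patterns. -/
def toCNF (G : ℕ) (forb : List (List (α × ℕ))) : CNF :=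
  forb.flatMap fun F => (F.map fun p => (num p, false)) ::
    F.map fun p => (List.range G).map fun g => (num (p.1, g), true)

theorem sat_toCNF {G : ℕ} (hG : 0 < G) (forb : List (List (α × ℕ))) : (toCNF G forb).Sat ↔
    ∃ val : α → ℕ, (∀ l, val l < G) ∧ ∀ F ∈ forb, ∃ p ∈ F, val p.1 ≠ p.2 := by
  classical
  simp only [CNF.Sat, toCNF, List.mem_flatMap, List.mem_cons, List.mem_map]
  constructor
  · rintro ⟨v, hv⟩
    have : ∀ l : α, ∃ g < G, (∃ g < G, v (num (l, g)) = true) → v (num (l, g)) = true := by
      intro l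
      by_cases h : ∃ g < G, v (num (l, g)) = true
      · obtain ⟨g, h1, h2⟩ := h
        exact ⟨g, h1, fun _ => h2⟩
      · exact ⟨0, hG, fun h' => absurd h' h⟩
    choose val h1 h2 using this
    refine ⟨val, h1, fun F hF => ?_⟩
    obtain ⟨_, hl, h3⟩ := hv _ ⟨F, hF, Or.inl rfl⟩
    obtain ⟨p, hp, rfl⟩ := List.mem_map.1 hl
    obtain ⟨_, hl, h4⟩ := hv _ ⟨F, hF, Or.inr ⟨p, hp, rfl⟩⟩
    obtain ⟨g, hg, rfl⟩ := List.mem_map.1 hl
    refine ⟨p, hp, fun e => ?_⟩
    have := h2 p.1 ⟨g, List.mem_range.1 hg, h4⟩
    rw [e] at this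
    simp [this] at h3
  · rintro ⟨val, h1, h2⟩
    have key : ∀ p : α × ℕ, (∃ l, num (l, val l) = num p) ↔ val p.1 = p.2 := fun p =>
      ⟨fun ⟨l, h⟩ => by rw [← num_inj h], fun h => ⟨p.1, by rw [h]⟩⟩
    refine ⟨fun i => decide (∃ l, num (l, val l) = i), ?_⟩
    rintro c ⟨F, hF, rfl | ⟨p, -, rfl⟩⟩
    · obtain ⟨p, hp, h⟩ := h2 F hF
      exact ⟨_, List.mem_map_of_mem hp, by simp only [key, h, decide_false]⟩
    · exact ⟨_, List.mem_map_of_mem (List.mem_range.2 (h1 p.1)), by simp only [key, decide_true]⟩

theorem exists_tuples (G m : ℕ) :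
    ∃ TT : List (List ℕ), ∀ a, a ∈ TT ↔ a.length = m ∧ ∀ g ∈ a, g < G := by
  induction m with
  | zero => exact ⟨[[]], fun a => by cases a <;> simp⟩
  | succ m ih =>
    obtain ⟨TT, h⟩ := ih
    refine ⟨TT.flatMap fun a => (List.range G).map fun g => g :: a, fun a => ?_⟩
    cases a with
    | nil => simp
    | cons g a => simp [h]; tauto

omit [N487b59b3 α] in
theorem forbid_iff {G : ℕ} {TT : List (List ℕ)} {ls : List α}
    (h : ∀ a, a ∈ TT ↔ a.length = ls.length ∧ ∀ g ∈ a, g < G) (C : List ℕ → Bool) {val : α → ℕ}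
    (hv : ∀ l, val l < G) :
    (∀ F ∈ (TT.filter fun a => !C a).map fun a => ls.zip a, ∃ p ∈ F, val p.1 ≠ p.2) ↔
      C (ls.map val) = true := by
  have key : ∀ (ls : List α) (a : List ℕ), a.length = ls.length →
      ((∃ p ∈ ls.zip a, val p.1 ≠ p.2) ↔ a ≠ ls.map val) := by
    intro ls
    induction ls with
    | nil => intro a ha; cases a <;> simp_all
    | cons l ls ih =>
      intro a ha
      cases a with
      | nil => simp at ha
      | cons g a =>
        have := ih a (by simpa using ha)
        simp only [List.zip_cons_cons, List.mem_cons, exists_eq_or_imp, this, List.map_cons,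
          ne_eq, List.cons.injEq, not_and_or, eq_comm (a := g)]
  simp only [List.mem_map, List.mem_filter, forall_exists_index, and_imp]
  constructor
  · intro H
    by_contra hC
    have hm : ls.map val ∈ TT := (h _).2 ⟨by simp, by simp [hv]⟩
    exact (key _ _ (by simp)).1 (H _ _ hm (by simpa using hC) rfl) rfl
  · rintro hC _ a ha hCa rfl
    refine (key _ _ ((h a).1 ha).1).2 fun e => ?_
    rw [e, hC] at hCa
    simp at hCa

/-- Entry `j` of stack `k`, counted from the top. -/
def cell (c : ℕ × List (List ℕ)) (k j : ℕ) : ℕ := (c.2.getD k []).getD j 0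

/-- Entry of a table. -/
def ent (P : List (List ℕ)) (q i : ℕ) : ℕ := (P.getD q []).getD i 0

/-- The local rule for stack cells. -/
def rule (P : List (List ℕ)) (K q k j a b c : ℕ) : ℕ :=
  if ent P q 1 = k ∧ k < K then
    if ent P q 0 = 1 then (if j = 0 then ent P q 2 else a) else if ent P q 0 = 2 then c else b
  else b

theorem ustep_fst (P : List (List ℕ)) (c : ℕ × List (List ℕ)) :
    (ustep P c).1 = ent P c.1 (3 + cell c (ent P c.1 1) 0) := by
  simp only [ustep, ent, cell]
  rcases c.2.getD ((P.getD c.1 []).getD 1 0) [] with _ | _ <;> rfl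

theorem ustep_length (P : List (List ℕ)) (c : ℕ × List (List ℕ)) :
    (ustep P c).2.length = c.2.length := by
  simp only [ustep]
  split_ifs <;> simp

theorem getD_set (S : List (List ℕ)) (i k : ℕ) (v : List ℕ) :
    (S.set i v).getD k [] = if i = k ∧ k < S.length then v else S.getD k [] := by
  simp only [List.getD_eq_getElem?_getD, List.getElem?_set]
  by_cases h : i = k
  · subst h
    by_cases h' : i < S.length <;> simp [h']
  · simp [h]

theorem ustep_cell (P : List (List ℕ)) (c : ℕ × List (List ℕ)) (k j : ℕ) :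
    cell (ustep P c) k j =
      rule P c.2.length c.1 k j (cell c k (j - 1)) (cell c k j) (cell c k (j + 1)) := by
  unfold cell rule ent ustep
  dsimp only
  by_cases h : (P.getD c.1 []).getD 1 0 = k ∧ k < c.2.length
  · rw [if_pos h]
    split_ifs with h1 h2 h3
    · rw [getD_set, if_pos h, h2]; rfl
    · obtain ⟨j, rfl⟩ := Nat.exists_eq_succ_of_ne_zero h2
      rw [getD_set, if_pos h, h.1]; rfl
    · rw [getD_set, if_pos h, h.1]
      rcases c.2.getD k [] with _ | _ <;> rfl
    · rfl
  · rw [if_neg h]
    split_ifs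
    · rw [getD_set, if_neg h]
    · rw [getD_set, if_neg h]
    · rfl

theorem ent_le (P : List (List ℕ)) (q i : ℕ) : ent P q i ≤ P.flatten.sum := by
  simp only [ent, List.getD_eq_getElem?_getD]
  rcases h : P[q]? with _ | r
  · simp
  · rcases h' : r[i]? with _ | g
    · simp [h']
    · simp only [Option.getD_some, h']
      exact List.single_le_sum (fun _ _ => Nat.zero_le _) _
        (List.mem_flatten.2 ⟨r, List.mem_of_getElem? h, List.mem_of_getElem? h'⟩)

theorem ent_drop (e : List (List ℕ)) (q i : ℕ) : ent (e.drop 2) q i = ent e (2 + q) i := by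
  simp [ent, List.getD_eq_getElem?_getD]

theorem uinit_cell (e : List (List ℕ)) (y : Str) (k j : ℕ) : cell (uinit e y) k j =
    if ent e 0 0 = k ∧ k < (e.getD 1 []).length then
      (y.map fun b => bif b then ent e 0 3 else ent e 0 2).getD j 0 else 0 := by
  unfold cell uinit ent
  dsimp only
  rw [getD_set, List.length_map]
  split_ifs
  · rfl
  · rw [List.getD_eq_getElem?_getD (l := List.map _ _), List.getElem?_map]
    rcases (e.getD 1 [])[k]? with _ | _ <;> rfl

theorem getD_mid (f : Bool → ℕ) (pre w suf : Str) (j : ℕ) :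
    ((pre ++ (w ++ suf)).map f).getD j 0 =
      if pre.length ≤ j ∧ j < pre.length + w.length then f (w.getD (j - pre.length) false)
      else ((pre ++ (List.replicate w.length false ++ suf)).map f).getD j 0 := by
  simp only [List.getD_eq_getElem?_getD, List.getElem?_map, List.getElem?_append,
    List.length_replicate]
  by_cases h1 : j < pre.length
  · simp [h1, Nat.not_le.2 h1]
  · by_cases h2 : j - pre.length < w.length
    · simp [h1, h2, Nat.not_lt.1 h1, show j < pre.length + w.length by omega]
    · simp [h1, h2, show ¬ j < pre.length + w.length by omega]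

/-- The run of the table machine. -/
def run (e : List (List ℕ)) (y : Str) (t : ℕ) : ℕ × List (List ℕ) :=
  (ustep (e.drop 2))^[t] (uinit e y)

theorem run_succ (e : List (List ℕ)) (y : Str) (t : ℕ) :
    run e y (t + 1) = ustep (e.drop 2) (run e y t) := iterate_succ_apply' _ _ _

theorem run_length (e : List (List ℕ)) (y : Str) (t : ℕ) :
    (run e y t).2.length = (e.getD 1 []).length := by
  induction t with
  | zero => simp [run, uinit]
  | succ t ih => rw [run_succ, ustep_length, ih]

theorem run_le (e : List (List ℕ)) (y : Str) (t : ℕ) :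
    (run e y t).1 ≤ e.flatten.sum ∧ ∀ k j, cell (run e y t) k j ≤ e.flatten.sum := by
  induction t with
  | zero =>
    refine ⟨ent_le e 0 5, fun k j => ?_⟩
    change cell (uinit e y) k j ≤ _
    rw [uinit_cell, List.getD_eq_getElem?_getD (l := List.map _ _), List.getElem?_map]
    split_ifs
    · rcases y[j]? with _ | _ | _
      · exact Nat.zero_le _
      · exact ent_le e 0 2
      · exact ent_le e 0 3
    · exact Nat.zero_le _
  | succ t ih =>
    rw [run_succ]
    refine ⟨by rw [ustep_fst, ent_drop]; exact ent_le _ _ _, fun k j => ?_⟩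
    rw [ustep_cell, rule]
    split_ifs
    · rw [ent_drop]; exact ent_le _ _ _
    all_goals exact ih.2 _ _

theorem urun_singleton {e : List (List ℕ)} {y : Str} {t : ℕ} {b : Bool} (h : urun e y t = [b]) :
    b = true ↔ cell (run e y t) (ent e 0 1) 0 = ent e 0 4 := by
  unfold urun at h
  unfold cell run ent
  obtain ⟨c, h1, h2⟩ := List.map_eq_singleton_iff.1 h
  rw [h1, ← h2]; simp

/-- The consistency check on six neighbouring entries of the tableau. -/
def chk (e : List (List ℕ)) (k j : ℕ) (a : List ℕ) : Bool :=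
  decide ((ent (e.drop 2) (a.getD 0 0) 1 = k ∧ j = 0 →
      a.getD 1 0 = ent (e.drop 2) (a.getD 0 0) (3 + a.getD 3 0)) ∧
    a.getD 5 0 = rule (e.drop 2) (e.getD 1 []).length (a.getD 0 0) k j (a.getD 2 0) (a.getD 3 0)
      (a.getD 4 0))

/-- The forbidden patterns of the tableau. -/
def tableau (e T₁ T₆ : List (List ℕ)) (G : ℕ) (y₀ y₁ : Str) (T : ℕ) :
    List (List ((ℕ × ℕ × ℕ) × ℕ)) :=
  ((T₁.filter fun a => !(a == [ent e 0 5])).map fun a => [(0, G, 0)].zip a) ++
  (((T₁.filter fun a => !(a == [ent e 0 4])).map fun a => [(T, ent e 0 1, 0)].zip a) ++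
  (List.range G).flatMap fun k => (List.range (T + 1)).flatMap fun j =>
    ((T₁.filter fun a => !(a == [cell (uinit e y₀) k j] || a == [cell (uinit e y₁) k j])).map
      fun a => [(0, k, j)].zip a) ++
    (List.range T).flatMap fun t => (T₆.filter fun a => !chk e k j a).map fun a =>
      [(t, G, 0), (t + 1, G, 0), (t, k, j - 1), (t, k, j), (t, k, j + 1), (t + 1, k, j)].zip a)

theorem tableau_iff {e T₁ T₆ : List (List ℕ)} {G : ℕ}
    (h₁ : ∀ a, a ∈ T₁ ↔ a.length = 1 ∧ ∀ g ∈ a, g < G)
    (h₆ : ∀ a, a ∈ T₆ ↔ a.length = 6 ∧ ∀ g ∈ a, g < G) (y₀ y₁ : Str) (T : ℕ)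
    {val : ℕ × ℕ × ℕ → ℕ} (hv : ∀ l, val l < G) :
    (∀ F ∈ tableau e T₁ T₆ G y₀ y₁ T, ∃ p ∈ F, val p.1 ≠ p.2) ↔
      val (0, G, 0) = ent e 0 5 ∧ val (T, ent e 0 1, 0) = ent e 0 4 ∧ ∀ k < G, ∀ j ≤ T,
        (val (0, k, j) = cell (uinit e y₀) k j ∨ val (0, k, j) = cell (uinit e y₁) k j) ∧
        ∀ t < T, (ent (e.drop 2) (val (t, G, 0)) 1 = k ∧ j = 0 →
          val (t + 1, G, 0) = ent (e.drop 2) (val (t, G, 0)) (3 + val (t, k, j))) ∧
          val (t + 1, k, j) = rule (e.drop 2) (e.getD 1 []).length (val (t, G, 0)) k j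
            (val (t, k, j - 1)) (val (t, k, j)) (val (t, k, j + 1)) := by
  have e1 : ∀ l : ℕ × ℕ × ℕ, ∀ a, a ∈ T₁ ↔ a.length = [l].length ∧ ∀ g ∈ a, g < G := fun _ => h₁
  have e6 : ∀ l₁ l₂ l₃ l₄ l₅ l₆ : ℕ × ℕ × ℕ, ∀ a, a ∈ T₆ ↔
    a.length = [l₁, l₂, l₃, l₄, l₅, l₆].length ∧ ∀ g ∈ a, g < G := fun _ _ _ _ _ _ => h₆
  simp only [tableau, List.forall_mem_append, List.forall_mem_flatMap,
    forbid_iff (e1 _) _ hv, forbid_iff (e6 _ _ _ _ _ _) _ hv, List.mem_range, Nat.lt_succ_iff]
  simp [chk, imp_iff_not_or (a := ent _ _ _ = _), imp_iff_not_or (a := _ = 0)]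

theorem tableau_sat {e T₁ T₆ : List (List ℕ)} {G : ℕ} (hG : e.flatten.sum < G)
    (h₁ : ∀ a, a ∈ T₁ ↔ a.length = 1 ∧ ∀ g ∈ a, g < G)
    (h₆ : ∀ a, a ∈ T₆ ↔ a.length = 6 ∧ ∀ g ∈ a, g < G) (pre suf : Str) (N T : ℕ) :
    (toCNF G (tableau e T₁ T₆ G (pre ++ (List.replicate N false ++ suf))
      (pre ++ (List.replicate N true ++ suf)) T)).Sat ↔ ∃ w : Str, w.length = N ∧
      cell (run e (pre ++ (w ++ suf)) T) (ent e 0 1) 0 = ent e 0 4 := by
  have hP : ∀ q, ent (e.drop 2) q 1 < G := fun q => by
    rw [ent_drop]; exact (ent_le _ _ _).trans_lt hG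
  rw [sat_toCNF (by omega)]
  constructor
  · rintro ⟨val, hv, h⟩
    obtain ⟨h0, hT, h⟩ := (tableau_iff h₁ h₆ _ _ _ hv).1 h
    refine ⟨(List.range N).map fun i => val (0, ent e 0 0, pre.length + i) == ent e 0 3,
      by simp, ?_⟩
    set w := (List.range N).map fun i => val (0, ent e 0 0, pre.length + i) == ent e 0 3 with hw
    have hN : w.length = N := by simp [hw]
    have key : ∀ t ≤ T, val (t, G, 0) = (run e (pre ++ (w ++ suf)) t).1 ∧
        ∀ k < G, ∀ j, j + t ≤ T → val (t, k, j) = cell (run e (pre ++ (w ++ suf)) t) k j := by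
      intro t
      induction t with
      | zero =>
        refine fun _ => ⟨h0, fun k hk j hj => ?_⟩
        have := (h k hk j hj).1
        change _ = cell (uinit e _) k j
        simp only [uinit_cell] at this ⊢
        split_ifs at this ⊢ with hc
        · rw [getD_mid _ _ (List.replicate N true), getD_mid _ _ (List.replicate N false)] at this
          rw [getD_mid, hN]
          simp only [List.length_replicate] at this
          split_ifs at this ⊢ with hj'
          · have h2 : j - pre.length < N := by omega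
            have h3 : pre.length + (j - pre.length) = j := by omega
            simp only [List.getD_eq_getElem?_getD, List.getElem?_replicate, h2, if_true,
              Option.getD_some, cond_true, cond_false] at this
            simp only [hw, List.getD_eq_getElem?_getD, List.getElem?_map, List.getElem?_range h2,
              Option.map_some, Option.getD_some, h3, hc.1]
            by_cases h4 : val (0, k, j) = ent e 0 3
            · simp [h4]
            · rw [beq_false_of_ne h4, this.resolve_right h4]; rfl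
          · exact this.elim id id
        · exact this.elim id id
      | succ t ih =>
        intro ht
        obtain ⟨i1, i2⟩ := ih (by omega)
        refine ⟨?_, fun k hk j hj => ?_⟩
        · rw [((h _ (hP (val (t, G, 0))) 0 (by omega)).2 t ht).1 ⟨rfl, rfl⟩, run_succ, ustep_fst,
            i2 _ (hP _) 0 (by omega), i1]
        · rw [((h k hk j (by omega)).2 t ht).2, run_succ, ustep_cell, run_length, i1,
            i2 k hk _ (by omega), i2 k hk _ (by omega), i2 k hk _ (by omega)]
    rw [← hT]
    exact ((key T le_rfl).2 _ ((ent_le _ _ _).trans_lt hG) 0 (by omega)).symm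
  · rintro ⟨w, rfl, h⟩
    have hb : ∀ l : ℕ × ℕ × ℕ, (if l.2.1 = G then (run e (pre ++ (w ++ suf)) l.1).1 else
        cell (run e (pre ++ (w ++ suf)) l.1) l.2.1 l.2.2) < G := fun l => by
      split_ifs
      · exact (run_le _ _ _).1.trans_lt hG
      · exact ((run_le _ _ _).2 _ _).trans_lt hG
    refine ⟨_, hb, (tableau_iff h₁ h₆ _ _ _ hb).2 ⟨by simp [run, uinit, ent], ?_,
      fun k hk j _ => ⟨?_, fun t _ => ⟨?_, ?_⟩⟩⟩⟩
    · simp only [if_neg ((ent_le e 0 1).trans_lt hG).ne, h]
    · simp only [if_neg hk.ne]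
      change cell (uinit e _) k j = _ ∨ cell (uinit e _) k j = _
      simp only [uinit_cell]
      split_ifs
      · rw [getD_mid _ _ (List.replicate _ true), getD_mid _ _ (List.replicate _ false), getD_mid]
        simp only [List.length_replicate]
        split_ifs with hj'
        · have h2 : j - pre.length < w.length := by omega
          simp only [List.getD_eq_getElem?_getD (l := List.replicate _ _), List.getElem?_replicate,
            h2, if_true, Option.getD_some]
          cases w.getD (j - pre.length) false <;> simp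
        · exact Or.inl rfl
      · exact Or.inl rfl
    · simp only [if_true, if_neg hk.ne]
      rintro ⟨rfl, rfl⟩
      rw [run_succ, ustep_fst]
    · simp only [if_true, if_neg hk.ne]
      rw [run_succ, ustep_cell, run_length]

end Cook

theorem headD_blocks (w r : Str) : (blocks (delimit w ++ r)).headD [] = w := by
  have : ∀ (r : Str) (s : Bool × Str × List Str), ∃ l, (r.foldl blockStep s).2.2 = s.2.2 ++ l := by
    intro r
    induction r with
    | nil => exact fun s => ⟨[], by simp⟩
    | cons b r ih =>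
      rintro ⟨p, c, acc⟩
      obtain ⟨l, hl⟩ := ih (blockStep (p, c, acc) b)
      rw [List.foldl_cons, hl]
      cases p <;> cases b <;> simp [blockStep]
  obtain ⟨l, hl⟩ := this r (false, [], [] ++ [[] ++ w])
  rw [blocks, foldl_blockStep_delimit, hl]
  rfl

open Cook in
/-- **Cook-Levin theorem.** -/
theorem cook {L : DecisionProblem} (h : L ∈ NP) :
    ∃ f : Str → CNF, PT f ∧ ∀ x, L x = true ↔ (f x).Sat := by
  obtain ⟨p, R, hR, h⟩ := mem_NP_iff.1 h
  have hR' : PT fun a : Str × ℕ => decide (((blocks a.2.bits).headD []).length ≤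
      p.eval a.1.length ∧ R (a.1, (blocks a.2.bits).headD []) = true) := by fun_prop
  obtain ⟨e, q, he⟩ := exists_code hR'.isPolyTime
  obtain ⟨T₁, h₁⟩ := exists_tuples (e.flatten.sum + 1) 1
  obtain ⟨T₆, h₆⟩ := exists_tuples (e.flatten.sum + 1) 6
  refine ⟨fun x => toCNF (e.flatten.sum + 1) (tableau e T₁ T₆ (e.flatten.sum + 1)
    (bitEncode (x, 0) ++ (List.replicate (2 * p.eval x.length + 1) false ++ [true]))
    (bitEncode (x, 0) ++ (List.replicate (2 * p.eval x.length + 1) true ++ [true]))
    (q.eval (2 * sz x + 1 + (2 * p.eval x.length + 1 + 1)))), ?_, fun x => ?_⟩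
  · unfold toCNF tableau chk rule cell ent uinit
    fun_prop
  · rw [tableau_sat (Nat.lt_succ_self _) h₁ h₆, h]
    have key : ∀ w : Str, w.length = 2 * p.eval x.length + 1 →
        (cell (run e (bitEncode (x, 0) ++ (w ++ [true]))
          (q.eval (2 * sz x + 1 + (2 * p.eval x.length + 1 + 1)))) (ent e 0 1) 0 = ent e 0 4 ↔
        ((blocks (w ++ [true])).headD []).length ≤ p.eval x.length ∧
          R (x, (blocks (w ++ [true])).headD []) = true) := by
      intro w hw
      have := he (x, ofBits (w ++ [true])) (q.eval (2 * sz x + 1 + (2 * p.eval x.length + 1 + 1)))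
        (le_of_eq (by
          rw [sz_pair, sz_nat, ← Nat.size_eq_bits_len, bits_ofBits_concat, List.length_append, hw]
          rfl))
      rw [enc_pair, enc_nat, bits_ofBits_concat, enc_bool] at this
      rw [enc_pair, enc_nat, Nat.zero_bits, List.append_nil, ← urun_singleton this]
      simp
    constructor
    · rintro ⟨w, hw, hR⟩
      refine ⟨delimit w ++ List.replicate (2 * (p.eval x.length - w.length)) true, ?_, ?_⟩
      · simp; omega
      · rw [key _ (by simp; omega), List.append_assoc]
        rw [headD_blocks]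
        exact ⟨hw, hR⟩
    · rintro ⟨w, hw, hc⟩
      exact ⟨_, (key w hw).1 hc⟩

end Pool.Agent.Lib.PolyTime
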