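import Pool.Agent.Lib.PolyTime.Univ

/-! Total parsers for codes, enumeration of machines, and closure properties of `P` and `NP`. -/

namespace Pool.Agent.Lib.PolyTime

open Function N487b59b3 N68a2faeb

variable {α β : Type} [N487b59b3 α] [N487b59b3 β]

/-- One step of the block parser. -/
def blockStep (s : Bool × Str × List Str) (b : Bool) : Bool × Str × List Str :=
  bif s.1 then (false, s.2.1 ++ [b], s.2.2)
  else bif b then (true, s.2.1, s.2.2) else (false, [], s.2.2 ++ [s.2.1])

/-- Split a bit string into delimited blocks. -/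
def blocks (l : Str) : List Str := (l.foldl blockStep (false, [], [])).2.2

theorem foldl_blockStep_delimit (x r cur : Str) (acc : List Str) :
    (delimit x ++ r).foldl blockStep (false, cur, acc) =
      r.foldl blockStep (false, [], acc ++ [cur ++ x]) := by
  induction x generalizing cur with
  | nil => simp [delimit, blockStep]
  | cons b x ih => simp [delimit, blockStep, -List.foldl_append, ih]

theorem blocks_enc (l : List α) : blocks (bitEncode l) = l.map bitEncode := by
  have : ∀ acc : List Str, (bitEncode l).foldl blockStep (false, [], acc) =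
      (false, [], acc ++ l.map bitEncode) := by
    induction l with
    | nil => simp
    | cons a l ih => intro acc; rw [enc_cons, foldl_blockStep_delimit, ih]; simp
  simp [blocks, this]

@[fun_prop] theorem PT.blocks {l : α → Str} (hl : PT l) : PT (fun a => blocks (l a)) := by
  refine (PT.foldl_growth (f := fun _ s b => blockStep s b) hl (PT.const _)
    (by unfold blockStep; fun_prop) (fun _ => 6) (PB.const 6) fun _ s b => ?_).snd.snd
  obtain ⟨p, c, acc⟩ := s
  cases p <;> cases b <;> simp [blockStep] <;> omega

/-- Read a bit string as a machine code. -/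
def decCode (l : Str) : List (List ℕ) := (blocks l).map fun r => (blocks r).map ofBits

theorem decCode_enc (e : List (List ℕ)) : decCode (bitEncode e) = e := by
  rw [decCode, blocks_enc, List.map_map]
  conv_rhs => rw [← List.map_id e]
  refine List.map_congr_left fun r _ => ?_
  simp only [comp, blocks_enc, List.map_map, id]
  conv_rhs => rw [← List.map_id r]
  exact List.map_congr_left fun n _ => by simp [enc_nat, ofBits_bits]

@[fun_prop] theorem PT.decCode {l : α → Str} (hl : PT l) : PT (fun a => decCode (l a)) := by
  unfold PolyTime.decCode; fun_prop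

/-- Read the code of a bit string back. -/
def decStr (l : Str) : Str := (blocks l).map fun r => r.headD false

theorem decStr_enc (x : Str) : decStr (bitEncode x) = x := by
  rw [decStr, blocks_enc, List.map_map]
  conv_rhs => rw [← List.map_id x]
  exact List.map_congr_left fun _ _ => rfl

@[fun_prop] theorem PT.decStr {l : α → Str} (hl : PT l) : PT (fun a => decStr (l a)) := by
  unfold PolyTime.decStr; fun_prop

theorem mem_P_iff {L : DecisionProblem} : L ∈ N68a2faeb.P ↔ PT L := isPolyTime_iff

theorem mem_NP_iff {L : DecisionProblem} : L ∈ NP ↔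
    ∃ (p : Polynomial ℕ) (R : Str × Str → Bool), PT R ∧
      ∀ x, L x ↔ ∃ w : Str, w.length ≤ p.eval x.length ∧ R (x, w) := by
  simp only [NP, Set.mem_ofPred_eq, isPolyTime_iff]

/-- Membership in `NP` from a polynomial-time verifier on structured witnesses `dec w`. -/
theorem mem_NP_of {L : DecisionProblem} (V : Str → β → Prop) (dec : Str → β)
    (hV : PTP fun p : Str × β => V p.1 p.2) (hdec : PT dec) (p : Polynomial ℕ)
    (sound : ∀ x y, V x y → L x)
    (complete : ∀ x, L x → ∃ w : Str, w.length ≤ p.eval x.length ∧ V x (dec w)) : L ∈ NP := by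
  obtain ⟨b, hb, h⟩ := hV
  refine mem_NP_iff.2 ⟨p, fun q => b (q.1, dec q.2), by fun_prop, fun x => ⟨fun hx => ?_, ?_⟩⟩
  · obtain ⟨w, hw, hv⟩ := complete x hx
    exact ⟨w, hw, (h (x, dec w)).2 hv⟩
  · rintro ⟨w, -, hw⟩
    exact sound x _ ((h (x, dec w)).1 hw)

/-- `NP` is closed under polynomial-time many-one reductions. -/
theorem NP_of_reduce {A B : DecisionProblem} {f : Str → Str} (hf : PT f) (h : ∀ x, A x = B (f x))
    (hB : B ∈ NP) : A ∈ NP := by
  obtain ⟨p, R, hR, hB⟩ := mem_NP_iff.1 hB
  obtain ⟨q, hq⟩ := (Small.length hf : Small fun x => (f x).length)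
  refine mem_NP_of (β := Str) (fun x w => w.length ≤ p.eval (f x).length ∧ R (f x, w) = true) id
    (by fun_prop) PT.id (p.comp (q.comp (Polynomial.C 3 * Polynomial.X)))
    (fun x w hw => by rw [h, hB]; exact ⟨w, hw⟩) fun x hx => ?_
  rw [h, hB] at hx
  obtain ⟨w, hw, hR⟩ := hx
  refine ⟨w, hw.trans ?_, hw, hR⟩
  simp only [Polynomial.eval_comp, Polynomial.eval_mul, Polynomial.eval_C, Polynomial.eval_X]
  exact eval_mono p (by simpa [sz_str] using hq x)

end Pool.Agent.Lib.PolyTime
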