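import Pool.Agent.Lib.PolyTime.Parse

/-! Polynomial-time rational arithmetic. -/

namespace Pool.Agent.Lib.PolyTime

open Function N487b59b3 N68a2faeb

variable {α β γ : Type} [N487b59b3 α] [N487b59b3 β] [N487b59b3 γ]

/-- Multiplicative height of a rational number. -/
def ht (q : ℚ) : ℕ := max q.num.natAbs q.den

theorem sz_int (z : ℤ) : sz z = 2 * sz z.toNat + 1 + sz (-z).toNat := sz_pair _ _

theorem sz_rat (q : ℚ) : sz q = 2 * sz q.num + 1 + sz q.den := sz_pair _ _

theorem sz_rat_le (q : ℚ) : sz q ≤ 7 * sz (ht q) + 3 := by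
  have h1 : sz q.num.toNat ≤ sz (ht q) := sz_mono (le_trans (by omega) (le_max_left _ _))
  have h2 : sz (-q.num).toNat ≤ sz (ht q) := sz_mono (le_trans (by omega) (le_max_left _ _))
  have h3 : sz q.den ≤ sz (ht q) := sz_mono (le_max_right _ _)
  rw [sz_rat, sz_int]; omega

theorem sz_ht_le (q : ℚ) : sz (ht q) ≤ sz q := by
  rw [sz_rat, sz_int, ht]
  rcases le_total q.num.natAbs q.den with h | h
  · rw [max_eq_right h]; omega
  · rw [max_eq_left h]
    rcases le_total 0 q.num with h' | h'
    · rw [show q.num.natAbs = q.num.toNat by omega]; omega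
    · rw [show q.num.natAbs = (-q.num).toNat by omega]; omega

theorem ht_mkRat_le (z : ℤ) {d : ℕ} (hd : d ≠ 0) : ht (mkRat z d) ≤ max z.natAbs d := by
  unfold ht
  rw [Rat.num_mkRat, Rat.den_mkRat, if_neg hd, if_neg hd]
  exact max_le_max (Int.natAbs_ediv_le_natAbs _ _) (Nat.div_le_self _ _)

theorem ht_mul_le (p q : ℚ) : ht (p * q) ≤ ht p * ht q := by
  rw [Rat.mul_eq_mkRat]
  refine (ht_mkRat_le _ (Nat.mul_ne_zero p.den_nz q.den_nz)).trans (max_le ?_ ?_)
  · rw [Int.natAbs_mul]; exact Nat.mul_le_mul (le_max_left _ _) (le_max_left _ _)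
  · exact Nat.mul_le_mul (le_max_right _ _) (le_max_right _ _)

theorem ht_add_le (p q : ℚ) : ht (p + q) ≤ 2 * (ht p * ht q) := by
  rw [Rat.add_def']
  have h1 : p.num.natAbs * q.den ≤ ht p * ht q :=
    Nat.mul_le_mul (le_max_left _ _) (le_max_right _ _)
  have h2 : q.num.natAbs * p.den ≤ ht p * ht q := by
    rw [mul_comm]; exact Nat.mul_le_mul (le_max_right _ _) (le_max_left _ _)
  have h3 : p.den * q.den ≤ ht p * ht q := Nat.mul_le_mul (le_max_right _ _) (le_max_right _ _)
  refine (ht_mkRat_le _ (Nat.mul_ne_zero p.den_nz q.den_nz)).trans (max_le ?_ (by omega))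
  refine (Int.natAbs_add_le _ _).trans ?_
  simp only [Int.natAbs_mul, Int.natAbs_natCast]
  omega

namespace PT

/-- `foldl` with a potential function `φ` controlling the size of the accumulator. -/
theorem foldl_potential {l : α → List γ} {s : α → β} {f : α → β → γ → β} (hl : PT l) (hs : PT s)
    (hf : PT (fun p : α × β × γ => f p.1 p.2.1 p.2.2)) (φ : β → ℕ) (hφ : PB φ PolyTime.sz)
    (hφ' : Small φ) (g : α × γ → ℕ) (hg : Small g) (h : ∀ a b x, φ (f a b x) ≤ φ b + g (a, x)) :
    PT (fun a => (l a).foldl (f a) (s a)) := by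
  refine foldl hl hs hf ?_
  obtain ⟨q, hq⟩ := hg
  have h1 := hl.size.reindex (Prod.fst : α × ℕ → α)
  have h2 := PB.reindex (hφ'.comp hs) (Prod.fst : α × ℕ → α)
  refine (hφ.reindex fun p : α × ℕ => ((l p.1).take p.2).foldl (f p.1) (s p.1)).trans ?_
  refine (h2.add (h1.mul (PB.eval q ((((PB.const 2).mul PB.self).add (PB.const 1)).add
    h1)))).mono fun p => ?_
  have key : ∀ (r : List γ) (b : β), (∀ x ∈ r, x ∈ l p.1) → φ (r.foldl (f p.1) b) ≤
      φ b + r.length * q.eval (2 * PolyTime.sz p.1 + 1 + PolyTime.sz (l p.1)) := by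
    intro r
    induction r with
    | nil => simp
    | cons x r ih =>
      intro b hr
      have h3 := ih (f p.1 b x) fun y hy => hr y (by simp [hy])
      have h4 := h p.1 b x
      have h5 : g (p.1, x) ≤ q.eval (2 * PolyTime.sz p.1 + 1 + PolyTime.sz (l p.1)) := by
        refine (hq _).trans (eval_mono q ?_)
        have := sz_le_of_mem (hr x (by simp))
        simp; omega
      simp only [List.foldl_cons, List.length_cons]
      nlinarith
  refine (key _ _ fun x hx => List.mem_of_mem_take hx).trans ?_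
  have : ((l p.1).take p.2).length ≤ PolyTime.sz (l p.1) :=
    (List.length_take_le' _ _).trans (length_le_sz _)
  gcongr

@[fun_prop] theorem mkRat {z : α → ℤ} {d : α → ℕ} (hz : PT z) (hd : PT d) :
    PT (fun a => mkRat (z a) (d a)) := by
  refine rat_of_num_den ?_ ?_
  · refine (show PT (fun a => if d a = 0 then (0 : ℤ) else
      (((z a).toNat / (d a).gcd (z a).natAbs : ℕ) : ℤ) -
        (((-z a).toNat / (d a).gcd (z a).natAbs : ℕ) : ℤ)) by fun_prop).congr fun a => ?_
    rw [Rat.num_mkRat]
    split_ifs with h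
    · rfl
    · rcases le_total 0 (z a) with h' | h'
      · rw [Int.toNat_eq_zero.2 (by omega : -z a ≤ 0)]
        simp [Int.toNat_of_nonneg h']
      · rw [Int.toNat_eq_zero.2 h']
        have hdvd : (((d a).gcd (z a).natAbs : ℕ) : ℤ) ∣ -z a := by
          rw [Int.dvd_neg, ← Int.natAbs_dvd_natAbs]
          simpa using Nat.gcd_dvd_right _ _
        simp only [Nat.zero_div, Int.natCast_ediv, Int.toNat_of_nonneg (by omega : 0 ≤ -z a)]
        rw [Int.neg_ediv_of_dvd (Int.dvd_neg.1 hdvd)]
        simp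
  · refine (show PT (fun a => if d a = 0 then 1 else d a / (d a).gcd (z a).natAbs) by
      fun_prop).congr fun a => ?_
    rw [Rat.den_mkRat]

@[fun_prop] theorem rat_add {p q : α → ℚ} (hp : PT p) (hq : PT q) : PT (fun a => p a + q a) :=
  (show PT (fun a => _root_.mkRat ((p a).num * (q a).den + (q a).num * (p a).den)
    ((p a).den * (q a).den)) by fun_prop).congr fun _ => Rat.add_def' _ _

@[fun_prop] theorem rat_mul {p q : α → ℚ} (hp : PT p) (hq : PT q) : PT (fun a => p a * q a) :=
  (show PT (fun a => _root_.mkRat ((p a).num * (q a).num) ((p a).den * (q a).den)) by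
    fun_prop).congr fun _ => Rat.mul_eq_mkRat _ _

@[fun_prop] theorem rat_neg {p : α → ℚ} (hp : PT p) : PT (fun a => -p a) :=
  (rat_mul (PT.const (-1)) hp).congr fun _ => by ring

@[fun_prop] theorem rat_sub {p q : α → ℚ} (hp : PT p) (hq : PT q) : PT (fun a => p a - q a) :=
  (rat_add hp hq.rat_neg).congr fun _ => by ring

@[fun_prop] theorem intCast_rat {z : α → ℤ} (hz : PT z) : PT (fun a => (z a : ℚ)) :=
  rat_of_num_den (by simpa using hz) (by simpa using PT.const 1)

@[fun_prop] theorem natCast_rat {n : α → ℕ} (hn : PT n) : PT (fun a => (n a : ℚ)) :=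
  (intCast_rat hn.natCast_int).congr fun _ => by simp

@[fun_prop] theorem rat_inv {p : α → ℚ} (hp : PT p) : PT (fun a => (p a)⁻¹) := by
  refine (show PT (fun a => _root_.mkRat (if (p a).num < 0 then -((p a).den : ℤ) else (p a).den)
    (p a).num.natAbs) by fun_prop).congr fun a => ?_
  rw [Rat.mkRat_eq_div]
  conv_lhs => rw [← Rat.num_div_den (p a), inv_div]
  split_ifs with h
  · rw [Nat.cast_natAbs, abs_of_neg h]; push_cast; rw [neg_div_neg_eq]
  · rw [Nat.cast_natAbs, abs_of_nonneg (not_lt.1 h)]; push_cast; rfl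

@[fun_prop] theorem rat_div {p q : α → ℚ} (hp : PT p) (hq : PT q) : PT (fun a => p a / q a) :=
  (rat_mul hp hq.rat_inv).congr fun _ => div_eq_mul_inv _ _

theorem pb_ht : PB (fun q : ℚ => PolyTime.sz (ht q)) PolyTime.sz :=
  (((PB.const 7).mul PB.self).add (PB.const 3)).mono sz_rat_le

theorem small_ht : Small fun q : ℚ => PolyTime.sz (ht q) := PB.self.mono sz_ht_le

@[fun_prop] theorem rat_sum {l : α → List ℚ} (hl : PT l) : PT (fun a => (l a).sum) := by
  refine (foldl_potential (f := fun _ s x => s + x) hl (PT.const 0) (by fun_prop) _ pb_ht small_ht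
    (fun p => PolyTime.sz p.2 + 2) (by fun_prop) fun _ s x => ?_).congr
    fun a => List.sum_eq_foldl
  have h1 := sz_mono (ht_add_le s x)
  have h2 := sz_mul_le 2 (ht s * ht x)
  have h3 := sz_mul_le (ht s) (ht x)
  have h4 := sz_ht_le x
  have h5 : PolyTime.sz 2 ≤ 2 := sz_le_self 2
  simp only; omega

@[fun_prop] theorem rat_prod {l : α → List ℚ} (hl : PT l) : PT (fun a => (l a).prod) := by
  refine (foldl_potential (f := fun _ s x => s * x) hl (PT.const 1) (by fun_prop) _ pb_ht small_ht
    (fun p => PolyTime.sz p.2) (by fun_prop) fun _ s x => ?_).congr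
    fun a => List.prod_eq_foldl
  have h1 := sz_mono (ht_mul_le s x)
  have h3 := sz_mul_le (ht s) (ht x)
  have h4 := sz_ht_le x
  simp only; omega

@[fun_prop] theorem rat_pow {x : α → ℚ} {n : α → ℕ} (hx : PT x) (hn : PT n) (hs : Small n) :
    PT (fun a => x a ^ n a) :=
  (PT.rat_prod (PT.replicate hn hs hx)).congr fun a => by simp

end PT

namespace PTP

@[fun_prop] theorem rat_le {p q : α → ℚ} (hp : PT p) (hq : PT q) : PTP (fun a => p a ≤ q a) :=
  (show PTP (fun a => 0 ≤ (q a - p a).num) by fun_prop).congr fun a => by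
    rw [Rat.num_nonneg, sub_nonneg]

@[fun_prop] theorem rat_lt {p q : α → ℚ} (hp : PT p) (hq : PT q) : PTP (fun a => p a < q a) :=
  (rat_le hq hp).not.congr fun _ => by simp

end PTP

theorem blocks_flatten (l : List Str) : blocks (l.map delimit).flatten = l := by
  have : ∀ acc : List Str, (l.map delimit).flatten.foldl blockStep (false, [], acc) =
      (false, [], acc ++ l) := by
    induction l with
    | nil => simp
    | cons a l ih =>
      intro acc
      rw [List.map_cons, List.flatten_cons, foldl_blockStep_delimit, ih]; simp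
  simp [blocks, this]

/-- Membership in `NP` with a polynomially bounded witness length given as a function. -/
theorem mem_NP_of_small {L : DecisionProblem} (V : Str → β → Prop) (dec : Str → β)
    (hV : PTP fun p : Str × β => V p.1 p.2) (hdec : PT dec) (g : Str → ℕ) (hg : Small g)
    (sound : ∀ x y, V x y → L x)
    (complete : ∀ x, L x → ∃ w : Str, w.length ≤ g x ∧ V x (dec w)) : L ∈ NP := by
  obtain ⟨q, hq⟩ := hg
  refine mem_NP_of V dec hV hdec (q.comp (Polynomial.C 3 * Polynomial.X)) sound fun x hx => ?_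
  obtain ⟨w, hw, hv⟩ := complete x hx
  exact ⟨w, hw.trans (by simpa [sz_str] using hq x), hv⟩

/-- Universality for arbitrary time bounds. -/
theorem exists_code_time {f : α → β} (M : Turing.TM2ComputableInTime bitEncode bitEncode f) :
    ∃ (e : List (List ℕ)) (C : ℕ), ∀ a t, C * M.time (sz a) ≤ t →
      urun e (bitEncode a) t = bitEncode (f a) := by
  refine ⟨Sim.ucode M.tm M.inputAlphabet M.outputAlphabet,
    (Sim.Q0 M.tm).sup (Sim.depth M.tm), fun a t ht => ?_⟩
  have h1 := M.outputsFun a
  exact Sim.urun_ucode M.tm _ _ _ _ h1.steps t h1.evals_in_steps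
    (le_trans (Nat.mul_le_mul_left _ h1.steps_le_m) ht)

end Pool.Agent.Lib.PolyTime
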