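import Pool.Agent.Lib.PolyTime.Cook

/-! NP-hardness of 3-CNF satisfiability. -/

namespace Pool.Agent.Lib.PolyTime

open Function N487b59b3 N68a2faeb Cook

/-- Splitting of all clauses into clauses with exactly three literals. -/
def split3 (φ : CNF) : CNF :=
  φ.flatMap fun c => List.replicate 3 (Cook.num (c, 1), true) ::
    List.replicate 3 (Cook.num (c, c.length + 1), false) :: (List.range c.length).map fun j =>
      [(Cook.num (c, j + 1), false), (Cook.num ([((c.getD j (0, false)).1, false)], 0),
        (c.getD j (0, false)).2), (Cook.num (c, j + 2), true)]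

theorem length_of_mem_split3 {φ : CNF} {c : List (ℕ × Bool)} (h : c ∈ split3 φ) :
    c.length = 3 := by
  simp only [split3, List.mem_flatMap, List.mem_cons, List.mem_map] at h
  obtain ⟨d, -, rfl | rfl | ⟨j, -, rfl⟩⟩ := h <;> rfl

theorem sat_split3 (φ : CNF) : (split3 φ).Sat ↔ φ.Sat := by
  classical
  simp only [CNF.Sat, split3, List.forall_mem_flatMap, List.forall_mem_cons, List.forall_mem_map,
    List.mem_range]
  constructor
  · rintro ⟨v, hv⟩
    refine ⟨fun i => v (Cook.num ([(i, false)], 0)), fun c hc => ?_⟩
    obtain ⟨h1, h2, h3⟩ := hv c hc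
    by_contra hn
    have : ∀ j ≤ c.length, v (Cook.num (c, j + 1)) = true := by
      intro j
      induction j with
      | zero => intro _; simpa using h1
      | succ j ih =>
        intro hj
        have h4 := h3 j hj
        have h5 := ih (by omega)
        simp only [List.mem_cons, List.not_mem_nil, or_false, exists_eq_or_imp, exists_eq_left,
          h5] at h4
        rcases h4 with h4 | h4 | h4
        · simp at h4
        · refine absurd ⟨c.getD j (0, false), ?_, h4⟩ hn
          rw [List.getD_eq_getElem _ _ hj]; exact List.getElem_mem _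
        · exact h4
    simp [this _ le_rfl] at h2
  · rintro ⟨v, hv⟩
    let u : List (ℕ × Bool) × ℕ → Bool := fun p => if p.2 = 0 then v (p.1.headD (0, false)).1
      else decide (∃ i, p.2 ≤ i + 1 ∧ i < p.1.length ∧
        v (p.1.getD i (0, false)).1 = (p.1.getD i (0, false)).2)
    have key : ∀ p, extend Cook.num u (fun _ => false) (Cook.num p) = u p := Cook.num_inj.extend_apply _ _
    refine ⟨extend Cook.num u fun _ => false, fun c hc => ⟨?_, ?_, fun j hj => ?_⟩⟩
    · obtain ⟨l, hl, h⟩ := hv c hc
      obtain ⟨i, hi, rfl⟩ := List.getElem_of_mem hl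
      refine ⟨(Cook.num (c, 1), true), by simp, ?_⟩
      simp only [key, u, one_ne_zero, if_false, decide_eq_true_eq]
      exact ⟨i, by omega, hi, by rwa [List.getD_eq_getElem _ _ hi]⟩
    · refine ⟨(Cook.num (c, c.length + 1), false), by simp, ?_⟩
      simp only [key, u, Nat.succ_ne_zero, if_false, decide_eq_false_iff_not]
      rintro ⟨i, h1, h2, -⟩
      omega
    · simp only [List.mem_cons, List.not_mem_nil, or_false, exists_eq_or_imp, exists_eq_left, key,
        u, Nat.succ_ne_zero, if_false, if_true, decide_eq_false_iff_not, decide_eq_true_eq,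
        List.headD_cons]
      by_contra hn
      push Not at hn
      obtain ⟨⟨i, h1, h2, h3⟩, h4, h5⟩ := hn
      by_cases e : i = j
      · subst e; exact h4 h3
      · exact h5 i (by omega) h2 h3

@[fun_prop] theorem PT.split3 {α : Type} [N487b59b3 α] {f : α → CNF} (hf : PT f) :
    PT fun a => split3 (f a) := by
  unfold PolyTime.split3; fun_prop

/-- **Cook-Levin theorem** for formulas whose clauses have exactly three literals. -/
theorem cook3 {L : DecisionProblem} (h : L ∈ NP) :
    ∃ f : Str → CNF, PT f ∧ (∀ x, ∀ c ∈ f x, c.length = 3) ∧ ∀ x, L x = true ↔ (f x).Sat := by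
  obtain ⟨f, hf, h⟩ := cook h
  exact ⟨fun x => split3 (f x), by fun_prop, fun x c => length_of_mem_split3,
    fun x => by rw [h, sat_split3]⟩

end Pool.Agent.Lib.PolyTime
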