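import Pool.Agent.Lib.PolyTime.Typed

/-! Polynomial-time list operations and binary arithmetic. -/

namespace Pool.Agent.Lib.PolyTime

open Function N487b59b3 N68a2faeb

variable {α β γ δ : Type} [N487b59b3 α] [N487b59b3 β] [N487b59b3 γ] [N487b59b3 δ]

theorem sz_reverse (l : List α) : sz l.reverse = sz l := by
  induction l with
  | nil => rfl
  | cons a l ih => simp [ih]; omega

theorem sz_mono {m n : ℕ} (h : m ≤ n) : sz m ≤ sz n := by
  simp only [sz_nat]; exact Nat.size_le_size h

theorem lt_two_pow_sz (n : ℕ) : n < 2 ^ sz n := by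
  rw [sz_nat]; exact Nat.lt_size_self n

theorem sz_le_iff {n k : ℕ} : sz n ≤ k ↔ n < 2 ^ k := by
  rw [sz_nat]; exact Nat.size_le

theorem sz_le_self (n : ℕ) : sz n ≤ n := sz_le_iff.2 Nat.lt_two_pow_self

theorem sz_mul_le (m n : ℕ) : sz (m * n) ≤ sz m + sz n := by
  rw [sz_le_iff, pow_add]
  exact Nat.mul_lt_mul'' (lt_two_pow_sz m) (lt_two_pow_sz n)

theorem sz_add_le (m n : ℕ) : sz (m + n) ≤ sz m + sz n + 1 := by
  rw [sz_le_iff, pow_succ, pow_add]
  have h1 := lt_two_pow_sz m
  have h2 := lt_two_pow_sz n
  have h3 : 0 < 2 ^ sz m := by positivity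
  have h4 : 0 < 2 ^ sz n := by positivity
  nlinarith

theorem sz_bit_le (b : Bool) (n : ℕ) : sz (Nat.bit b n) ≤ sz n + 1 := by
  rw [sz_le_iff, pow_succ, Nat.bit_val]
  have h1 := lt_two_pow_sz n
  have := Bool.toNat_le b
  omega

/-- The number with the given bits, least significant first. -/
def ofBits (l : Str) : ℕ := l.foldr Nat.bit 0

@[simp] theorem ofBits_nil : ofBits [] = 0 := rfl

@[simp] theorem ofBits_cons (b : Bool) (l : Str) : ofBits (b :: l) = Nat.bit b (ofBits l) := rfl

theorem ofBits_bits (n : ℕ) : ofBits n.bits = n := by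
  induction n using Nat.binaryRec' with
  | zero => simp
  | bit b n h ih => rw [Nat.bits_append_bit n b h, ofBits_cons, ih]

theorem ofBits_concat (l : Str) (b : Bool) :
    ofBits (l ++ [b]) = ofBits l + b.toNat * 2 ^ l.length := by
  induction l with
  | nil => simp [Nat.bit_val]
  | cons c l ih => simp [ih, Nat.bit_val, pow_succ]; ring

theorem ofBits_lt (l : Str) : ofBits l < 2 ^ l.length := by
  induction l with
  | nil => simp
  | cons c l ih =>
    have := Bool.toNat_le c
    simp [Nat.bit_val, pow_succ]; omega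

theorem bits_ofBits_concat (l : Str) : (ofBits (l ++ [true])).bits = l ++ [true] := by
  induction l with
  | nil => simp [Nat.bit_val]
  | cons c l ih =>
    rw [List.cons_append, ofBits_cons, Nat.bits_append_bit, ih]
    intro h
    rw [ofBits_concat] at h
    simp at h

namespace PT

@[fun_prop] theorem reverse {l : α → List β} (hl : PT l) : PT (fun a => (l a).reverse) := by
  refine (foldl_growth (f := fun _ acc x => x :: acc) hl (PT.const []) (by fun_prop)
    (fun p => 2 * sz p.2 + 1) (PB.of_le_add 2 fun p => by rw [sz_pair']; omega)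
    fun a b x => by simp; omega).congr fun a => ?_
  simp

@[fun_prop] theorem flatMap {l : α → List β} {f : α → β → List γ} (hl : PT l)
    (hf : PT (fun p : α × β => f p.1 p.2)) : PT (fun a => (l a).flatMap (f a)) := by
  have hf' : PT (fun p : α × List γ × β => p.2.1 ++ f p.1 p.2.2) :=
    PT.append (by fun_prop) (hf.comp (g := fun p : α × List γ × β => (p.1, p.2.2)) (by fun_prop))
  refine (foldl_growth (f := fun a acc x => acc ++ f a x) hl (PT.const []) hf'
    (fun p => sz (f p.1 p.2)) hf.size fun a b x => by simp).congr fun a => ?_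
  have : ∀ (r : List β) (acc : List γ),
      r.foldl (fun acc x => acc ++ f a x) acc = acc ++ r.flatMap (f a) := by
    intro r
    induction r with
    | nil => simp
    | cons x r ih => intro acc; simp [ih]
  simp [this]

@[fun_prop] theorem map {l : α → List β} {f : α → β → γ} (hl : PT l)
    (hf : PT (fun p : α × β => f p.1 p.2)) : PT (fun a => (l a).map (f a)) := by
  refine (flatMap (f := fun a x => [f a x]) hl (by fun_prop)).congr fun a => ?_
  rw [List.map_eq_flatMap]

@[fun_prop] theorem flatten {l : α → List (List β)} (hl : PT l) : PT (fun a => (l a).flatten) := by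
  refine (flatMap (f := fun _ x => x) hl (by fun_prop)).congr fun a => ?_
  simp

@[fun_prop] theorem filter {l : α → List β} {f : α → β → Bool} (hl : PT l)
    (hf : PT (fun p : α × β => f p.1 p.2)) : PT (fun a => (l a).filter (f a)) := by
  refine (flatMap (f := fun a x => bif f a x then [x] else []) hl (by fun_prop)).congr fun a => ?_
  induction l a with
  | nil => rfl
  | cons x r ih => cases h : f a x <;> simp [h, ih]

@[fun_prop] theorem all {l : α → List β} {f : α → β → Bool} (hl : PT l)
    (hf : PT (fun p : α × β => f p.1 p.2)) : PT (fun a => (l a).all (f a)) := by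
  refine (PT.isEmpty (filter (f := fun a x => !f a x) hl (by fun_prop))).congr fun a => ?_
  rw [Bool.eq_iff_iff]
  simp [List.filter_eq_nil_iff]

@[fun_prop] theorem any {l : α → List β} {f : α → β → Bool} (hl : PT l)
    (hf : PT (fun p : α × β => f p.1 p.2)) : PT (fun a => (l a).any (f a)) := by
  refine (PT.not (all (f := fun a x => !f a x) hl (by fun_prop))).congr fun a => ?_
  rw [Bool.eq_iff_iff]
  simp

theorem foldr_growth {l : α → List γ} {s : α → β} {f : α → γ → β → β} (hl : PT l) (hs : PT s)
    (hf : PT (fun p : α × β × γ => f p.1 p.2.2 p.2.1)) (g : α × γ → ℕ) (hg : PB sz g)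
    (h : ∀ a b x, sz (f a x b) ≤ sz b + g (a, x)) :
    PT (fun a => (l a).foldr (f a) (s a)) :=
  (foldl_growth (f := fun a b x => f a x b) hl.reverse hs hf g hg h).congr fun a => by
    rw [List.foldl_reverse]

/-! ### Natural numbers -/

@[fun_prop] theorem bits {n : α → ℕ} (hn : PT n) : PT (fun a => (n a).bits) :=
  hn.bitEncode.congr fun _ => (enc_nat _).symm

@[fun_prop] theorem div2 {n : α → ℕ} (hn : PT n) : PT (fun a => (n a).div2) :=
  of_bitEncode (hn.bits.tail.congr fun a => by rw [enc_nat, Nat.div2_bits_eq_tail])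

@[fun_prop] theorem bodd {n : α → ℕ} (hn : PT n) : PT (fun a => (n a).bodd) :=
  (hn.bits.headD (PT.const false)).congr fun a => by
    rw [Nat.bodd_eq_bits_head]; cases (n a).bits <;> rfl

@[fun_prop] theorem bit {b : α → Bool} {n : α → ℕ} (hb : PT b) (hn : PT n) :
    PT (fun a => Nat.bit (b a) (n a)) := by
  have : PT (fun a => bif (n a).bits.isEmpty && !(b a) then [] else b a :: (n a).bits) := by
    fun_prop
  refine of_bitEncode (this.congr fun a => ?_)
  rw [enc_nat]
  by_cases h : n a = 0 → b a = true
  · rw [Nat.bits_append_bit _ _ h]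
    by_cases h0 : n a = 0
    · simp [h h0]
    · have : (n a).bits ≠ [] := fun h1 => h0 (by rw [← ofBits_bits (n a), h1]; rfl)
      have h2 : (n a).bits.isEmpty = false := by simpa using this
      rw [h2]; rfl
  · push Not at h
    simp [h.1, h.2]

@[fun_prop] theorem ofBits {l : α → Str} (hl : PT l) : PT (fun a => ofBits (l a)) :=
  foldr_growth (f := fun _ b n => Nat.bit b n) hl (PT.const 0) (by fun_prop) (fun _ => 1)
    (PB.const 1) fun _ _ _ => sz_bit_le _ _

end PT

/-- One round of ripple-carry addition. -/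
def addStep (s : ℕ × ℕ × Bool × Str) : ℕ × ℕ × Bool × Str :=
  (s.1.div2, s.2.1.div2, (s.1.bodd && s.2.1.bodd) || (s.2.2.1 && (s.1.bodd || s.2.1.bodd)),
    xor (xor s.1.bodd s.2.1.bodd) s.2.2.1 :: s.2.2.2)

/-- One round of subtraction with borrow. -/
def subStep (s : ℕ × ℕ × Bool × Str) : ℕ × ℕ × Bool × Str :=
  (s.1.div2, s.2.1.div2, (!s.1.bodd && (s.2.1.bodd || s.2.2.1)) || (s.2.1.bodd && s.2.2.1),
    xor (xor s.1.bodd s.2.1.bodd) s.2.2.1 :: s.2.2.2)

theorem addStep_iter (x y m : ℕ) :
    let s := addStep^[m] (x, y, false, [])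
    s.1 = x / 2 ^ m ∧ s.2.1 = y / 2 ^ m ∧ s.2.2.2.length = m ∧
      x + y = (s.1 + s.2.1 + s.2.2.1.toNat) * 2 ^ m + ofBits s.2.2.2.reverse := by
  induction m with
  | zero => simp
  | succ m ih =>
    rw [iterate_succ_apply']
    generalize addStep^[m] (x, y, false, []) = s at *
    obtain ⟨u, v, c, o⟩ := s
    obtain ⟨h1, h2, h3, h4⟩ := ih
    simp only at h1 h2 h3 h4
    refine ⟨?_, ?_, ?_, ?_⟩
    · simp [addStep, Nat.div2_val, h1, Nat.div_div_eq_div_mul, pow_succ]
    · simp [addStep, Nat.div2_val, h2, Nat.div_div_eq_div_mul, pow_succ]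
    · simp [addStep, h3]
    · simp only [addStep, List.reverse_cons, ofBits_concat, List.length_reverse, h3]
      rw [h4]
      have e1 := Nat.bodd_add_div2 u
      have e2 := Nat.bodd_add_div2 v
      generalize u.div2 = u' at *
      generalize v.div2 = v' at *
      generalize u.bodd = bu at *
      generalize v.bodd = bv at *
      subst e1 e2
      cases bu <;> cases bv <;> cases c <;> simp <;> ring

theorem subStep_iter (x y m : ℕ) :
    let s := subStep^[m] (x, y, false, [])
    s.1 = x / 2 ^ m ∧ s.2.1 = y / 2 ^ m ∧ s.2.2.2.length = m ∧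
      x + (s.2.1 + s.2.2.1.toNat) * 2 ^ m = y + s.1 * 2 ^ m + ofBits s.2.2.2.reverse := by
  induction m with
  | zero => simp [add_comm]
  | succ m ih =>
    rw [iterate_succ_apply']
    generalize subStep^[m] (x, y, false, []) = s at *
    obtain ⟨u, v, c, o⟩ := s
    obtain ⟨h1, h2, h3, h4⟩ := ih
    simp only at h1 h2 h3 h4
    refine ⟨?_, ?_, ?_, ?_⟩
    · simp [subStep, Nat.div2_val, h1, Nat.div_div_eq_div_mul, pow_succ]
    · simp [subStep, Nat.div2_val, h2, Nat.div_div_eq_div_mul, pow_succ]
    · simp [subStep, h3]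
    · simp only [subStep, List.reverse_cons, ofBits_concat, List.length_reverse, h3]
      have e1 := Nat.bodd_add_div2 u
      have e2 := Nat.bodd_add_div2 v
      generalize u.div2 = u' at *
      generalize v.div2 = v' at *
      generalize u.bodd = bu at *
      generalize v.bodd = bv at *
      subst e1 e2
      rw [pow_succ]
      generalize 2 ^ m = P at *
      cases bu <;> cases bv <;> cases c <;> simp at h4 ⊢ <;> nlinarith

theorem sz_div2_le (n : ℕ) : sz n.div2 ≤ sz n := sz_mono (by rw [Nat.div2_val]; omega)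

theorem lt_two_pow_bits (x y : ℕ) : x < 2 ^ (x.bits ++ y.bits).length ∧
    y < 2 ^ (x.bits ++ y.bits).length := by
  have h1 := Nat.lt_size_self x
  have h2 := Nat.lt_size_self y
  rw [← Nat.size_eq_bits_len] at h1 h2
  rw [List.length_append]
  exact ⟨h1.trans_le (Nat.pow_le_pow_right (by norm_num) (by omega)),
    h2.trans_le (Nat.pow_le_pow_right (by norm_num) (by omega))⟩

namespace PT

theorem addIter {x y : α → ℕ} (hx : PT x) (hy : PT y) :
    PT (fun a => addStep^[((x a).bits ++ (y a).bits).length] (x a, y a, false, [])) := by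
  refine iterate_growth (F := fun _ s => addStep s) (by fun_prop) (by fun_prop)
    (by unfold addStep; fun_prop) (fun _ => 3) (PB.const 3) fun _ s => ?_
  obtain ⟨u, v, c, o⟩ := s
  have := sz_div2_le u
  have := sz_div2_le v
  simp [addStep]; omega

theorem subIter {x y : α → ℕ} (hx : PT x) (hy : PT y) :
    PT (fun a => subStep^[((x a).bits ++ (y a).bits).length] (x a, y a, false, [])) := by
  refine iterate_growth (F := fun _ s => subStep s) (by fun_prop) (by fun_prop)
    (by unfold subStep; fun_prop) (fun _ => 3) (PB.const 3) fun _ s => ?_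
  obtain ⟨u, v, c, o⟩ := s
  have := sz_div2_le u
  have := sz_div2_le v
  simp [subStep]; omega

@[fun_prop] theorem add {x y : α → ℕ} (hx : PT x) (hy : PT y) : PT (fun a => x a + y a) := by
  have h := addIter hx hy
  have h2 : PT (fun s : ℕ × ℕ × Bool × Str => PolyTime.ofBits (s.2.2.2.reverse ++ [s.2.2.1])) := by
    fun_prop
  refine (h2.comp h).congr fun a => ?_
  obtain ⟨h1, h2, h3, h4⟩ := addStep_iter (x a) (y a) ((x a).bits ++ (y a).bits).length
  obtain ⟨l1, l2⟩ := lt_two_pow_bits (x a) (y a)
  rw [Nat.div_eq_of_lt l1] at h1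
  rw [Nat.div_eq_of_lt l2] at h2
  rw [ofBits_concat, List.length_reverse, h3, h4, h1, h2]
  ring

theorem sub_spec (x y : ℕ) :
    let s := subStep^[(x.bits ++ y.bits).length] (x, y, false, [])
    (s.2.2.1 = true ↔ x < y) ∧ (s.2.2.1 = false → PolyTime.ofBits s.2.2.2.reverse = x - y) := by
  obtain ⟨h1, h2, h3, h4⟩ := subStep_iter x y (x.bits ++ y.bits).length
  obtain ⟨l1, l2⟩ := lt_two_pow_bits x y
  rw [Nat.div_eq_of_lt l1] at h1
  rw [Nat.div_eq_of_lt l2] at h2
  intro s
  have h5 := ofBits_lt s.2.2.2.reverse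
  rw [List.length_reverse, h3] at h5
  rw [h1, h2] at h4
  change x + (0 + s.2.2.1.toNat) * _ = y + 0 * _ + PolyTime.ofBits s.2.2.2.reverse at h4
  generalize 2 ^ (x.bits ++ y.bits).length = P at *
  cases hc : s.2.2.1 <;> simp [hc] at h4 ⊢ <;> omega

@[fun_prop] theorem sub {x y : α → ℕ} (hx : PT x) (hy : PT y) : PT (fun a => x a - y a) := by
  have h := subIter hx hy
  have h2 : PT (fun s : ℕ × ℕ × Bool × Str =>
      bif s.2.2.1 then 0 else PolyTime.ofBits s.2.2.2.reverse) := by fun_prop
  refine (h2.comp h).congr fun a => ?_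
  obtain ⟨h1, h2⟩ := sub_spec (x a) (y a)
  rcases hc : (subStep^[((x a).bits ++ (y a).bits).length] (x a, y a, false, [])).2.2.1
  · rw [h2 hc]; rfl
  · have := h1.1 hc
    simp; omega

end PT

namespace PTP

@[fun_prop] theorem lt {x y : α → ℕ} (hx : PT x) (hy : PT y) : PTP (fun a => x a < y a) :=
  ⟨_, (PT.subIter hx hy).snd.snd.fst, fun a => (PT.sub_spec (x a) (y a)).1⟩

theorem congr {p q : α → Prop} (hp : PTP p) (h : ∀ a, q a ↔ p a) : PTP q := by
  obtain ⟨b, hb, h'⟩ := hp
  exact ⟨b, hb, fun a => (h' a).trans (h a).symm⟩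

@[fun_prop] theorem le {x y : α → ℕ} (hx : PT x) (hy : PT y) : PTP (fun a => x a ≤ y a) :=
  (lt hy hx).not.congr fun _ => by simp

@[fun_prop] theorem gt {x y : α → ℕ} (hx : PT x) (hy : PT y) : PTP (fun a => x a > y a) :=
  lt hy hx

@[fun_prop] theorem ge {x y : α → ℕ} (hx : PT x) (hy : PT y) : PTP (fun a => x a ≥ y a) :=
  le hy hx

@[fun_prop] theorem eq {f g : α → β} (hf : PT f) (hg : PT g) : PTP (fun a => f a = g a) := by
  have h1 : PT (fun a => ofBits (bitEncode (f a) ++ [true])) := by fun_prop
  have h2 : PT (fun a => ofBits (bitEncode (g a) ++ [true])) := by fun_prop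
  refine ((le h1 h2).and (le h2 h1)).congr fun a => ⟨fun h => by simp [h], fun h => ?_⟩
  have := congrArg Nat.bits (le_antisymm h.1 h.2)
  rw [bits_ofBits_concat, bits_ofBits_concat, List.append_cancel_right_eq] at this
  exact bitEncode_injective this

@[fun_prop] theorem ne {f g : α → β} (hf : PT f) (hg : PT g) : PTP (fun a => f a ≠ g a) :=
  (eq hf hg).not

@[fun_prop] theorem const (p : Prop) : PTP (fun _ : α => p) := by
  classical
  exact ⟨fun _ => decide p, PT.const _, fun _ => by simp⟩

@[fun_prop] theorem imp {p q : α → Prop} (hp : PTP p) (hq : PTP q) : PTP (fun a => p a → q a) :=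
  (hp.not.or hq).congr fun a => by tauto

@[fun_prop] theorem iff {p q : α → Prop} (hp : PTP p) (hq : PTP q) : PTP (fun a => p a ↔ q a) :=
  ((hp.imp hq).and (hq.imp hp)).congr fun a => by tauto

theorem forall_mem {l : α → List β} {p : α → β → Prop} (hl : PT l)
    (hp : PTP (fun q : α × β => p q.1 q.2)) : PTP (fun a => ∀ x ∈ l a, p a x) := by
  obtain ⟨b, hb, h⟩ := hp
  exact ⟨_, PT.all (f := fun a x => b (a, x)) hl hb, fun a => by simp [h]⟩

theorem exists_mem {l : α → List β} {p : α → β → Prop} (hl : PT l)
    (hp : PTP (fun q : α × β => p q.1 q.2)) : PTP (fun a => ∃ x ∈ l a, p a x) := by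
  obtain ⟨b, hb, h⟩ := hp
  exact ⟨_, PT.any (f := fun a x => b (a, x)) hl hb, fun a => by simp [h]⟩

@[fun_prop] theorem mem {l : α → List β} {x : α → β} (hl : PT l) (hx : PT x) :
    PTP (fun a => x a ∈ l a) :=
  (exists_mem (p := fun a y => y = x a) hl (by fun_prop)).congr fun a => by simp

end PTP

/-- One round of long division. -/
def divStep (y : ℕ) (b : Bool) (s : ℕ × ℕ) : ℕ × ℕ :=
  if y ≤ Nat.bit b s.2 then (Nat.bit true s.1, Nat.bit b s.2 - y) else (Nat.bit false s.1, Nat.bit b s.2)

theorem foldr_divStep {y : ℕ} (hy : 0 < y) (l : Str) :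
    l.foldr (divStep y) (0, 0) = (ofBits l / y, ofBits l % y) := by
  induction l with
  | nil => simp
  | cons b l ih =>
    rw [List.foldr_cons, ih, ofBits_cons]
    have h1 := Nat.div_add_mod (ofBits l) y
    have h2 := Nat.mod_lt (ofBits l) hy
    have h3 := Bool.toNat_le b
    generalize ofBits l / y = q at *
    generalize ofBits l % y = r at *
    unfold divStep
    simp only [Nat.bit_val, ← h1, Bool.toNat_true, Bool.toNat_false]
    split_ifs with h
    · have := (Nat.div_mod_unique (a := 2 * (y * q + r) + b.toNat) (c := 2 * r + b.toNat - y)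
        (d := 2 * q + 1) hy).2 ⟨by zify [h]; ring, by omega⟩
      rw [this.1, this.2]
    · have := (Nat.div_mod_unique (a := 2 * (y * q + r) + b.toNat) (c := 2 * r + b.toNat)
        (d := 2 * q + 0) hy).2 ⟨by ring, by omega⟩
      rw [this.1, this.2]

namespace PT

@[fun_prop] theorem beq [BEq β] [LawfulBEq β] {f g : α → β} (hf : PT f) (hg : PT g) :
    PT (fun a => f a == g a) := by
  classical
  exact (PT.decide (inst := fun _ => inferInstance) (PTP.eq hf hg)).congr fun a => by
    rw [Bool.eq_iff_iff]; simp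

@[fun_prop] theorem mul {x y : α → ℕ} (hx : PT x) (hy : PT y) : PT (fun a => x a * y a) := by
  refine (foldr_growth (f := fun a b n => Nat.bit false n + bif b then x a else 0) hy.bits
    (PT.const 0) (by fun_prop) (fun p => sz (x p.1) + 2)
    (PB.add (PT.size (by fun_prop)) (PB.const 2)) fun a n b => ?_).congr fun a => ?_
  · have h1 := sz_add_le (Nat.bit false n) (bif b then x a else 0)
    have h2 := sz_bit_le false n
    have h3 : sz (bif b then x a else 0) ≤ sz (x a) := sz_mono (by cases b <;> simp)
    simp only; omega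
  · conv_lhs => rw [← ofBits_bits (y a)]
    induction (y a).bits with
    | nil => simp
    | cons b l ih =>
      rw [List.foldr_cons, ← ih, ofBits_cons]
      cases b <;> simp [Nat.bit_val] <;> ring

theorem divMod {x y : α → ℕ} (hx : PT x) (hy : PT y) :
    PT (fun a => (x a).bits.foldr (divStep (y a)) (0, 0)) := by
  refine foldr_growth (f := fun a b s => divStep (y a) b s) hx.bits (PT.const _)
    (by unfold divStep; fun_prop) (fun _ => 3) (PB.const 3) fun a s b => ?_
  have h1 := sz_bit_le true s.1
  have h2 := sz_bit_le false s.1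
  have h3 := sz_bit_le b s.2
  have h4 : sz (Nat.bit b s.2 - y a) ≤ sz (Nat.bit b s.2) := sz_mono (Nat.sub_le _ _)
  rw [sz_pair' s]
  unfold divStep
  split_ifs <;> simp only [sz_pair] <;> omega

@[fun_prop] theorem div {x y : α → ℕ} (hx : PT x) (hy : PT y) : PT (fun a => x a / y a) := by
  have h := (divMod hx hy).fst
  have : PT (fun a => if y a = 0 then 0 else ((x a).bits.foldr (divStep (y a)) (0, 0)).1) := by
    fun_prop
  refine this.congr fun a => ?_
  split_ifs with h0
  · simp [h0]
  · rw [foldr_divStep (Nat.pos_of_ne_zero h0), ofBits_bits]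

@[fun_prop] theorem mod {x y : α → ℕ} (hx : PT x) (hy : PT y) : PT (fun a => x a % y a) := by
  have h := (divMod hx hy).snd
  have : PT (fun a => if y a = 0 then x a else ((x a).bits.foldr (divStep (y a)) (0, 0)).2) := by
    fun_prop
  refine this.congr fun a => ?_
  split_ifs with h0
  · simp [h0]
  · rw [foldr_divStep (Nat.pos_of_ne_zero h0), ofBits_bits]

@[fun_prop] theorem min {x y : α → ℕ} (hx : PT x) (hy : PT y) : PT (fun a => min (x a) (y a)) :=
  (show PT (fun a => if x a ≤ y a then x a else y a) by fun_prop).congr fun a => min_def _ _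

@[fun_prop] theorem max {x y : α → ℕ} (hx : PT x) (hy : PT y) : PT (fun a => max (x a) (y a)) :=
  (show PT (fun a => if x a ≤ y a then y a else x a) by fun_prop).congr fun a => max_def _ _

@[fun_prop] theorem succ {x : α → ℕ} (hx : PT x) : PT (fun a => (x a).succ) :=
  hx.add (PT.const 1)

@[fun_prop] theorem sum {l : α → List ℕ} (hl : PT l) : PT (fun a => (l a).sum) := by
  refine (foldr_growth (f := fun _ x n => x + n) hl (PT.const 0) (by fun_prop)
    (fun p => sz p.2 + 1) (PB.add (PT.size (by fun_prop)) (PB.const 1)) fun a n x => ?_).congr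
    fun a => by rw [List.sum_eq_foldr]
  have := sz_add_le x n
  simp only; omega

@[fun_prop] theorem prod {l : α → List ℕ} (hl : PT l) : PT (fun a => (l a).prod) := by
  refine (foldr_growth (f := fun _ x n => x * n) hl (PT.const 1) (by fun_prop)
    (fun p => sz p.2) (PT.size (by fun_prop)) fun a n x => ?_).congr
    fun a => by rw [List.prod_eq_foldr]
  have := sz_mul_le x n
  simp only; omega

@[fun_prop] theorem length {l : α → List β} (hl : PT l) : PT (fun a => (l a).length) :=
  (PT.sum (PT.map (f := fun _ _ => 1) hl (PT.const 1))).congr fun a => by simp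

@[fun_prop] theorem sz {f : α → β} (hf : PT f) : PT (fun a => sz (f a)) := hf.bitEncode.length

@[fun_prop] theorem size' {n : α → ℕ} (hn : PT n) : PT (fun a => (n a).size) :=
  hn.sz.congr fun _ => (sz_nat _).symm

@[fun_prop] theorem drop {l : α → List β} {n : α → ℕ} (hn : PT n) (hl : PT l) :
    PT (fun a => (l a).drop (n a)) := by
  let F : ℕ × List β → ℕ × List β := fun s => (s.1 - 1, if s.1 = 0 then s.2 else s.2.tail)
  have hF : ∀ m k (r : List β), F^[m] (k, r) = (k - m, r.drop (Min.min k m)) := by
    intro m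
    induction m with
    | zero => simp
    | succ m ih =>
      intro k r
      rw [iterate_succ_apply', ih]
      by_cases h : k - m = 0
      · simp only [F, h, if_true]
        rw [show Min.min k (m + 1) = Min.min k m by omega, show k - (m + 1) = 0 by omega]
      · simp only [F, h, if_false, List.tail_drop]
        rw [show Min.min k (m + 1) = Min.min k m + 1 by omega, Nat.sub_sub]
  have h := iterate_growth (c := l) (s := fun a => (n a, l a)) (F := fun _ s => F s) hl
    (by fun_prop) (by simp only [F]; fun_prop) (fun _ => 0) (PB.const 0) fun _ s => by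
      have h1 : PolyTime.sz (s.1 - 1) ≤ PolyTime.sz s.1 := sz_mono (Nat.sub_le _ _)
      have h2 := sz_tail_le s.2
      rw [sz_pair' s]
      simp only [F, sz_pair]
      split_ifs <;> omega
  refine h.snd.congr fun a => ?_
  rw [hF]
  rcases le_total (n a) (l a).length with h | h
  · rw [min_eq_left h]
  · rw [min_eq_right h, List.drop_length, List.drop_eq_nil_of_le h]

@[fun_prop] theorem take {l : α → List β} {n : α → ℕ} (hn : PT n) (hl : PT l) :
    PT (fun a => (l a).take (n a)) :=
  (show PT (fun a => ((l a).reverse.drop ((l a).length - n a)).reverse) by fun_prop).congr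
    fun a => by rw [List.drop_reverse, List.reverse_reverse]; simp; omega

@[fun_prop] theorem getD {l : α → List β} {n : α → ℕ} {d : α → β} (hl : PT l) (hn : PT n)
    (hd : PT d) : PT (fun a => (l a).getD (n a) (d a)) :=
  (show PT (fun a => ((l a).drop (n a)).headD (d a)) by fun_prop).congr fun a => by
    simp [List.getD_eq_getElem?_getD]

@[fun_prop] theorem set {l : α → List β} {n : α → ℕ} {x : α → β} (hl : PT l) (hn : PT n)
    (hx : PT x) : PT (fun a => (l a).set (n a) (x a)) :=
  (show PT (fun a => if n a < (l a).length then (l a).take (n a) ++ x a :: (l a).drop (n a + 1)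
    else l a) by fun_prop).congr fun a => by rw [List.set_eq_take_append_cons_drop]

@[fun_prop] theorem dropLast {l : α → List β} (hl : PT l) : PT (fun a => (l a).dropLast) :=
  (show PT (fun a => (l a).take ((l a).length - 1)) by fun_prop).congr fun a =>
    List.dropLast_eq_take

@[fun_prop] theorem getLastD {l : α → List β} {d : α → β} (hl : PT l) (hd : PT d) :
    PT (fun a => (l a).getLastD (d a)) :=
  (show PT (fun a => (l a).reverse.headD (d a)) by fun_prop).congr fun a => by
    simp [List.getLastD_eq_getLast?]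

@[fun_prop] theorem countP {l : α → List β} {f : α → β → Bool} (hl : PT l)
    (hf : PT (fun p : α × β => f p.1 p.2)) : PT (fun a => (l a).countP (f a)) :=
  (PT.length (PT.filter hl hf)).congr fun _ => List.countP_eq_length_filter

end PT

end Pool.Agent.Lib.PolyTime
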