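import Pool.Agent.Lib.PolyTime.While

/-! Basic programs of the stack language and polynomial bounds. -/

namespace Pool.Agent.Lib.PolyTime

open Function N487b59b3

/-! ### Polynomial bounds -/

theorem eval_mono (p : Polynomial ℕ) {a b : ℕ} (h : a ≤ b) : p.eval a ≤ p.eval b := by
  rw [Polynomial.eval_eq_sum_range, Polynomial.eval_eq_sum_range]
  gcongr

/-- `f` is bounded by a polynomial in `n`. -/
def PB {I : Type} (n f : I → ℕ) : Prop := ∃ p : Polynomial ℕ, ∀ i, f i ≤ p.eval (n i)

namespace PB

variable {I : Type} {n m f g : I → ℕ}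

theorem const (c : ℕ) : PB n (fun _ => c) := ⟨Polynomial.C c, fun _ => by simp⟩

theorem self : PB n n := ⟨Polynomial.X, fun _ => by simp⟩

theorem add (hf : PB n f) (hg : PB n g) : PB n (fun i => f i + g i) := by
  obtain ⟨p, hp⟩ := hf
  obtain ⟨q, hq⟩ := hg
  exact ⟨p + q, fun i => by simpa using Nat.add_le_add (hp i) (hq i)⟩

theorem mul (hf : PB n f) (hg : PB n g) : PB n (fun i => f i * g i) := by
  obtain ⟨p, hp⟩ := hf
  obtain ⟨q, hq⟩ := hg
  exact ⟨p * q, fun i => by simpa using Nat.mul_le_mul (hp i) (hq i)⟩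

theorem pow (hf : PB n f) (k : ℕ) : PB n (fun i => f i ^ k) := by
  obtain ⟨p, hp⟩ := hf
  exact ⟨p ^ k, fun i => by simpa using Nat.pow_le_pow_left (hp i) k⟩

theorem mono (hg : PB n g) (h : ∀ i, f i ≤ g i) : PB n f := by
  obtain ⟨q, hq⟩ := hg
  exact ⟨q, fun i => (h i).trans (hq i)⟩

theorem trans (hf : PB m f) (hm : PB n m) : PB n f := by
  obtain ⟨p, hp⟩ := hf
  obtain ⟨q, hq⟩ := hm
  exact ⟨p.comp q, fun i => by
    rw [Polynomial.eval_comp]; exact (hp i).trans (eval_mono p (hq i))⟩

theorem eval (p : Polynomial ℕ) (hf : PB n f) : PB n (fun i => p.eval (f i)) :=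
  PB.trans ⟨p, fun _ => le_rfl⟩ hf

theorem reindex {J : Type} (hf : PB n f) (h : J → I) :
    PB (fun j => n (h j)) (fun j => f (h j)) := by
  obtain ⟨p, hp⟩ := hf
  exact ⟨p, fun j => hp _⟩

theorem of_le_add (c : ℕ) (h : ∀ i, f i ≤ c * (n i + 1)) : PB n f :=
  PB.mono ((const c).mul (self.add (const 1))) h

end PB

/-! ### Shifting registers -/

/-- Shift all registers by `n`. -/
def Cmd.shift (n : ℕ) : Cmd → Cmd
  | .skip => .skip
  | .push k b => .push (k + n) b
  | .pop k => .pop (k + n)
  | .seq c d => .seq (c.shift n) (d.shift n)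
  | .ite k e f g => .ite (k + n) (e.shift n) (f.shift n) (g.shift n)
  | .loop k c => .loop (k + n) (c.shift n)

/-- Low registers from `τ`, high registers from `σ`. -/
def glue (n : ℕ) (τ σ : St) : St := fun k => if k < n then τ k else σ (k - n)

theorem glue_add (n : ℕ) (τ σ : St) (k : ℕ) : glue n τ σ (k + n) = σ k := by
  simp [glue]

theorem glue_update (n : ℕ) (τ σ : St) (k : ℕ) (l : Str) :
    glue n τ (update σ k l) = update (glue n τ σ) (k + n) l := by
  funext j
  by_cases h : j = k + n
  · subst h; simp [glue]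
  · rw [update_of_ne h]
    unfold glue
    split_ifs with h'
    · rfl
    · rw [update_of_ne (by omega)]

theorem Ev.shift {c : Cmd} {σ σ' : St} {t : ℕ} (h : Ev c σ σ' t) (n : ℕ) (τ : St) :
    Ev (c.shift n) (glue n τ σ) (glue n τ σ') t := by
  induction h with
  | skip σ => exact Ev.skip _
  | push k b σ => rw [glue_update, ← glue_add n τ σ k]; exact Ev.push _ _ _
  | pop k σ => rw [glue_update, ← glue_add n τ σ k]; exact Ev.pop _ _
  | seq _ _ ih₁ ih₂ => exact Ev.seq ih₁ ih₂
  | iteE hk _ ih => exact Ev.iteE (by rw [glue_add]; exact hk) ih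
  | iteF hk _ ih => exact Ev.iteF (by rw [glue_add]; exact hk) ih
  | iteT hk _ ih => exact Ev.iteT (by rw [glue_add]; exact hk) ih
  | loopE hk => exact Ev.loopE (by rw [glue_add]; exact hk)
  | loopN hk _ _ ih₁ ih₂ => exact Ev.loopN (by rw [glue_add]; exact hk) ih₁ ih₂
  | mono _ hle ih => exact Ev.mono ih hle

theorem Ev.length_le {c : Cmd} {σ σ' : St} {t : ℕ} (h : Ev c σ σ' t) (k : ℕ) :
    (σ' k).length ≤ (σ k).length + t := by
  induction h with
  | skip σ => omega
  | push j b σ =>
    by_cases h : k = j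
    · subst h; simp
    · rw [update_of_ne h]; omega
  | pop j σ =>
    by_cases h : k = j
    · subst h; simp; omega
    · rw [update_of_ne h]; omega
  | seq _ _ ih₁ ih₂ => omega
  | iteE _ _ ih => omega
  | iteF _ _ ih => omega
  | iteT _ _ ih => omega
  | loopE _ => omega
  | loopN _ _ _ ih₁ ih₂ => omega
  | mono _ _ ih => omega

/-! ### Four-register stores -/

/-- The store with four given registers. -/
def s4 (a b c d : Str) : St := fun k =>
  match k with
  | 0 => a
  | 1 => b
  | 2 => c
  | 3 => d
  | _ => []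

@[simp] theorem s4_0 (a b c d : Str) : s4 a b c d 0 = a := rfl
@[simp] theorem s4_1 (a b c d : Str) : s4 a b c d 1 = b := rfl
@[simp] theorem s4_2 (a b c d : Str) : s4 a b c d 2 = c := rfl
@[simp] theorem s4_3 (a b c d : Str) : s4 a b c d 3 = d := rfl

@[simp] theorem up0 (a b c d v : Str) : update (s4 a b c d) 0 v = s4 v b c d := by
  funext k; rcases k with _ | _ | _ | _ | k <;> simp [s4]
@[simp] theorem up1 (a b c d v : Str) : update (s4 a b c d) 1 v = s4 a v c d := by
  funext k; rcases k with _ | _ | _ | _ | k <;> simp [s4]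
@[simp] theorem up2 (a b c d v : Str) : update (s4 a b c d) 2 v = s4 a b v d := by
  funext k; rcases k with _ | _ | _ | _ | k <;> simp [s4]
@[simp] theorem up3 (a b c d v : Str) : update (s4 a b c d) 3 v = s4 a b c v := by
  funext k; rcases k with _ | _ | _ | _ | k <;> simp [s4]

theorem one_eq (x : Str) : one x = s4 x [] [] [] := by
  funext k; rcases k with _ | _ | _ | _ | k <;> simp [s4, one]

theorem glue3 (a b c d : Str) : glue 3 (s4 a b c []) (one d) = s4 a b c d := by
  funext k; rcases k with _ | _ | _ | _ | k <;> simp [s4, one, glue]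

theorem Ev.shift3 {c : Cmd} {x y : Str} {t : ℕ} (h : Ev c (one x) (one y) t) (a b d : Str) :
    Ev (c.shift 3) (s4 a b d x) (s4 a b d y) t := by
  have := h.shift 3 (s4 a b d [])
  rwa [glue3, glue3] at this

theorem Ev.push' {k : ℕ} {b : Bool} {σ σ' : St} (h : update σ k (b :: σ k) = σ') :
    Ev (.push k b) σ σ' 1 := h ▸ Ev.push k b σ

theorem Ev.pop' {k : ℕ} {σ σ' : St} (h : update σ k (σ k).tail = σ') :
    Ev (.pop k) σ σ' 1 := h ▸ Ev.pop k σ

/-- Pop the bits of register `k` one at a time and run `c b` for each popped bit `b`. -/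
def each (k : ℕ) (c : Bool → Cmd) : Cmd :=
  .loop k (.ite k .skip (.seq (.pop k) (c false)) (.seq (.pop k) (c true)))

theorem each_ev {A : Type} (k : ℕ) (c : Bool → Cmd) (E : Str → A → St) (F : A → Bool → A)
    (T : ℕ) (hk : ∀ l a, E l a k = l) (hu : ∀ l l' a, update (E l a) k l' = E l' a)
    (hc : ∀ b l a, Ev (c b) (E l a) (E l (F a b)) T) (l : Str) (a : A) :
    Ev (each k c) (E l a) (E [] (l.foldl F a)) ((T + 4) * l.length + 1) := by
  induction l generalizing a with
  | nil => simpa [each] using Ev.loopE (hk [] a)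
  | cons b l ih =>
    have h1 : Ev (.pop k) (E (b :: l) a) (E l a) 1 := Ev.pop' (by rw [hk, hu]; rfl)
    have h2 : Ev (.ite k .skip (.seq (.pop k) (c false)) (.seq (.pop k) (c true)))
        (E (b :: l) a) (E l (F a b)) (1 + T + 1 + 1) := by
      cases b
      · exact Ev.iteF (hk _ _) (Ev.seq h1 (hc _ _ _))
      · exact Ev.iteT (hk _ _) (Ev.seq h1 (hc _ _ _))
    refine Ev.mono (Ev.loopN (by rw [hk]; simp) h2 (ih (F a b))) ?_
    simp only [List.length_cons]
    nlinarith

theorem foldl_cons_eq (l a : Str) : l.foldl (fun a b => b :: a) a = l.reverse ++ a := by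
  induction l generalizing a with
  | nil => rfl
  | cons b l ih => simp [ih]

/-- Move register `k` onto register `j`, reversing it. -/
def mv (k j : ℕ) : Cmd := each k fun b => .push j b

/-- Empty register `k`. -/
def clr (k : ℕ) : Cmd := each k fun _ => .skip

theorem mv_ev {k j : ℕ} (h : k ≠ j) (σ : St) :
    Ev (mv k j) σ (update (update σ k []) j ((σ k).reverse ++ σ j)) (5 * (σ k).length + 1) := by
  have := each_ev k (fun b => .push j b) (fun l a => update (update σ j a) k l)
    (fun a b => b :: a) 1 (by simp) (by simp)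
    (fun b l a => Ev.push' (by
      rw [update_of_ne h.symm, update_self, update_comm h, update_idem])) (σ k) (σ j)
  simp only [update_eq_self, foldl_cons_eq] at this
  rw [update_comm h]
  exact this

theorem clr_ev (k : ℕ) (σ : St) : Ev (clr k) σ (update σ k []) (5 * (σ k).length + 1) := by
  have := each_ev k (fun _ => .skip) (fun l (_ : Unit) => update σ k l)
    (fun a _ => a) 1 (by simp) (by simp) (fun b l a => Ev.skip _) (σ k) ()
  simpa [clr] using this

/-- Copy register `0` to register `3` (which is empty), using register `2`. -/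
def cp03 : Cmd := .seq (mv 0 2) (each 2 fun b => .seq (.push 0 b) (.push 3 b))

theorem cp03_ev (x b : Str) :
    Ev cp03 (s4 x b [] []) (s4 x b [] x) (12 * x.length + 3) := by
  have h1 := mv_ev (k := 0) (j := 2) (by decide) (s4 x b [] [])
  simp only [s4_0, s4_2, up0, up2, List.append_nil] at h1
  have h2 := each_ev 2 (fun b => .seq (.push 0 b) (.push 3 b)) (fun l a => s4 a b l a)
    (fun a b => b :: a) 3 (by simp) (by simp)
    (fun b' l a => Ev.seq (σ' := s4 (b' :: a) b l a) (Ev.push' (by simp)) (Ev.push' (by simp)))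
    x.reverse []
  simp only [foldl_cons_eq, List.reverse_reverse, List.append_nil, List.length_reverse] at h2
  exact Ev.mono (Ev.seq h1 h2) (by omega)

theorem delimit_append (x y : Str) :
    delimit x ++ y = x.reverse.foldl (fun a b => true :: b :: a) (false :: y) := by
  induction x with
  | nil => rfl
  | cons b x ih => simp [delimit, List.foldl_append, ih]

/-- From registers `y` and `x.reverse` to `delimit x ++ y`. -/
def mkPair : Cmd := .seq (.push 0 false) (each 1 fun b => .seq (.push 0 b) (.push 0 true))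

theorem mkPair_ev (x y : Str) :
    Ev mkPair (s4 y x.reverse [] []) (s4 (delimit x ++ y) [] [] []) (7 * x.length + 3) := by
  have h1 : Ev (.push 0 false) (s4 y x.reverse [] []) (s4 (false :: y) x.reverse [] []) 1 :=
    Ev.push' (by simp)
  have h2 := each_ev 1 (fun b => .seq (.push 0 b) (.push 0 true)) (fun l a => s4 a l [] [])
    (fun a b => true :: b :: a) 3 (by simp) (by simp)
    (fun b' l a => Ev.seq (σ' := s4 (b' :: a) l [] []) (Ev.push' (by simp)) (Ev.push' (by simp)))
    x.reverse (false :: y)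
  rw [← delimit_append, List.length_reverse] at h2
  exact Ev.mono (Ev.seq h1 h2) (by omega)

/-- Body of the parser of `delimit`. -/
def parseBody : Cmd :=
  .ite 0 (.pop 2) (.seq (.pop 0) (.pop 2))
    (.seq (.pop 0) (.ite 0 .skip (.seq (.pop 0) (.push 1 false)) (.seq (.pop 0) (.push 1 true))))

/-- From `delimit x ++ y` to registers `y` and `x.reverse`. -/
def parse : Cmd := .seq (.push 2 true) (.loop 2 parseBody)

theorem parseLoop_ev (x y a d : Str) :
    Ev (.loop 2 parseBody) (s4 (delimit x ++ y) a [true] d) (s4 y (x.reverse ++ a) [] d)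
      (8 * x.length + 6) := by
  induction x generalizing a with
  | nil =>
    have h1 : Ev parseBody (s4 (false :: y) a [true] d) (s4 y a [] d) 4 :=
      Ev.iteF (l := y) rfl (Ev.seq (σ' := s4 y a [true] d) (Ev.pop' (by simp)) (Ev.pop' (by simp)))
    exact Ev.mono (Ev.loopN (by simp) h1 (Ev.loopE rfl)) (by simp)
  | cons b x ih =>
    have h0 : Ev (.ite 0 .skip (.seq (.pop 0) (.push 1 false)) (.seq (.pop 0) (.push 1 true)))
        (s4 (b :: (delimit x ++ y)) a [true] d) (s4 (delimit x ++ y) (b :: a) [true] d) 4 := by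
      cases b
      · exact Ev.iteF (l := delimit x ++ y) rfl
          (Ev.seq (σ' := s4 (delimit x ++ y) a [true] d) (Ev.pop' (by simp)) (Ev.push' (by simp)))
      · exact Ev.iteT (l := delimit x ++ y) rfl
          (Ev.seq (σ' := s4 (delimit x ++ y) a [true] d) (Ev.pop' (by simp)) (Ev.push' (by simp)))
    have h1 : Ev parseBody (s4 (true :: b :: (delimit x ++ y)) a [true] d)
        (s4 (delimit x ++ y) (b :: a) [true] d) 7 :=
      Ev.iteT (l := b :: (delimit x ++ y)) rfl (Ev.seq (Ev.pop' (by simp)) h0)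
    have h2 := ih (b :: a)
    have h3 := Ev.loopN (k := 2) (by simp) h1 h2
    simp only [delimit, List.cons_append, List.reverse_cons, List.append_assoc,
      List.length_cons]
    exact Ev.mono h3 (by omega)

theorem parse_ev (x y d : Str) :
    Ev parse (s4 (delimit x ++ y) [] [] d) (s4 y x.reverse [] d) (8 * x.length + 8) := by
  have h1 : Ev (.push 2 true) (s4 (delimit x ++ y) [] [] d) (s4 (delimit x ++ y) [] [true] d) 1 :=
    Ev.push' (by simp)
  have h2 := parseLoop_ev x y [] d
  rw [List.append_nil] at h2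
  exact Ev.mono (Ev.seq h1 h2) (by omega)

end Pool.Agent.Lib.PolyTime
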