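import Pool.Agent.Lib.PolyTime.Raw

/-! Polynomial-time realisability of families of input/output strings. -/

namespace Pool.Agent.Lib.PolyTime

open Function N487b59b3

/-- One program maps `inp i` to `out i` for every `i`, in time polynomial in `|inp i|`. -/
def Real {I : Type} (inp out : I → Str) : Prop :=
  ∃ (c : Cmd) (T : I → ℕ), PB (fun i => (inp i).length) T ∧
    ∀ i, Ev c (one (inp i)) (one (out i)) (T i)

/-- Push a fixed string on register `0`. -/
def pushAll : Str → Cmd
  | [] => .skip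
  | b :: l => .seq (pushAll l) (.push 0 b)

theorem pushAll_ev (l x : Str) :
    Ev (pushAll l) (s4 x [] [] []) (s4 (l ++ x) [] [] []) (2 * l.length + 1) := by
  induction l with
  | nil => exact Ev.skip _
  | cons b l ih => exact Ev.mono (Ev.seq ih (Ev.push' (by simp))) (by simp; omega)

/-- The code of a bit string seen as a list of Booleans. -/
def encB (x : Str) : Str := x.flatMap fun b => [true, b, false]

theorem encB_eq_foldl (x a : Str) :
    x.reverse.foldl (fun a b => true :: b :: false :: a) a = encB x ++ a := by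
  induction x with
  | nil => rfl
  | cons b x ih => simp [encB, List.foldl_append, ih] at *

theorem length_encB (x : Str) : (encB x).length = 3 * x.length := by
  induction x with
  | nil => rfl
  | cons b x ih => simp [encB] at *; omega

namespace Real

variable {I : Type} {a b c : I → Str}

theorem reindex {J : Type} (h : Real a b) (f : J → I) : Real (fun j => a (f j)) (fun j => b (f j)) := by
  obtain ⟨c, T, hT, hc⟩ := h
  exact ⟨c, fun j => T (f j), hT.reindex f, fun j => hc _⟩

theorem congr {a' b' : I → Str} (h : Real a b) (ha : ∀ i, a' i = a i) (hb : ∀ i, b' i = b i) :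
    Real a' b' := by
  rwa [funext ha, funext hb]

theorem size (h : Real a b) : PB (fun i => (a i).length) (fun i => (b i).length) := by
  obtain ⟨c, T, hT, hc⟩ := h
  exact (PB.self.add hT).mono fun i => by simpa [one] using (hc i).length_le 0

theorem refl : Real a a := ⟨.skip, fun _ => 1, PB.const 1, fun _ => Ev.skip _⟩

theorem comp (h₁ : Real a b) (h₂ : Real b c) : Real a c := by
  have hs := h₁.size
  obtain ⟨c₁, T₁, hT₁, hc₁⟩ := h₁
  obtain ⟨c₂, T₂, hT₂, hc₂⟩ := h₂
  exact ⟨.seq c₁ c₂, fun i => T₁ i + T₂ i + 1, (hT₁.add (hT₂.trans hs)).add (PB.const 1),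
    fun i => Ev.seq (hc₁ i) (hc₂ i)⟩

/-- Apply a raw string function after a realisable family. -/
theorem raw {F : Str → Str} (hF : Real id F) (h : Real a b) : Real a (fun i => F (b i)) :=
  h.comp (hF.reindex b)

theorem const (y : Str) : Real a (fun _ => y) := by
  refine ⟨.seq (clr 0) (pushAll y), fun i => (5 * (a i).length + 1) + (2 * y.length + 1) + 1,
    ((((PB.const 5).mul PB.self).add (PB.const 1)).add (PB.const _)).add (PB.const 1), fun i => ?_⟩
  have h1 := clr_ev 0 (s4 (a i) [] [] [])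
  have h2 := pushAll_ev y []
  simp only [up0, s4_0, List.append_nil] at h1 h2
  simpa only [one_eq] using Ev.seq h1 h2

theorem tail : Real id List.tail :=
  ⟨.pop 0, fun _ => 1, PB.const 1, fun x => by
    simp only [one_eq]; exact Ev.pop' (by simp)⟩

theorem cons (d : Bool) : Real id (List.cons d) :=
  ⟨.push 0 d, fun _ => 1, PB.const 1, fun x => by
    simp only [one_eq]; exact Ev.push' (by simp)⟩

theorem isEmpty : Real id (fun x : Str => [x.isEmpty]) := by
  refine ⟨.ite 0 (.push 0 true) (.seq (clr 0) (.push 0 false)) (.seq (clr 0) (.push 0 false)),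
    fun x => 5 * x.length + 4, ((PB.const 5).mul PB.self).add (PB.const 4), fun x => ?_⟩
  simp only [one_eq, id]
  have h1 := clr_ev 0 (s4 x [] [] [])
  simp only [up0, s4_0] at h1
  have h2 : Ev (.push 0 false) (s4 [] [] [] []) (s4 [false] [] [] []) 1 := Ev.push' (by simp)
  rcases x with _ | ⟨_ | _, x⟩
  · exact Ev.mono (Ev.iteE rfl (Ev.push' (by simp))) (by simp)
  · exact Ev.mono (Ev.iteF (l := x) rfl (Ev.seq h1 h2)) (by simp)
  · exact Ev.mono (Ev.iteT (l := x) rfl (Ev.seq h1 h2)) (by simp)

theorem headD : Real id (fun x : Str => [x.headD false]) := by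
  refine ⟨.ite 0 (.push 0 false) (.seq (clr 0) (.push 0 false)) (.seq (clr 0) (.push 0 true)),
    fun x => 5 * x.length + 4, ((PB.const 5).mul PB.self).add (PB.const 4), fun x => ?_⟩
  simp only [one_eq, id]
  have h1 := clr_ev 0 (s4 x [] [] [])
  simp only [up0, s4_0] at h1
  have h2 : ∀ d, Ev (.push 0 d) (s4 [] [] [] []) (s4 [d] [] [] []) 1 := fun d => Ev.push' (by simp)
  rcases x with _ | ⟨_ | _, x⟩
  · exact Ev.mono (Ev.iteE rfl (Ev.push' (by simp))) (by simp)
  · exact Ev.mono (Ev.iteF (l := x) rfl (Ev.seq h1 (h2 _))) (by simp)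
  · exact Ev.mono (Ev.iteT (l := x) rfl (Ev.seq h1 (h2 _))) (by simp)

theorem pair (h₁ : Real a b) (h₂ : Real a c) : Real a (fun i => delimit (b i) ++ c i) := by
  have hs₁ := h₁.size
  have hs₂ := h₂.size
  obtain ⟨c₁, T₁, hT₁, hc₁⟩ := h₁
  obtain ⟨c₂, T₂, hT₂, hc₂⟩ := h₂
  refine ⟨.seq cp03 (.seq (c₁.shift 3) (.seq (mv 3 1) (.seq cp03 (.seq (clr 0)
      (.seq (c₂.shift 3) (.seq (mv 3 2) (.seq (mv 2 0) mkPair))))))),
    fun i => T₁ i + T₂ i + 29 * (a i).length + 12 * (b i).length + 10 * (c i).length + 30,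
    ((((hT₁.add hT₂).add ((PB.const _).mul PB.self)).add ((PB.const _).mul hs₁)).add
      ((PB.const _).mul hs₂)).add (PB.const _), fun i => ?_⟩
  have e1 := cp03_ev (a i) []
  have e2 := (hc₁ i).shift3 (a i) [] []
  have e3 := mv_ev (k := 3) (j := 1) (by decide) (s4 (a i) [] [] (b i))
  have e4 := cp03_ev (a i) (b i).reverse
  have e5 := clr_ev 0 (s4 (a i) (b i).reverse [] (a i))
  have e6 := (hc₂ i).shift3 [] (b i).reverse []
  have e7 := mv_ev (k := 3) (j := 2) (by decide) (s4 [] (b i).reverse [] (c i))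
  have e8 := mv_ev (k := 2) (j := 0) (by decide) (s4 [] (b i).reverse (c i).reverse [])
  have e9 := mkPair_ev (b i) (c i)
  simp only [s4_0, s4_1, s4_2, s4_3, up0, up1, up2, up3, List.append_nil, List.reverse_reverse,
    List.length_reverse] at e3 e5 e7 e8
  simp only [one_eq]
  exact Ev.mono (Ev.seq e1 (Ev.seq e2 (Ev.seq e3 (Ev.seq e4 (Ev.seq e5 (Ev.seq e6 (Ev.seq e7
    (Ev.seq e8 e9)))))))) (by omega)

theorem pb_fst : PB (fun p : Str × Str => (delimit p.1 ++ p.2).length) (fun p => p.1.length) :=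
  PB.self.mono fun p => by simp; omega

theorem pb_snd : PB (fun p : Str × Str => (delimit p.1 ++ p.2).length) (fun p => p.2.length) :=
  PB.self.mono fun p => by simp

theorem fst : Real (fun p : Str × Str => delimit p.1 ++ p.2) Prod.fst := by
  refine ⟨.seq parse (.seq (clr 0) (mv 1 0)), fun p => 13 * p.1.length + 5 * p.2.length + 12,
    (((PB.const _).mul pb_fst).add ((PB.const _).mul pb_snd)).add (PB.const _), fun p => ?_⟩
  have e1 := parse_ev p.1 p.2 []
  have e2 := clr_ev 0 (s4 p.2 p.1.reverse [] [])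
  have e3 := mv_ev (k := 1) (j := 0) (by decide) (s4 [] p.1.reverse [] [])
  simp only [s4_0, s4_1, up0, up1, List.append_nil, List.reverse_reverse,
    List.length_reverse] at e2 e3
  simp only [one_eq]
  exact Ev.mono (Ev.seq e1 (Ev.seq e2 e3)) (by omega)

theorem snd : Real (fun p : Str × Str => delimit p.1 ++ p.2) Prod.snd := by
  refine ⟨.seq parse (clr 1), fun p => 13 * p.1.length + 10,
    ((PB.const _).mul pb_fst).add (PB.const _), fun p => ?_⟩
  have e1 := parse_ev p.1 p.2 []
  have e2 := clr_ev 1 (s4 p.2 p.1.reverse [] [])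
  simp only [s4_1, up1, List.length_reverse] at e2
  simp only [one_eq]
  exact Ev.mono (Ev.seq e1 e2) (by omega)

theorem append : Real (fun p : Str × Str => delimit p.1 ++ p.2) (fun p => p.1 ++ p.2) := by
  refine ⟨.seq parse (mv 1 0), fun p => 13 * p.1.length + 10,
    ((PB.const _).mul pb_fst).add (PB.const _), fun p => ?_⟩
  have e1 := parse_ev p.1 p.2 []
  have e2 := mv_ev (k := 1) (j := 0) (by decide) (s4 p.2 p.1.reverse [] [])
  simp only [s4_0, s4_1, up0, up1, List.reverse_reverse, List.length_reverse] at e2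
  simp only [one_eq]
  exact Ev.mono (Ev.seq e1 e2) (by omega)

theorem cond (h₁ : Real a b) (h₂ : Real a c) :
    Real (fun p : Bool × I => true :: p.1 :: false :: a p.2)
      (fun p => if p.1 then b p.2 else c p.2) := by
  obtain ⟨c₁, T₁, hT₁, hc₁⟩ := h₁
  obtain ⟨c₂, T₂, hT₂, hc₂⟩ := h₂
  have hl : PB (fun p : Bool × I => (true :: p.1 :: false :: a p.2).length)
      (fun p => (a p.2).length) := PB.self.mono fun p => by simp; omega
  refine ⟨.seq (.pop 0) (.ite 0 .skip (.seq (.pop 0) (.seq (.pop 0) c₂))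
      (.seq (.pop 0) (.seq (.pop 0) c₁))), fun p => T₁ p.2 + T₂ p.2 + 7,
    (((hT₁.reindex Prod.snd).trans hl).add ((hT₂.reindex Prod.snd).trans hl)).add (PB.const _),
    fun p => ?_⟩
  obtain ⟨d, i⟩ := p
  have e1 := hc₁ i
  have e2 := hc₂ i
  simp only [one_eq] at e1 e2 ⊢
  have p1 : ∀ (e : Bool) (x : Str), Ev (.pop 0) (s4 (e :: x) [] [] []) (s4 x [] [] []) 1 :=
    fun e x => Ev.pop' (by simp)
  cases d
  · exact Ev.mono (Ev.seq (p1 _ _) (Ev.iteF (l := false :: a i) rfl
      (Ev.seq (p1 _ _) (Ev.seq (p1 _ _) e2)))) (by omega)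
  · exact Ev.mono (Ev.seq (p1 _ _) (Ev.iteT (l := false :: a i) rfl
      (Ev.seq (p1 _ _) (Ev.seq (p1 _ _) e1)))) (by omega)

theorem encB : Real id encB := by
  refine ⟨.seq (mv 0 1) (each 1 fun d => .seq (.push 0 false) (.seq (.push 0 d) (.push 0 true))),
    fun x => 14 * x.length + 3, ((PB.const _).mul PB.self).add (PB.const _), fun x => ?_⟩
  have e1 := mv_ev (k := 0) (j := 1) (by decide) (s4 x [] [] [])
  have e2 := each_ev 1 (fun d => .seq (.push 0 false) (.seq (.push 0 d) (.push 0 true)))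
    (fun l a => s4 a l [] []) (fun a d => true :: d :: false :: a) 5 (by simp) (by simp)
    (fun d l a => Ev.seq (σ' := s4 (false :: a) l [] []) (Ev.push' (by simp))
      (Ev.seq (σ' := s4 (d :: false :: a) l [] []) (Ev.push' (by simp)) (Ev.push' (by simp))))
    x.reverse []
  simp only [s4_0, s4_1, up0, up1, List.append_nil, encB_eq_foldl, List.length_reverse] at e1 e2
  simp only [one_eq, id]
  exact Ev.mono (Ev.seq e1 e2) (by omega)

theorem decB_loop (x y : Str) :
    Ev (.loop 0 (.seq (.pop 0) (.seq (.ite 0 .skip (.seq (.pop 0) (.push 1 false))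
      (.seq (.pop 0) (.push 1 true))) (.pop 0))))
      (s4 (PolyTime.encB x) y [] []) (s4 [] (x.reverse ++ y) [] []) (9 * x.length + 1) := by
  induction x generalizing y with
  | nil => exact Ev.loopE rfl
  | cons d x ih =>
    have he : PolyTime.encB (d :: x) = true :: d :: false :: PolyTime.encB x := by
      simp [PolyTime.encB]
    have p1 : ∀ (e : Bool) (x y : Str), Ev (.pop 0) (s4 (e :: x) y [] []) (s4 x y [] []) 1 :=
      fun e x y => Ev.pop' (by simp)
    have h0 : Ev (.ite 0 .skip (.seq (.pop 0) (.push 1 false)) (.seq (.pop 0) (.push 1 true)))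
        (s4 (d :: false :: PolyTime.encB x) y [] []) (s4 (false :: PolyTime.encB x) (d :: y) [] [])
        4 := by
      cases d
      · exact Ev.iteF (l := false :: PolyTime.encB x) rfl (Ev.seq (p1 _ _ _) (Ev.push' (by simp)))
      · exact Ev.iteT (l := false :: PolyTime.encB x) rfl (Ev.seq (p1 _ _ _) (Ev.push' (by simp)))
    have h1 := Ev.loopN (k := 0) (by simp) (Ev.seq (p1 true _ _) (Ev.seq h0 (p1 _ _ _)))
      (ih (d :: y))
    rw [he]
    simp only [List.reverse_cons, List.append_assoc, List.singleton_append, List.length_cons]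
    exact Ev.mono h1 (by omega)

theorem decB : Real PolyTime.encB id := by
  refine ⟨.seq (.loop 0 (.seq (.pop 0) (.seq (.ite 0 .skip (.seq (.pop 0) (.push 1 false))
      (.seq (.pop 0) (.push 1 true))) (.pop 0)))) (mv 1 0),
    fun x => 14 * x.length + 3, ((PB.const _).mul (PB.self.mono fun x => by
      rw [length_encB]; omega)).add (PB.const _), fun x => ?_⟩
  have e1 := decB_loop x []
  have e2 := mv_ev (k := 1) (j := 0) (by decide) (s4 [] x.reverse [] [])
  simp only [s4_0, s4_1, up0, up1, List.append_nil, List.reverse_reverse,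
    List.length_reverse] at e1 e2
  simp only [one_eq, id]
  exact Ev.mono (Ev.seq e1 e2) (by omega)

theorem iter_loop {c : Cmd} {S : ℕ → Str} {N B : ℕ}
    (h : ∀ m < N, Ev c (one (S m)) (one (S (m + 1))) B) (l : Str) (m : ℕ)
    (hm : m + l.length = N) :
    Ev (.loop 1 (.seq (.pop 1) (c.shift 3))) (s4 [] l [] (S m)) (s4 [] [] [] (S N))
      ((B + 3) * l.length + 1) := by
  induction l generalizing m with
  | nil =>
    obtain rfl : m = N := by simpa using hm
    simpa using Ev.loopE (k := 1) rfl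
  | cons d l ih =>
    simp only [List.length_cons] at hm ⊢
    have h1 : Ev (.pop 1) (s4 [] (d :: l) [] (S m)) (s4 [] l [] (S m)) 1 := Ev.pop' (by simp)
    have h2 := (h m (by omega)).shift3 [] l []
    refine Ev.mono (Ev.loopN (k := 1) (by simp) (Ev.seq h1 h2) (ih (m + 1) (by omega))) ?_
    nlinarith

theorem iterate (cnt : I → Str) (S : I → ℕ → Str)
    (hstep : Real (fun p : {p : I × ℕ // p.2 < (cnt p.1).length} => S p.1.1 p.1.2)
      (fun p => S p.1.1 (p.1.2 + 1)))
    (hsize : PB (fun p : {p : I × ℕ // p.2 ≤ (cnt p.1).length} =>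
      (delimit (cnt p.1.1) ++ S p.1.1 0).length) (fun p => (S p.1.1 p.1.2).length)) :
    Real (fun i => delimit (cnt i) ++ S i 0) (fun i => S i (cnt i).length) := by
  obtain ⟨c, T, ⟨p, hp⟩, hc⟩ := hstep
  obtain ⟨q, hq⟩ := hsize
  set n : I → ℕ := fun i => (delimit (cnt i) ++ S i 0).length with hn
  have hcnt : PB n (fun i => (cnt i).length) := PB.self.mono fun i => by simp [hn]; omega
  have h0 : PB n (fun i => (S i 0).length) := PB.self.mono fun i => by simp [hn]
  have hq' : PB n (fun i => q.eval (n i)) := PB.eval q PB.self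
  refine ⟨.seq parse (.seq (mv 0 2) (.seq (mv 2 3) (.seq (.loop 1 (.seq (.pop 1) (c.shift 3)))
      (.seq (mv 3 2) (mv 2 0))))),
    fun i => (p.eval (q.eval (n i)) + 11) * (cnt i).length + 10 * (S i 0).length +
      10 * q.eval (n i) + 18,
    (((((PB.eval p hq').add (PB.const _)).mul hcnt).add ((PB.const _).mul h0)).add
      ((PB.const _).mul hq')).add (PB.const _), fun i => ?_⟩
  have e1 := parse_ev (cnt i) (S i 0) []
  have e2 := mv_ev (k := 0) (j := 2) (by decide) (s4 (S i 0) (cnt i).reverse [] [])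
  have e3 := mv_ev (k := 2) (j := 3) (by decide) (s4 [] (cnt i).reverse (S i 0).reverse [])
  have e4 := iter_loop (c := c) (S := S i) (N := (cnt i).length) (B := p.eval (q.eval (n i)))
    (fun m hm => Ev.mono (hc ⟨(i, m), hm⟩) ((hp ⟨(i, m), hm⟩).trans
      (eval_mono p (hq ⟨(i, m), hm.le⟩)))) (cnt i).reverse 0 (by simp)
  have e5 := mv_ev (k := 3) (j := 2) (by decide) (s4 [] [] [] (S i (cnt i).length))
  have e6 := mv_ev (k := 2) (j := 0) (by decide) (s4 [] [] (S i (cnt i).length).reverse [])
  have hl := hq ⟨(i, (cnt i).length), le_rfl⟩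
  simp only [s4_0, s4_2, s4_3, up0, up2, up3, List.append_nil, List.reverse_reverse,
    List.length_reverse] at e2 e3 e4 e5 e6
  simp only [one_eq]
  refine Ev.mono (Ev.seq e1 (Ev.seq e2 (Ev.seq e3 (Ev.seq e4 (Ev.seq e5 e6))))) ?_
  change (S i (cnt i).length).length ≤ q.eval (n i) at hl
  nlinarith

end Real

end Pool.Agent.Lib.PolyTime
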