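import Pool.Agent.Lib.PolyTime.Real

/-! Typed polynomial-time computability `PT`, for the bit encodings of the prelude. -/

namespace Pool.Agent.Lib.PolyTime

open Function N487b59b3 N68a2faeb

variable {α β γ δ : Type} [N487b59b3 α] [N487b59b3 β] [N487b59b3 γ] [N487b59b3 δ]

/-- `f` is computed in polynomial time by a stack program. Equivalent to `IsPolyTime f`. -/
@[fun_prop]
def PT (f : α → β) : Prop := Real (fun a => bitEncode a) (fun a => bitEncode (f a))

/-- The predicate `p` is decided in polynomial time. -/
@[fun_prop]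
def PTP (p : α → Prop) : Prop := ∃ b : α → Bool, PT b ∧ ∀ a, b a = true ↔ p a

/-- Length of the code of an object. -/
def sz (a : α) : ℕ := (bitEncode a).length

theorem PT.isPolyTime {f : α → β} (h : PT f) : IsPolyTime f := by
  obtain ⟨c, T, ⟨p, hp⟩, hc⟩ := h
  refine ⟨{ tm := compile c, inputAlphabet := Equiv.refl _, outputAlphabet := Equiv.refl _,
            time := p + 1, outputsFun := fun a => ?_ }⟩
  have := Classical.choice (compile_outputs (Ev.mono (hc a) (hp a)))
  have e1 : ∀ l : List Bool, List.map (Equiv.refl Bool).invFun l = l := fun l => by simp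
  simp only [Polynomial.eval_add, Polynomial.eval_one]
  erw [e1, e1]
  exact this

theorem enc_pair (a : α) (b : β) : bitEncode (a, b) = delimit (bitEncode a) ++ bitEncode b := rfl

theorem enc_pair' (p : α × β) : bitEncode p = delimit (bitEncode p.1) ++ bitEncode p.2 := rfl

@[simp] theorem enc_nil : bitEncode ([] : List α) = [] := rfl

theorem enc_cons (a : α) (l : List α) :
    bitEncode (a :: l) = delimit (bitEncode a) ++ bitEncode l := rfl

theorem enc_append (l l' : List α) : bitEncode (l ++ l') = bitEncode l ++ bitEncode l' := by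
  induction l with
  | nil => rfl
  | cons a l ih => simp [enc_cons, ih]

theorem enc_bool (b : Bool) : bitEncode b = [b] := rfl

theorem enc_str (l : Str) : bitEncode l = encB l := by
  induction l with
  | nil => rfl
  | cons a l ih => simp [enc_cons, ih, encB, enc_bool, delimit]

theorem enc_nat (n : ℕ) : bitEncode n = n.bits := by
  change Computability.encodeNum (n : Num) = _
  rw [← Num.ofNat'_eq]
  induction n using Nat.binaryRec' with
  | zero => simp [Computability.encodeNum]
  | bit b n h ih =>
    rw [Num.ofNat'_bit, Nat.bits_append_bit n b h, ← ih]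
    rcases hn : Num.ofNat' n with _ | m
    · have : n = 0 := by
        have h2 := congrArg (fun x : Num => (x : ℕ)) hn
        simp only [Num.ofNat'_eq, Num.to_of_nat] at h2
        exact h2
      rw [h this]; rfl
    · cases b <;> rfl

theorem enc_eq_nil_iff (l : List α) : bitEncode l = [] ↔ l = [] := by
  cases l with
  | nil => simp
  | cons a l => cases h : bitEncode a <;> simp [enc_cons, h, delimit]

@[simp] theorem sz_pair (a : α) (b : β) : sz (a, b) = 2 * sz a + 1 + sz b := by
  simp [sz, enc_pair]

theorem sz_pair' (p : α × β) : sz p = 2 * sz p.1 + 1 + sz p.2 := sz_pair p.1 p.2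

@[simp] theorem sz_nil : sz ([] : List α) = 0 := rfl

@[simp] theorem sz_cons (a : α) (l : List α) : sz (a :: l) = 2 * sz a + 1 + sz l := by
  simp [sz, enc_cons]

@[simp] theorem sz_append (l l' : List α) : sz (l ++ l') = sz l + sz l' := by
  simp [sz, enc_append]

@[simp] theorem sz_bool (b : Bool) : sz b = 1 := rfl

theorem sz_nat (n : ℕ) : sz n = n.size := by
  simp [sz, enc_nat, Nat.size_eq_bits_len]

theorem sz_str (l : Str) : sz l = 3 * l.length := by
  simp [sz, enc_str, length_encB]

theorem length_le_sz (l : List α) : l.length ≤ sz l := by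
  induction l with
  | nil => simp
  | cons a l ih => simp; omega

theorem sz_le_of_mem {l : List α} {a : α} (h : a ∈ l) : sz a ≤ sz l := by
  induction l with
  | nil => simp at h
  | cons b l ih =>
    rcases List.mem_cons.1 h with rfl | h
    · simp; omega
    · have := ih h; simp; omega

theorem sz_tail_le (l : List α) : sz l.tail ≤ sz l := by
  cases l <;> simp

theorem sz_drop_le (l : List α) (n : ℕ) : sz (l.drop n) ≤ sz l := by
  conv_rhs => rw [← List.take_append_drop n l]
  rw [sz_append]; omega

theorem sz_take_le (l : List α) (n : ℕ) : sz (l.take n) ≤ sz l := by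
  conv_rhs => rw [← List.take_append_drop n l]
  rw [sz_append]; omega

namespace PT

theorem size {f : α → β} (h : PT f) : PB sz (fun a => sz (f a)) := Real.size h

@[fun_prop] theorem id : PT (fun a : α => a) := Real.refl

@[fun_prop] theorem const (b : β) : PT (fun _ : α => b) := Real.const _

@[fun_prop] theorem comp {f : β → γ} {g : α → β} (hf : PT f) (hg : PT g) :
    PT (fun a => f (g a)) := Real.comp hg (Real.reindex hf g)

theorem congr {f g : α → β} (hf : PT f) (h : ∀ a, g a = f a) : PT g := by
  rwa [funext h]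

@[fun_prop] theorem pair {f : α → β} {g : α → γ} (hf : PT f) (hg : PT g) :
    PT (fun a => (f a, g a)) := Real.pair hf hg

@[fun_prop] theorem fst {f : α → β × γ} (hf : PT f) : PT (fun a => (f a).1) :=
  Real.comp hf (Real.fst.reindex fun a => (bitEncode (f a).1, bitEncode (f a).2))

@[fun_prop] theorem snd {f : α → β × γ} (hf : PT f) : PT (fun a => (f a).2) :=
  Real.comp hf (Real.snd.reindex fun a => (bitEncode (f a).1, bitEncode (f a).2))

@[fun_prop] theorem cond {c : α → Bool} {f g : α → β} (hc : PT c) (hf : PT f) (hg : PT g) :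
    PT (fun a => bif c a then f a else g a) := by
  refine Real.comp (PT.pair hc PT.id) (((Real.cond hf hg).reindex fun a => (c a, a)).congr
    (fun a => rfl) fun a => ?_)
  dsimp only
  cases c a <;> rfl

@[fun_prop] theorem ite {p : α → Prop} {inst : ∀ a, Decidable (p a)} {f g : α → β} (hp : PTP p)
    (hf : PT f) (hg : PT g) : PT (fun a => @_root_.ite _ (p a) (inst a) (f a) (g a)) := by
  obtain ⟨b, hb, h⟩ := hp
  refine (PT.cond hb hf hg).congr fun a => ?_
  by_cases h' : p a
  · simp [h', (h a).2 h']
  · have : b a = false := by simpa [← h a] using h'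
    simp [h', this]

@[fun_prop] theorem decide {p : α → Prop} {inst : ∀ a, Decidable (p a)} (hp : PTP p) :
    PT (fun a => @Decidable.decide (p a) (inst a)) := by
  obtain ⟨b, hb, h⟩ := hp
  refine hb.congr fun a => ?_
  by_cases h' : p a
  · simp [h', (h a).2 h']
  · have : b a = false := by simpa [← h a] using h'
    simp [h', this]

@[fun_prop] theorem not {f : α → Bool} (hf : PT f) : PT (fun a => !(f a)) :=
  (PT.cond hf (PT.const false) (PT.const true)).congr fun a => by cases f a <;> rfl

@[fun_prop] theorem and {f g : α → Bool} (hf : PT f) (hg : PT g) : PT (fun a => f a && g a) :=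
  (PT.cond hf hg (PT.const false)).congr fun a => by cases f a <;> rfl

@[fun_prop] theorem or {f g : α → Bool} (hf : PT f) (hg : PT g) : PT (fun a => f a || g a) :=
  (PT.cond hf (PT.const true) hg).congr fun a => by cases f a <;> rfl

@[fun_prop] theorem xor {f g : α → Bool} (hf : PT f) (hg : PT g) : PT (fun a => xor (f a) (g a)) :=
  (PT.cond hf hg.not hg).congr fun a => by cases f a <;> simp

@[fun_prop] theorem toNat {f : α → Bool} (hf : PT f) : PT (fun a => (f a).toNat) :=
  (PT.cond hf (PT.const 1) (PT.const 0)).congr fun a => by cases f a <;> rfl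

@[fun_prop] theorem cons {f : α → β} {g : α → List β} (hf : PT f) (hg : PT g) :
    PT (fun a => f a :: g a) := Real.pair hf hg

@[fun_prop] theorem append {f g : α → List β} (hf : PT f) (hg : PT g) :
    PT (fun a => f a ++ g a) :=
  Real.comp (Real.pair hf hg) ((Real.append.reindex fun a =>
    (bitEncode (f a), bitEncode (g a))).congr (fun _ => rfl) fun _ => enc_append _ _)

@[fun_prop] theorem isEmpty {f : α → List β} (hf : PT f) : PT (fun a => (f a).isEmpty) := by
  refine (Real.isEmpty.raw hf).congr (fun _ => rfl) fun a => ?_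
  rw [enc_bool]
  dsimp only
  rcases f a with _ | ⟨b, l⟩
  · rfl
  · have : bitEncode (b :: l) ≠ [] := by simp [enc_eq_nil_iff]
    simp [this]

/-- Case distinction on a list, for families indexed by subtypes. -/
theorem listCases {f : α → List β} {g : α → γ} {h : α × β × List β → γ} (hf : PT f) (hg : PT g)
    (hh : PT h) : PT (fun a => match f a with
      | [] => g a
      | b :: l => h (a, b, l)) := by
  classical
  have key : Real (fun a => bitEncode (a, f a)) (fun a => bitEncode (match f a with
      | [] => g a
      | b :: l => h (a, b, l))) := by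
    obtain ⟨c₁, T₁, hT₁, hc₁⟩ := (show Real (fun p : α × List β => bitEncode p)
      (fun p => bitEncode (g p.1)) from PT.comp hg (PT.fst PT.id))
    obtain ⟨c₂, T₂, ⟨q, hq⟩, hc₂⟩ := hh
    have r1 : Real (fun a : α => bitEncode (a, f a)) (fun a => bitEncode (g a)) :=
      ⟨c₁, fun a => T₁ (a, f a), hT₁.reindex fun a => (a, f a), fun a => hc₁ (a, f a)⟩
    have r0 : Real (fun a : α => bitEncode (a, f a)) (fun a => bitEncode ((f a).isEmpty)) :=
      Real.reindex (PT.isEmpty (PT.snd (PT.id (α := α × List β)))) fun a => (a, f a)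
    obtain ⟨c₃, T₃, hT₃, hc₃⟩ := Real.pair r0 Real.refl
    obtain ⟨c₁', T₁', hT₁', hc₁'⟩ := r1
    refine ⟨.seq c₃ (.seq (.pop 0) (.ite 0 .skip (.seq (.pop 0) (.seq (.pop 0) c₂))
      (.seq (.pop 0) (.seq (.pop 0) c₁')))),
      fun a => T₃ a + T₁' a + q.eval (bitEncode (a, f a)).length + 8,
      ((hT₃.add hT₁').add (PB.eval q PB.self)).add (PB.const _), fun a => ?_⟩
    have p1 : ∀ (e : Bool) (x : Str), Ev (.pop 0) (one (e :: x)) (one x) 1 :=
      fun e x => by simp only [one_eq]; exact Ev.pop' (by simp)
    have e3 := hc₃ a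
    have e1 := hc₁' a
    rcases hfa : f a with _ | ⟨b, l⟩
    · simp only [hfa] at e3 e1 ⊢
      exact Ev.mono (Ev.seq e3 (Ev.seq (p1 _ _) (Ev.iteT (l := false :: bitEncode (a, ([] : List β)))
        rfl (Ev.seq (p1 _ _) (Ev.seq (p1 _ _) e1))))) (by omega)
    · simp only [hfa] at e3 e1 ⊢
      have e2 : Ev c₂ (one (bitEncode (a, b, l))) (one (bitEncode (h (a, b, l))))
          (q.eval (bitEncode (a, b, l)).length) := Ev.mono (hc₂ (a, b, l)) (hq (a, b, l))
      exact Ev.mono (Ev.seq e3 (Ev.seq (p1 _ _) (Ev.iteF (l := false :: bitEncode (a, b :: l))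
        rfl (Ev.seq (p1 _ _) (Ev.seq (p1 _ _) e2))))) (by
          change _ ≤ T₃ a + T₁' a + q.eval (bitEncode (a, b, l)).length + 8
          omega)
  exact Real.comp (PT.pair PT.id hf) key

@[fun_prop] theorem tail {f : α → List β} (hf : PT f) : PT (fun a => (f a).tail) :=
  (PT.listCases (h := fun p => p.2.2) hf (PT.const []) (by fun_prop)).congr fun a => by
    cases f a <;> rfl

@[fun_prop] theorem headD {f : α → List β} {g : α → β} (hf : PT f) (hg : PT g) :
    PT (fun a => (f a).headD (g a)) :=
  (PT.listCases (h := fun p => p.2.1) hf hg (by fun_prop)).congr fun a => by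
    cases f a <;> rfl

/-- The code of an object, as a bit list, is computable in polynomial time. -/
@[fun_prop] theorem bitEncode {f : α → β} (hf : PT f) : PT (fun a => (bitEncode (f a) : Str)) :=
  (Real.encB.raw hf).congr (fun _ => rfl) fun _ => enc_str _

/-- A function whose code is computable in polynomial time is computable in polynomial time. -/
theorem of_bitEncode {f : α → β} (h : PT (fun a => (N487b59b3.bitEncode (f a) : Str))) : PT f :=
  Real.comp h ((Real.decB.reindex fun a => N487b59b3.bitEncode (f a)).congr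
    (fun _ => enc_str _) fun _ => rfl)

/-- Bounded iteration; the number of rounds is the code length of `c a`. -/
theorem iterate_sz {c : α → γ} {s : α → β} {F : α → β → β} (hc : PT c) (hs : PT s)
    (hF : PT (fun p : α × β => F p.1 p.2))
    (hb : PB (fun p : {p : α × ℕ // p.2 ≤ sz (c p.1)} => sz p.1.1)
      (fun p => sz ((F p.1.1)^[p.1.2] (s p.1.1)))) :
    PT (fun a => (F a)^[sz (c a)] (s a)) := by
  have hF' : PT (fun p : α × β => (p.1, F p.1 p.2)) := by fun_prop
  have h := Real.iterate (fun a => N487b59b3.bitEncode (c a))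
    (fun a m => N487b59b3.bitEncode (a, (F a)^[m] (s a)))
    ((Real.reindex hF' fun p => (p.1.1, (F p.1.1)^[p.1.2] (s p.1.1))).congr (fun _ => rfl)
      fun p => by rw [iterate_succ_apply']) ?_
  · have h1 : PT (fun a => (c a, a, s a)) := by fun_prop
    have h2 : PT (fun a => (a, (F a)^[sz (c a)] (s a))) := Real.comp h1 h
    exact h2.snd
  · have h3 : PB (fun p : {p : α × ℕ // p.2 ≤ sz (c p.1)} => sz (c p.1.1, p.1.1, s p.1.1))
        (fun p => sz p.1.1) := PB.self.mono fun p => by simp; omega
    refine ((((PB.const 2).mul h3).add (PB.const 1)).add (hb.trans h3)).mono fun p => ?_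
    exact (sz_pair _ _).le

theorem foldl {l : α → List γ} {s : α → β} {f : α → β → γ → β} (hl : PT l) (hs : PT s)
    (hf : PT (fun p : α × β × γ => f p.1 p.2.1 p.2.2))
    (hb : PB (fun p : α × ℕ => sz p.1)
      (fun p => sz (((l p.1).take p.2).foldl (f p.1) (s p.1)))) :
    PT (fun a => (l a).foldl (f a) (s a)) := by
  let F : α → List γ × β → List γ × β := fun a q =>
    match q.1 with
    | [] => q
    | x :: r => (r, f a q.2 x)
  have hF : PT (fun p : α × List γ × β => F p.1 p.2) :=
    PT.listCases (f := fun p : α × List γ × β => p.2.1) (g := fun p => p.2)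
      (h := fun r => (r.2.2, f r.1.1 r.1.2.2 r.2.1)) (by fun_prop) (by fun_prop)
      (PT.pair (by fun_prop) (hf.comp (g := fun r : (α × List γ × β) × γ × List γ =>
        (r.1.1, r.1.2.2, r.2.1)) (by fun_prop)))
  have hit : ∀ a m (r : List γ) (b : β),
      (F a)^[m] (r, b) = (r.drop m, (r.take m).foldl (f a) b) := by
    intro a m
    induction m with
    | zero => intro r b; rfl
    | succ m ih =>
      intro r b
      rw [iterate_succ_apply]
      cases r with
      | nil => simp [F, ih]
      | cons x r => simp [F, ih]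
  have h := iterate_sz (c := l) (s := fun a => (l a, s a)) (F := F) hl (by fun_prop) hF ?_
  · refine h.snd.congr fun a => ?_
    rw [hit, List.take_of_length_le (length_le_sz _)]
  · have h1 := (hl.size.reindex fun p : {p : α × ℕ // p.2 ≤ sz (l p.1)} => p.1.1)
    have h2 := (hb.reindex fun p : {p : α × ℕ // p.2 ≤ sz (l p.1)} => p.1)
    refine ((((PB.const 2).mul h1).add (PB.const 1)).add h2).mono fun p => ?_
    rw [hit, sz_pair]
    have := sz_drop_le (l p.1.1) p.1.2
    omega

omit [N487b59b3 γ] in
theorem sz_foldl_le {f : β → γ → β} {B : ℕ} (l : List γ) (b : β)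
    (h : ∀ b x, x ∈ l → sz (f b x) ≤ sz b + B) : sz (l.foldl f b) ≤ sz b + l.length * B := by
  induction l generalizing b with
  | nil => simp
  | cons x l ih =>
    have h1 := ih (f b x) fun b y hy => h b y (by simp [hy])
    have h2 := h b x (by simp)
    simp only [List.foldl_cons, List.length_cons]
    nlinarith

/-- `foldl` whose accumulator grows by a polynomially bounded amount in each round. -/
theorem foldl_growth {l : α → List γ} {s : α → β} {f : α → β → γ → β} (hl : PT l) (hs : PT s)
    (hf : PT (fun p : α × β × γ => f p.1 p.2.1 p.2.2)) (g : α × γ → ℕ) (hg : PB sz g)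
    (h : ∀ a b x, sz (f a b x) ≤ sz b + g (a, x)) :
    PT (fun a => (l a).foldl (f a) (s a)) := by
  refine foldl hl hs hf ?_
  obtain ⟨q, hq⟩ := hg
  have h1 := hl.size.reindex (Prod.fst : α × ℕ → α)
  have h2 := hs.size.reindex (Prod.fst : α × ℕ → α)
  refine (h2.add (h1.mul (PB.eval q ((((PB.const 2).mul PB.self).add (PB.const 1)).add
    h1)))).mono fun p => ?_
  refine (sz_foldl_le (B := q.eval (2 * sz p.1 + 1 + sz (l p.1))) _ _ fun b x hx => ?_).trans ?_
  · refine (h _ _ _).trans (Nat.add_le_add_left ((hq _).trans (eval_mono q ?_)) _)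
    have := sz_le_of_mem (List.mem_of_mem_take hx)
    simp; omega
  · have : ((l p.1).take p.2).length ≤ sz (l p.1) :=
      (List.length_take_le' _ _).trans (length_le_sz _)
    gcongr

/-- Iteration `|c a|` times with a polynomial bound on all intermediate states. -/
theorem iterate {c : α → List γ} {s : α → β} {F : α → β → β} (hc : PT c) (hs : PT s)
    (hF : PT (fun p : α × β => F p.1 p.2))
    (hb : PB (fun p : {p : α × ℕ // p.2 ≤ (c p.1).length} => sz p.1.1)
      (fun p => sz ((F p.1.1)^[p.1.2] (s p.1.1)))) :
    PT (fun a => (F a)^[(c a).length] (s a)) := by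
  have e : ∀ (a : α) (l : List γ) (b : β),
      l.foldl (fun b _ => F a b) b = (F a)^[l.length] b := by
    intro a l
    induction l with
    | nil => intro b; rfl
    | cons x l ih => intro b; simp [ih]
  refine (foldl (f := fun a b _ => F a b) hc hs
    (hF.comp (g := fun p : α × β × γ => (p.1, p.2.1)) (by fun_prop)) ?_).congr fun a => (e a _ _).symm
  refine (hb.reindex fun p : α × ℕ =>
    ⟨(p.1, ((c p.1).take p.2).length), List.length_take_le' _ _⟩).mono fun p => ?_
  rw [e]

/-- Iteration `|c a|` times where the state grows by a polynomially bounded amount per round. -/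
theorem iterate_growth {c : α → List γ} {s : α → β} {F : α → β → β} (hc : PT c) (hs : PT s)
    (hF : PT (fun p : α × β => F p.1 p.2)) (g : α → ℕ) (hg : PB sz g)
    (h : ∀ a b, sz (F a b) ≤ sz b + g a) :
    PT (fun a => (F a)^[(c a).length] (s a)) := by
  refine iterate hc hs hF ?_
  have e : ∀ a m, sz ((F a)^[m] (s a)) ≤ sz (s a) + m * g a := by
    intro a m
    induction m with
    | zero => simp
    | succ m ih => rw [iterate_succ_apply']; have := h a ((F a)^[m] (s a)); nlinarith
  let π : {p : α × ℕ // p.2 ≤ (c p.1).length} → α := fun p => p.1.1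
  refine ((hs.size.reindex π).add ((hc.size.reindex π).mul (hg.reindex π))).mono fun p => ?_
  refine (e _ _).trans ?_
  have := p.2.trans (length_le_sz _)
  simp only [π]
  gcongr

end PT

namespace PTP

theorem of_bool {b : α → Bool} (hb : PT b) : PTP (fun a => b a = true) := ⟨b, hb, fun _ => Iff.rfl⟩

@[fun_prop] theorem comp {p : β → Prop} {g : α → β} (hp : PTP p) (hg : PT g) :
    PTP (fun a => p (g a)) := by
  obtain ⟨b, hb, h⟩ := hp
  exact ⟨fun a => b (g a), hb.comp hg, fun a => h _⟩

@[fun_prop] theorem and {p q : α → Prop} (hp : PTP p) (hq : PTP q) : PTP (fun a => p a ∧ q a) := by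
  obtain ⟨b, hb, h⟩ := hp
  obtain ⟨b', hb', h'⟩ := hq
  exact ⟨fun a => b a && b' a, hb.and hb', fun a => by simp [h, h']⟩

@[fun_prop] theorem or {p q : α → Prop} (hp : PTP p) (hq : PTP q) : PTP (fun a => p a ∨ q a) := by
  obtain ⟨b, hb, h⟩ := hp
  obtain ⟨b', hb', h'⟩ := hq
  exact ⟨fun a => b a || b' a, hb.or hb', fun a => by simp [h, h']⟩

@[fun_prop] theorem not {p : α → Prop} (hp : PTP p) : PTP (fun a => ¬ p a) := by
  obtain ⟨b, hb, h⟩ := hp
  exact ⟨fun a => !b a, hb.not, fun a => by simp [← h]⟩

end PTP

end Pool.Agent.Lib.PolyTime
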