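import Pool.Agent.Lib.PolyTime.Arith

/-! Polynomially bounded quantities, ranges, powers and bounded loops. -/

namespace Pool.Agent.Lib.PolyTime

open Function N487b59b3 N68a2faeb

variable {α β γ δ : Type} [N487b59b3 α] [N487b59b3 β] [N487b59b3 γ] [N487b59b3 δ]

/-- The value `n a` is bounded by a polynomial in the code length of `a`. -/
@[fun_prop]
def Small (n : α → ℕ) : Prop := PB sz n

namespace Small

variable {m n : α → ℕ}

@[fun_prop] theorem const (c : ℕ) : Small (fun _ : α => c) := PB.const c

@[fun_prop] theorem comp {n : β → ℕ} {g : α → β} (hn : Small n) (hg : PT g) :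
    Small (fun a => n (g a)) := PB.trans (PB.reindex hn g) hg.size

theorem mono (hn : Small n) (h : ∀ a, m a ≤ n a) : Small m := PB.mono hn h

@[fun_prop] theorem add (hm : Small m) (hn : Small n) : Small (fun a => m a + n a) := PB.add hm hn

@[fun_prop] theorem mul (hm : Small m) (hn : Small n) : Small (fun a => m a * n a) := PB.mul hm hn

@[fun_prop] theorem pow (hm : Small m) (k : ℕ) : Small (fun a => m a ^ k) := PB.pow hm k

@[fun_prop] theorem sub (hm : Small m) : Small (fun a => m a - n a) :=
  hm.mono fun _ => Nat.sub_le _ _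

@[fun_prop] theorem div (hm : Small m) : Small (fun a => m a / n a) :=
  hm.mono fun _ => Nat.div_le_self _ _

@[fun_prop] theorem mod (hm : Small m) : Small (fun a => m a % n a) :=
  hm.mono fun _ => Nat.mod_le _ _

/-- A minimum is small as soon as its second argument is. -/
@[fun_prop] theorem min (hn : Small n) : Small (fun a => min (m a) (n a)) :=
  hn.mono fun _ => min_le_right _ _

@[fun_prop] theorem max (hm : Small m) (hn : Small n) : Small (fun a => max (m a) (n a)) :=
  (hm.add hn).mono fun _ => by omega

@[fun_prop] theorem sz {f : α → β} (hf : PT f) : Small (fun a => sz (f a)) := hf.size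

@[fun_prop] theorem length {l : α → List β} (hl : PT l) : Small (fun a => (l a).length) :=
  (sz hl).mono fun _ => length_le_sz _

@[fun_prop] theorem size (hn : PT n) : Small (fun a => (n a).size) :=
  (sz hn).mono fun _ => (sz_nat _).ge

@[fun_prop] theorem eval (p : Polynomial ℕ) (hn : Small n) : Small (fun a => p.eval (n a)) :=
  PB.eval p hn

end Small

namespace PT

@[fun_prop] theorem eval (p : Polynomial ℕ) {n : α → ℕ} (hn : PT n) :
    PT (fun a => p.eval (n a)) := by
  induction p using Polynomial.induction_on with
  | C c => simpa using PT.const c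
  | add p q hp hq => simpa using hp.add hq
  | monomial k c h => simpa [pow_succ, ← mul_assoc] using h.mul hn

theorem unary_eval (p : Polynomial ℕ) :
    PT (fun a : α => List.replicate (p.eval (PolyTime.sz a)) true) := by
  induction p using Polynomial.induction_on with
  | C c => simpa using PT.const (List.replicate c true)
  | add p q hp hq =>
    exact (hp.append hq).congr fun a => by rw [Polynomial.eval_add, List.replicate_add]
  | monomial k c h =>
    have h1 : PT (fun a : α => (N487b59b3.bitEncode a).map fun _ => true) := by fun_prop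
    refine (PT.flatMap (f := fun a _ => (N487b59b3.bitEncode a).map fun _ => true) h
      (h1.comp (PT.fst PT.id))).congr fun a => ?_
    simp [List.flatMap_replicate, pow_succ, ← mul_assoc, List.map_const', PolyTime.sz]

@[fun_prop] theorem replicate {n : α → ℕ} {x : α → β} (hn : PT n) (hs : Small n) (hx : PT x) :
    PT (fun a => List.replicate (n a) (x a)) := by
  obtain ⟨p, hp⟩ := hs
  refine (PT.map (f := fun a _ => x a) (PT.take hn (unary_eval p)) (by fun_prop)).congr fun a => ?_
  simp [List.take_replicate, min_eq_left (hp a)]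

/-- Iteration a small number of times, with a polynomial bound on all intermediate states. -/
theorem iterate_nat {n : α → ℕ} {s : α → β} {F : α → β → β} (hn : PT n) (hn' : Small n)
    (hs : PT s) (hF : PT (fun p : α × β => F p.1 p.2))
    (hb : PB (fun p : {p : α × ℕ // p.2 ≤ n p.1} => PolyTime.sz p.1.1)
      (fun p => PolyTime.sz ((F p.1.1)^[p.1.2] (s p.1.1)))) :
    PT (fun a => (F a)^[n a] (s a)) := by
  have h := iterate (c := fun a => List.replicate (n a) true) (by fun_prop) hs hF
    (hb.reindex fun p : {p : α × ℕ // p.2 ≤ (List.replicate (n p.1) true).length} =>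
      ⟨p.1, by simpa using p.2⟩)
  simpa using h

/-- Iteration a small number of times, when each round adds a small amount to the state. -/
theorem iterate_nat_growth {n : α → ℕ} {s : α → β} {F : α → β → β} (hn : PT n) (hn' : Small n)
    (hs : PT s) (hF : PT (fun p : α × β => F p.1 p.2)) (g : α → ℕ) (hg : Small g)
    (h : ∀ a b, PolyTime.sz (F a b) ≤ PolyTime.sz b + g a) :
    PT (fun a => (F a)^[n a] (s a)) := by
  have h := iterate_growth (c := fun a => List.replicate (n a) true) (by fun_prop) hs hF g hg h
  simpa using h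

theorem sz_range_le (m : ℕ) : PolyTime.sz (List.range m) ≤ m * (2 * m + 1) := by
  induction m with
  | zero => simp
  | succ m ih =>
    have := sz_le_self m
    simp [List.range_succ]; nlinarith

@[fun_prop] theorem range {n : α → ℕ} (hn : PT n) (hs : Small n) :
    PT (fun a => List.range (n a)) := by
  have e : ∀ m, (fun r : List ℕ => r ++ [r.length])^[m] [] = List.range m := by
    intro m
    induction m with
    | zero => rfl
    | succ m ih => rw [iterate_succ_apply', ih, List.range_succ, List.length_range]
  refine (iterate_nat (F := fun _ (r : List ℕ) => r ++ [r.length]) hn hs (PT.const [])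
    (by fun_prop) ?_).congr fun a => (e _).symm
  have h1 := PB.reindex hs fun p : {p : α × ℕ // p.2 ≤ n p.1} => p.1.1
  refine (h1.mul (((PB.const 2).mul h1).add (PB.const 1))).mono fun p => ?_
  rw [e]
  refine (sz_range_le _).trans ?_
  have := p.2
  gcongr

@[fun_prop] theorem pow {x n : α → ℕ} (hx : PT x) (hn : PT n) (hs : Small n) :
    PT (fun a => x a ^ n a) :=
  (PT.prod (PT.replicate hn hs hx)).congr fun a => by simp

@[fun_prop] theorem zip {l : α → List β} {r : α → List γ} (hl : PT l) (hr : PT r) :
    PT (fun a => (l a).zip (r a)) := by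
  have h : PT (fun a => (List.range (l a).length).flatMap fun i =>
      (((l a).drop i).take 1).flatMap fun x => (((r a).drop i).take 1).map fun y => (x, y)) := by
    fun_prop
  refine h.congr fun a => ?_
  generalize l a = u
  generalize r a = v
  induction u generalizing v with
  | nil => simp
  | cons x u ih =>
    rw [List.length_cons, List.range_succ_eq_map, List.flatMap_cons, List.flatMap_map]
    cases v with
    | nil => simp
    | cons y v => simp [ih v]

@[fun_prop] theorem zipIdx {l : α → List β} (hl : PT l) : PT (fun a => (l a).zipIdx) :=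
  (show PT (fun a => (l a).zip (List.range (l a).length)) by fun_prop).congr fun a => by
    rw [List.zipIdx_eq_zip_range', List.range_eq_range']

end PT

/-- All bit strings of length `n`. -/
def allStr (n : ℕ) : List Str := (fun L : List Str => L.flatMap fun x => [false :: x, true :: x])^[n] [[]]

theorem allStr_succ (n : ℕ) :
    allStr (n + 1) = (allStr n).flatMap fun x => [false :: x, true :: x] := by
  rw [allStr, iterate_succ_apply']; rfl

theorem mem_allStr {n : ℕ} {x : Str} : x ∈ allStr n ↔ x.length = n := by
  induction n generalizing x with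
  | zero => simp [allStr]
  | succ n ih =>
    rw [allStr_succ]
    rcases x with _ | ⟨_ | _, x⟩ <;> simp [ih]

theorem length_allStr (n : ℕ) : (allStr n).length = 2 ^ n := by
  induction n with
  | zero => rfl
  | succ n ih => simp [allStr_succ, List.length_flatMap, ih, pow_succ]

theorem nodup_allStr (n : ℕ) : (allStr n).Nodup := by
  induction n with
  | zero => simp [allStr]
  | succ n ih =>
    rw [allStr_succ, List.nodup_flatMap]
    refine ⟨fun x _ => by simp, ih.pairwise_of_forall_ne fun x _ y _ h => ?_⟩
    simp [Function.onFun, List.disjoint_left, h]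

theorem sz_le_of_forall {l : List α} {B : ℕ} (h : ∀ x ∈ l, sz x ≤ B) :
    sz l ≤ l.length * (2 * B + 1) := by
  induction l with
  | nil => simp
  | cons x l ih =>
    have h1 := ih fun y hy => h y (by simp [hy])
    have h2 := h x (by simp)
    simp; nlinarith

/-- The list of all strings of length `n a`, when `2 ^ n a` is small. -/
theorem PT.allStr {n : α → ℕ} (hn : PT n) (hs : Small fun a => 2 ^ n a) :
    PT (fun a => allStr (n a)) := by
  have hs' : Small n := hs.mono fun _ => Nat.lt_two_pow_self.le
  refine PT.iterate_nat (F := fun _ (L : List Str) => L.flatMap fun x => [false :: x, true :: x])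
    hn hs' (PT.const _) (by fun_prop) ?_
  have h1 := PB.reindex hs fun p : {p : α × ℕ // p.2 ≤ n p.1} => p.1.1
  have h2 := PB.reindex hs' fun p : {p : α × ℕ // p.2 ≤ n p.1} => p.1.1
  refine (h1.mul (((PB.const 2).mul ((PB.const 3).mul h2)).add (PB.const 1))).mono fun p => ?_
  change PolyTime.sz (PolyTime.allStr p.1.2) ≤ _
  refine (sz_le_of_forall (B := 3 * p.1.2) fun x hx => ?_).trans ?_
  · rw [sz_str, mem_allStr.1 hx]
  · rw [length_allStr]
    have := p.2
    gcongr
    norm_num

/-! ### Integers and rationals -/

theorem enc_int (z : ℤ) : bitEncode z = bitEncode (z.toNat, (-z).toNat) := rfl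

theorem enc_rat (q : ℚ) : bitEncode q = bitEncode (q.num, q.den) := rfl

namespace PT

@[fun_prop] theorem natCast_int {n : α → ℕ} (hn : PT n) : PT (fun a => (n a : ℤ)) := by
  have : PT (fun a => (n a, (0 : ℕ))) := by fun_prop
  exact Real.congr this (fun _ => rfl) fun a => by simp [enc_int]

@[fun_prop] theorem int_toNat {z : α → ℤ} (hz : PT z) : PT (fun a => (z a).toNat) :=
  PT.fst (f := fun a => ((z a).toNat, (-z a).toNat)) hz

@[fun_prop] theorem int_neg {z : α → ℤ} (hz : PT z) : PT (fun a => -z a) := by
  have h : PT (fun a => ((z a).toNat, (-z a).toNat)) := hz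
  exact Real.congr (PT.pair h.snd h.fst) (fun _ => rfl) fun a => by simp [enc_int]

theorem int_sub_nat {m n : α → ℕ} (hm : PT m) (hn : PT n) : PT (fun a => (m a : ℤ) - n a) := by
  have : PT (fun a => (m a - n a, n a - m a)) := by fun_prop
  refine Real.congr this (fun _ => rfl) fun a => ?_
  rw [enc_int]
  dsimp only
  congr 2 <;> omega

@[fun_prop] theorem int_add {x y : α → ℤ} (hx : PT x) (hy : PT y) : PT (fun a => x a + y a) :=
  (int_sub_nat (m := fun a => (x a).toNat + (y a).toNat)
    (n := fun a => (-x a).toNat + (-y a).toNat) (by fun_prop) (by fun_prop)).congr fun a => by omega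

@[fun_prop] theorem int_sub {x y : α → ℤ} (hx : PT x) (hy : PT y) : PT (fun a => x a - y a) :=
  (int_add hx hy.int_neg).congr fun a => by ring

@[fun_prop] theorem int_mul {x y : α → ℤ} (hx : PT x) (hy : PT y) : PT (fun a => x a * y a) :=
  (int_sub_nat (m := fun a => (x a).toNat * (y a).toNat + (-x a).toNat * (-y a).toNat)
    (n := fun a => (x a).toNat * (-y a).toNat + (-x a).toNat * (y a).toNat)
    (by fun_prop) (by fun_prop)).congr fun a => by
      have e : ∀ z : ℤ, (z.toNat : ℤ) - ((-z).toNat : ℤ) = z := fun z => by omega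
      conv_lhs => rw [← e (x a), ← e (y a)]
      push_cast; ring

@[fun_prop] theorem int_natAbs {z : α → ℤ} (hz : PT z) : PT (fun a => (z a).natAbs) :=
  (show PT (fun a => (z a).toNat + (-z a).toNat) by fun_prop).congr fun a => by omega

@[fun_prop] theorem rat_num {q : α → ℚ} (hq : PT q) : PT (fun a => (q a).num) :=
  PT.fst (f := fun a => ((q a).num, (q a).den)) hq

@[fun_prop] theorem rat_den {q : α → ℚ} (hq : PT q) : PT (fun a => (q a).den) :=
  PT.snd (f := fun a => ((q a).num, (q a).den)) hq

theorem rat_of_num_den {q : α → ℚ} (h₁ : PT fun a => (q a).num) (h₂ : PT fun a => (q a).den) :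
    PT q := PT.pair h₁ h₂

@[fun_prop] theorem gcd {x y : α → ℕ} (hx : PT x) (hy : PT y) : PT (fun a => (x a).gcd (y a)) := by
  let F : ℕ × ℕ → ℕ × ℕ := fun s => if s.1 = 0 then s else (s.2 % s.1, s.1)
  have hF : ∀ m (s : ℕ × ℕ), (F^[m] s).1.gcd (F^[m] s).2 = s.1.gcd s.2 ∧
      (F^[m] s).1 ≤ s.1 ∧ (F^[m] s).2 ≤ s.1 + s.2 := by
    intro m s
    induction m with
    | zero => simp
    | succ m ih =>
      rw [iterate_succ_apply']
      generalize F^[m] s = t at *
      by_cases h : t.1 = 0
      · simpa only [F, h, if_true] using ih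
      · have := Nat.mod_lt t.2 (Nat.pos_of_ne_zero h)
        simp only [F, h, if_false]
        exact ⟨by rw [← ih.1, Nat.gcd_rec t.1 t.2], by omega, by omega⟩
  have hhalf : ∀ s : ℕ × ℕ, 2 * (F (F s)).1 ≤ s.1 := by
    intro s
    by_cases h : s.1 = 0
    · simp [F, h]
    · have h1 := Nat.mod_lt s.2 (Nat.pos_of_ne_zero h)
      by_cases h' : s.2 % s.1 = 0
      · simp [F, h, h']
      · simp only [F, h, h', if_false]
        have h2 := Nat.mod_lt s.1 (Nat.pos_of_ne_zero h')
        have h3 := Nat.div_add_mod s.1 (s.2 % s.1)
        have h4 : 0 < s.1 / (s.2 % s.1) := Nat.div_pos h1.le (Nat.pos_of_ne_zero h')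
        nlinarith
  have hz : ∀ k (s : ℕ × ℕ), 2 ^ k * (F^[2 * k] s).1 ≤ s.1 := by
    intro k
    induction k with
    | zero => simp
    | succ k ih =>
      intro s
      rw [show 2 * (k + 1) = 2 * k + 1 + 1 by ring, iterate_succ_apply', iterate_succ_apply',
        pow_succ]
      have := hhalf (F^[2 * k] s)
      have := ih s
      nlinarith [Nat.two_pow_pos k]
  have h := iterate_nat (n := fun a => 2 * PolyTime.sz (x a)) (s := fun a => (x a, y a))
    (F := fun _ s => F s) (by fun_prop) (by fun_prop) (by fun_prop) (by simp only [F]; fun_prop) ?_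
  · refine h.snd.congr fun a => ?_
    have h1 := hz (PolyTime.sz (x a)) (x a, y a)
    have h2 := lt_two_pow_sz (x a)
    have h3 : (F^[2 * PolyTime.sz (x a)] (x a, y a)).1 = 0 := by
      by_contra h0
      have := Nat.pos_of_ne_zero h0
      simp only at h1
      nlinarith
    have h4 := (hF (2 * PolyTime.sz (x a)) (x a, y a)).1
    rw [h3, Nat.gcd_zero_left] at h4
    exact h4.symm
  · have h1 : Small fun a => 2 * PolyTime.sz (x a) + 1 + PolyTime.sz (x a + y a) := by fun_prop
    refine (PB.reindex h1 fun p : {p : α × ℕ // p.2 ≤ 2 * PolyTime.sz (x p.1)} => p.1.1).mono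
      fun p => ?_
    obtain ⟨-, h2, h3⟩ := hF p.1.2 (x p.1.1, y p.1.1)
    have := sz_mono h2
    have := sz_mono h3
    change PolyTime.sz (F^[p.1.2] (x p.1.1, y p.1.1)) ≤ _
    rw [sz_pair']
    simp only at *
    omega

/-- Quotients of natural numbers, as rationals in lowest terms. -/
theorem nat_div_rat {m n : α → ℕ} (hm : PT m) (hn : PT n) : PT (fun a => (m a : ℚ) / n a) := by
  refine rat_of_num_den ?_ ?_
  · refine (show PT (fun a => ((if n a = 0 then 0 else m a / (m a).gcd (n a) : ℕ) : ℤ)) by
      fun_prop).congr fun a => ?_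
    rw [← Int.cast_natCast (m a), ← Rat.mkRat_eq_div, Rat.num_mkRat]
    split_ifs <;> simp [Nat.gcd_comm]
  · refine (show PT (fun a => if n a = 0 then 1 else n a / (m a).gcd (n a)) by
      fun_prop).congr fun a => ?_
    rw [← Int.cast_natCast (m a), ← Rat.mkRat_eq_div, Rat.den_mkRat]
    split_ifs <;> simp [Nat.gcd_comm]

end PT

namespace PTP

@[fun_prop] theorem int_le {x y : α → ℤ} (hx : PT x) (hy : PT y) : PTP (fun a => x a ≤ y a) :=
  (show PTP (fun a => (x a - y a).toNat = 0) by fun_prop).congr fun a => by omega

@[fun_prop] theorem int_lt {x y : α → ℤ} (hx : PT x) (hy : PT y) : PTP (fun a => x a < y a) :=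
  (int_le hy hx).not.congr fun _ => by simp

end PTP

end Pool.Agent.Lib.PolyTime
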