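import Pool.Agent.Lib.PolyTime.Unary

/-! A clocked universal machine, and the equivalence of `PT` with `IsPolyTime`. -/

namespace Pool.Agent.Lib.PolyTime

open Function N487b59b3 N68a2faeb

/-- One step of the table machine with program `P`. -/
def ustep (P : List (List ℕ)) (c : ℕ × List (List ℕ)) : ℕ × List (List ℕ) :=
  ((P.getD c.1 []).getD (3 + (c.2.getD ((P.getD c.1 []).getD 1 0) []).headD 0) 0,
    if (P.getD c.1 []).getD 0 0 = 1 then
      c.2.set ((P.getD c.1 []).getD 1 0)
        ((P.getD c.1 []).getD 2 0 :: c.2.getD ((P.getD c.1 []).getD 1 0) [])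
    else if (P.getD c.1 []).getD 0 0 = 2 then
      c.2.set ((P.getD c.1 []).getD 1 0) (c.2.getD ((P.getD c.1 []).getD 1 0) []).tail
    else c.2)

/-- Initial configuration of the table machine with code `e` on input `x`. -/
def uinit (e : List (List ℕ)) (x : Str) : ℕ × List (List ℕ) :=
  ((e.getD 0 []).getD 5 0, ((e.getD 1 []).map fun _ => []).set ((e.getD 0 []).getD 0 0)
    (x.map fun b => bif b then (e.getD 0 []).getD 3 0 else (e.getD 0 []).getD 2 0))

/-- Output of the table machine with code `e` on input `x` after `t` steps. -/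
def urun (e : List (List ℕ)) (x : Str) (t : ℕ) : Str :=
  (((ustep (e.drop 2))^[t] (uinit e x)).2.getD ((e.getD 0 []).getD 1 0) []).map
    fun c => c == (e.getD 0 []).getD 4 0

section PTpart

variable {α β : Type} [N487b59b3 α] [N487b59b3 β]

theorem sz_getD_le (l : List α) (k : ℕ) (d : α) : sz (l.getD k d) ≤ sz l + sz d := by
  rw [List.getD_eq_getElem?_getD]
  rcases h : l[k]? with _ | x
  · simp
  · have := sz_le_of_mem (List.mem_of_getElem? h)
    simp; omega

theorem sz_set_le (l : List (List α)) (k : ℕ) (v : List α) :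
    sz (l.set k v) + 2 * sz (l.getD k []) ≤ sz l + 2 * sz v := by
  induction l generalizing k with
  | nil => simp
  | cons x l ih =>
    cases k with
    | zero => simp; omega
    | succ k => have := ih k; simp at this ⊢; omega

theorem sz_ustep_le (P : List (List ℕ)) (c : ℕ × List (List ℕ)) :
    sz (ustep P c) ≤ sz c + (6 * sz P + 2) := by
  have h0 : sz (0 : ℕ) = 0 := by simp [sz_nat]
  have h1 : ∀ j, sz ((P.getD c.1 []).getD j 0) ≤ sz P := fun j => by
    have := sz_getD_le (P.getD c.1 []) j 0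
    have := sz_getD_le P c.1 []
    simp only [sz_nil] at this
    omega
  rw [sz_pair' c]
  unfold ustep
  rw [sz_pair]
  have h2 := h1 (3 + (c.2.getD ((P.getD c.1 []).getD 1 0) []).headD 0)
  split_ifs
  · have h3 := sz_set_le c.2 ((P.getD c.1 []).getD 1 0)
      ((P.getD c.1 []).getD 2 0 :: c.2.getD ((P.getD c.1 []).getD 1 0) [])
    have := h1 2
    rw [sz_cons] at h3
    omega
  · have h3 := sz_set_le c.2 ((P.getD c.1 []).getD 1 0)
      (c.2.getD ((P.getD c.1 []).getD 1 0) []).tail
    have := sz_tail_le (c.2.getD ((P.getD c.1 []).getD 1 0) [])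
    omega
  · omega

@[fun_prop] theorem PT.urun {e : α → List (List ℕ)} {x : α → Str} {t : α → ℕ} (he : PT e)
    (hx : PT x) (ht : PT t) (hs : Small t) : PT (fun a => urun (e a) (x a) (t a)) := by
  have h := PT.iterate_nat_growth (s := fun a => uinit (e a) (x a))
    (F := fun a c => ustep ((e a).drop 2) c) ht hs (by unfold uinit; fun_prop)
    (by unfold ustep; fun_prop) (fun a => 6 * PolyTime.sz ((e a).drop 2) + 2) (by fun_prop)
    fun a c => sz_ustep_le _ _
  unfold PolyTime.urun
  fun_prop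

end PTpart

theorem ustep_halt (P S : List (List ℕ)) : ustep ([] :: P) (0, S) = (0, S) := by
  simp [ustep]

theorem ustep_halt_iter (P S : List (List ℕ)) (n : ℕ) : (ustep ([] :: P))^[n] (0, S) = (0, S) :=
  iterate_fixed (ustep_halt P S) n

/-- Numbering of the elements of a finite set by positive integers. -/
noncomputable def num {A : Type} (s : Finset A) (a : A) : ℕ := by
  classical exact if h : a ∈ s then (s.equivFin ⟨a, h⟩ : ℕ) + 1 else 0

theorem num_pos {A : Type} {s : Finset A} {a : A} (h : a ∈ s) : 0 < num s a := by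
  simp [num, h]

theorem num_le {A : Type} (s : Finset A) (a : A) : num s a ≤ s.card := by
  unfold num
  split_ifs with h
  · exact (s.equivFin ⟨a, h⟩).2
  · exact Nat.zero_le _

theorem num_inj {A : Type} {s : Finset A} {a b : A} (h : a ∈ s) (e : num s a = num s b) :
    a = b := by
  unfold num at e
  by_cases hb : b ∈ s
  · simp only [h, hb, dite_true, add_left_inj] at e
    simpa using s.equivFin.injective (Fin.ext e)
  · simp [h, hb] at e

theorem getD_num {A B : Type} {s : Finset A} {a : A} (h : a ∈ s) (f : A → B) (d d' : B) :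
    (d :: List.ofFn fun i : Fin s.card => f (s.equivFin.symm i)).getD (num s a) d' = f a := by
  simp [num, h]

namespace Sim

open Turing Turing.TM2.Stmt

variable (tm : FinTM2)

/-- Statements of `tm`. -/
abbrev TS := TM2.Stmt tm.Γ tm.Λ tm.σ

/-- All substatements of the program. -/
noncomputable def Q0 : Finset (TS tm) := by
  classical
  exact (@Finset.univ _ tm.ΛFin).biUnion fun l => TM2.stmts₁ (tm.m l)

theorem m_mem (l : tm.Λ) : tm.m l ∈ Q0 tm := by
  classical
  simp only [Q0, Finset.mem_biUnion]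
  exact ⟨l, @Finset.mem_univ _ tm.ΛFin l, TM2.stmts₁_self⟩

theorem sub_mem {q q' : TS tm} (h : q ∈ Q0 tm) (h' : q' ∈ TM2.stmts₁ q) : q' ∈ Q0 tm := by
  classical
  simp only [Q0, Finset.mem_biUnion] at h ⊢
  obtain ⟨l, hl, h⟩ := h
  exact ⟨l, hl, TM2.stmts₁_trans h h'⟩

/-- Control states of the table machine. -/
noncomputable def Qs : Finset (TS tm × tm.σ) := Q0 tm ×ˢ @Finset.univ _ tm.σFin

theorem mem_Qs {q : TS tm} (h : q ∈ Q0 tm) (v : tm.σ) : (q, v) ∈ Qs tm :=
  Finset.mem_product.2 ⟨h, @Finset.mem_univ _ tm.σFin v⟩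

/-- The symbol pushed in a control state, if any. -/
def pushed : TS tm × tm.σ → Option (Σ k, tm.Γ k)
  | (push k f _, v) => some ⟨k, f v⟩
  | _ => none

/-- All symbols that can ever occur on a stack. -/
noncomputable def Sym : Finset (Σ k, tm.Γ k) := by
  classical
  exact ((@Finset.univ _ tm.Γk₀Fin).image fun g => ⟨tm.k₀, g⟩) ∪
    (Qs tm).biUnion fun p => (pushed tm p).toFinset

theorem input_mem (g : tm.Γ tm.k₀) : (⟨tm.k₀, g⟩ : Σ k, tm.Γ k) ∈ Sym tm := by
  classical
  simp only [Sym, Finset.mem_union, Finset.mem_image]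
  exact Or.inl ⟨g, @Finset.mem_univ _ tm.Γk₀Fin g, rfl⟩

theorem push_mem {k : tm.K} {f : tm.σ → tm.Γ k} {q : TS tm} (h : push k f q ∈ Q0 tm) (v : tm.σ) :
    (⟨k, f v⟩ : Σ k, tm.Γ k) ∈ Sym tm := by
  classical
  simp only [Sym, Finset.mem_union, Finset.mem_biUnion]
  exact Or.inr ⟨_, mem_Qs tm h v, by simp [pushed]⟩

/-- Stack numbering. -/
noncomputable def κ : tm.K ≃ Fin (@Fintype.card _ tm.kFin) := @Fintype.equivFin _ tm.kFin

/-- Decoding of symbol numbers. -/
noncomputable def δ (k : tm.K) (c : ℕ) : Option (tm.Γ k) := by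
  classical
  exact if h : ∃ g, (⟨k, g⟩ : Σ k, tm.Γ k) ∈ Sym tm ∧ num (Sym tm) ⟨k, g⟩ = c then some h.choose
    else none

/-- Coded contents of one stack. -/
noncomputable def R (S : ∀ k, List (tm.Γ k)) (k : tm.K) : List ℕ :=
  (S k).map fun g => num (Sym tm) ⟨k, g⟩

/-- Coded stacks. -/
noncomputable def cs (S : ∀ k, List (tm.Γ k)) : List (List ℕ) :=
  List.ofFn fun i => R tm S ((κ tm).symm i)

/-- All stack symbols are among the known symbols. -/
def Good (S : ∀ k, List (tm.Γ k)) : Prop := ∀ k, ∀ g ∈ S k, (⟨k, g⟩ : Σ k, tm.Γ k) ∈ Sym tm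

theorem cs_getD (S : ∀ k, List (tm.Γ k)) (k : tm.K) : (cs tm S).getD (κ tm k) [] = R tm S k := by
  simp [cs]

theorem cs_set (S : ∀ k, List (tm.Γ k)) (k : tm.K) (l : List (tm.Γ k)) :
    (cs tm S).set (κ tm k) (l.map fun g => num (Sym tm) ⟨k, g⟩) = cs tm (update S k l) := by
  apply List.ext_getElem
  · simp [cs]
  · intro i h1 h2
    simp only [cs, List.getElem_set, List.getElem_ofFn]
    split_ifs with h
    · subst h
      simp only [Fin.eta, Equiv.symm_apply_apply]
      simp [R]
    · have : (κ tm).symm ⟨i, by simpa [cs] using h2⟩ ≠ k := fun h' => h (by simp [← h'])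
      simp only [R]
      rw [update_of_ne this]

theorem δ_head {S : ∀ k, List (tm.Γ k)} (hS : Good tm S) (k : tm.K) :
    δ tm k ((R tm S k).headD 0) = (S k).head? := by
  have := hS k
  unfold δ R
  rcases h : S k with _ | ⟨g, l⟩
  · rw [dif_neg]
    · rfl
    · rintro ⟨g, hg, e⟩
      have := num_pos hg
      simp at e
      omega
  · have hg : (⟨k, g⟩ : Σ k, tm.Γ k) ∈ Sym tm := this g (by simp [h])
    have hex : ∃ g', (⟨k, g'⟩ : Σ k, tm.Γ k) ∈ Sym tm ∧ num (Sym tm) ⟨k, g'⟩ =
        ((g :: l).map fun g => num (Sym tm) ⟨k, g⟩).headD 0 := ⟨g, hg, rfl⟩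
    rw [dif_pos hex]
    have := num_inj hex.choose_spec.1 hex.choose_spec.2
    simpa using this

theorem head_le (S : ∀ k, List (tm.Γ k)) (k : tm.K) : (R tm S k).headD 0 ≤ (Sym tm).card := by
  unfold R
  cases S k with
  | nil => simp
  | cons g l => exact num_le _ _

/-- Next control state. -/
noncomputable def next : TS tm × tm.σ → ℕ → ℕ
  | (push _ _ q, v), _ => num (Qs tm) (q, v)
  | (peek k f q, v), c => num (Qs tm) (q, f v (δ tm k c))
  | (pop k f q, v), c => num (Qs tm) (q, f v (δ tm k c))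
  | (load a q, v), _ => num (Qs tm) (q, a v)
  | (branch f q₁ q₂, v), _ => num (Qs tm) (cond (f v) q₁ q₂, v)
  | (goto f, v), _ => num (Qs tm) (tm.m (f v), v)
  | (halt, _), _ => 0

/-- Operation, stack and pushed symbol of a control state. -/
noncomputable def opk : TS tm × tm.σ → ℕ × tm.K × ℕ
  | (push k f _, v) => (1, k, num (Sym tm) ⟨k, f v⟩)
  | (peek k _ _, _) => (0, k, 0)
  | (pop k _ _, _) => (2, k, 0)
  | _ => (0, tm.k₀, 0)

/-- Row of the table for a control state. -/
noncomputable def row (p : TS tm × tm.σ) : List ℕ :=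
  (opk tm p).1 :: κ tm (opk tm p).2.1 :: (opk tm p).2.2 ::
    (List.range ((Sym tm).card + 1)).map (next tm p)

/-- The table. -/
noncomputable def prog : List (List ℕ) :=
  [] :: List.ofFn fun i : Fin (Qs tm).card => row tm ((Qs tm).equivFin.symm i)

theorem ustep_eq {p : TS tm × tm.σ} (hp : p ∈ Qs tm) (S : ∀ k, List (tm.Γ k)) :
    ustep (prog tm) (num (Qs tm) p, cs tm S) =
      (next tm p ((R tm S (opk tm p).2.1).headD 0),
        if (opk tm p).1 = 1 then
          (cs tm S).set (κ tm (opk tm p).2.1) ((opk tm p).2.2 :: R tm S (opk tm p).2.1)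
        else if (opk tm p).1 = 2 then
          (cs tm S).set (κ tm (opk tm p).2.1) (R tm S (opk tm p).2.1).tail
        else cs tm S) := by
  have h : (prog tm).getD (num (Qs tm) p) [] = row tm p := getD_num hp (row tm) [] []
  have h0 : (row tm p).getD 0 0 = (opk tm p).1 := rfl
  have h1 : (row tm p).getD 1 0 = κ tm (opk tm p).2.1 := rfl
  have h2 : (row tm p).getD 2 0 = (opk tm p).2.2 := rfl
  have h3 : ∀ c ≤ (Sym tm).card, (row tm p).getD (3 + c) 0 = next tm p c := by
    intro c hc
    rw [add_comm]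
    simp [row, Nat.lt_succ_of_le hc]
  simp only [ustep, h, h0, h1, h2, cs_getD, h3 _ (head_le tm S _)]

/-- Depth of a statement. -/
def depth : TS tm → ℕ
  | push _ _ q => depth q + 1
  | peek _ _ q => depth q + 1
  | pop _ _ q => depth q + 1
  | load _ q => depth q + 1
  | branch _ q₁ q₂ => depth q₁ + depth q₂ + 1
  | goto _ => 1
  | halt => 1

/-- Code of a configuration. -/
noncomputable def code (c : TM2.Cfg tm.Γ tm.Λ tm.σ) : ℕ × List (List ℕ) :=
  (match c.l with
    | none => 0
    | some l => num (Qs tm) (tm.m l, c.var), cs tm c.stk)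

theorem micro (q : TS tm) : ∀ (v : tm.σ) (S : ∀ k, List (tm.Γ k)), q ∈ Q0 tm → Good tm S →
    ∃ n ≤ depth tm q, (ustep (prog tm))^[n] (num (Qs tm) (q, v), cs tm S) =
      code tm (TM2.stepAux q v S) ∧ Good tm (TM2.stepAux q v S).stk := by
  classical
  induction q with
  | push k f q ih =>
    intro v S hq hS
    have hS' : Good tm (update S k (f v :: S k)) := by
      intro k' g hg
      by_cases h : k' = k
      · subst h
        rw [update_self] at hg
        rcases List.mem_cons.1 hg with rfl | hg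
        · exact push_mem tm hq v
        · exact hS _ _ hg
      · rw [update_of_ne h] at hg; exact hS _ _ hg
    obtain ⟨n, hn, h1, h2⟩ := ih v _ (sub_mem tm hq (by simp [TM2.stmts₁, TM2.stmts₁_self])) hS'
    refine ⟨n + 1, by simp [depth, hn], ?_, h2⟩
    rw [iterate_succ_apply, ustep_eq tm (mem_Qs tm hq v), TM2.stepAux, ← h1, ← cs_set]
    rfl
  | peek k f q ih =>
    intro v S hq hS
    obtain ⟨n, hn, h1, h2⟩ := ih (f v (S k).head?) _
      (sub_mem tm hq (by simp [TM2.stmts₁, TM2.stmts₁_self])) hS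
    refine ⟨n + 1, by simp [depth, hn], ?_, h2⟩
    rw [iterate_succ_apply, ustep_eq tm (mem_Qs tm hq v), TM2.stepAux, ← h1, ← δ_head tm hS]
    rfl
  | pop k f q ih =>
    intro v S hq hS
    have hS' : Good tm (update S k (S k).tail) := by
      intro k' g hg
      by_cases h : k' = k
      · subst h
        rw [update_self] at hg
        exact hS _ _ (List.mem_of_mem_tail hg)
      · rw [update_of_ne h] at hg; exact hS _ _ hg
    obtain ⟨n, hn, h1, h2⟩ := ih (f v (S k).head?) _
      (sub_mem tm hq (by simp [TM2.stmts₁, TM2.stmts₁_self])) hS'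
    refine ⟨n + 1, by simp [depth, hn], ?_, h2⟩
    rw [iterate_succ_apply, ustep_eq tm (mem_Qs tm hq v), TM2.stepAux, ← h1, ← δ_head tm hS,
      ← cs_set, List.map_tail]
    rfl
  | load a q ih =>
    intro v S hq hS
    obtain ⟨n, hn, h1, h2⟩ := ih (a v) _
      (sub_mem tm hq (by simp [TM2.stmts₁, TM2.stmts₁_self])) hS
    refine ⟨n + 1, by simp [depth, hn], ?_, h2⟩
    rw [iterate_succ_apply, ustep_eq tm (mem_Qs tm hq v), TM2.stepAux, ← h1]
    rfl
  | branch f q₁ q₂ ih₁ ih₂ =>
    intro v S hq hS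
    rcases hf : f v
    · obtain ⟨n, hn, h1, h2⟩ := ih₂ v _
        (sub_mem tm hq (by simp [TM2.stmts₁, TM2.stmts₁_self])) hS
      refine ⟨n + 1, by simp only [depth]; omega, ?_, by simpa [hf] using h2⟩
      rw [iterate_succ_apply, ustep_eq tm (mem_Qs tm hq v), TM2.stepAux, hf, cond_false, ← h1]
      simp [next, opk, hf]
    · obtain ⟨n, hn, h1, h2⟩ := ih₁ v _
        (sub_mem tm hq (by simp [TM2.stmts₁, TM2.stmts₁_self])) hS
      refine ⟨n + 1, by simp only [depth]; omega, ?_, by simpa [hf] using h2⟩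
      rw [iterate_succ_apply, ustep_eq tm (mem_Qs tm hq v), TM2.stepAux, hf, cond_true, ← h1]
      simp [next, opk, hf]
  | goto f =>
    intro v S hq hS
    refine ⟨1, le_rfl, ?_, hS⟩
    rw [iterate_one, ustep_eq tm (mem_Qs tm hq v)]
    rfl
  | halt =>
    intro v S hq hS
    refine ⟨1, le_rfl, ?_, hS⟩
    rw [iterate_one, ustep_eq tm (mem_Qs tm hq v)]
    rfl

theorem bind_none_iter {A : Type} (f : A → Option A) (n : ℕ) : (flip bind f)^[n] none = none :=
  iterate_fixed rfl n

theorem steps_sim (n : ℕ) : ∀ (c c' : TM2.Cfg tm.Γ tm.Λ tm.σ), Steps (TM2.step tm.m) n c c' →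
    Good tm c.stk → ∃ t ≤ (Q0 tm).sup (depth tm) * n,
      (ustep (prog tm))^[t] (code tm c) = code tm c' ∧ Good tm c'.stk := by
  induction n with
  | zero =>
    intro c c' h hc
    obtain rfl : c = c' := by simpa [Steps] using h
    exact ⟨0, le_rfl, rfl, hc⟩
  | succ n ih =>
    intro c c' h hc
    obtain ⟨l, v, S⟩ := c
    unfold Steps at h
    rw [iterate_succ_apply] at h
    cases l with
    | none =>
      have : flip bind (TM2.step tm.m) (some ⟨none, v, S⟩) = none := rfl
      rw [this, bind_none_iter] at h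
      cases h
    | some l =>
      obtain ⟨t₁, ht₁, h1, h2⟩ := micro tm (tm.m l) v S (m_mem tm l) hc
      obtain ⟨t₂, ht₂, h3, h4⟩ := ih (TM2.stepAux (tm.m l) v S) c' h h2
      have := Finset.le_sup (f := depth tm) (m_mem tm l)
      refine ⟨t₂ + t₁, by nlinarith, ?_, h4⟩
      rw [iterate_add_apply, ← h3, ← h1]
      rfl

/-- The code of the table machine simulating `tm`. -/
noncomputable def ucode (ein : tm.Γ tm.k₀ ≃ Bool) (eout : tm.Γ tm.k₁ ≃ Bool) : List (List ℕ) :=
  [κ tm tm.k₀, κ tm tm.k₁, num (Sym tm) ⟨tm.k₀, ein.symm false⟩,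
    num (Sym tm) ⟨tm.k₀, ein.symm true⟩, num (Sym tm) ⟨tm.k₁, eout.symm true⟩,
    num (Qs tm) (tm.m tm.main, tm.initialState)] ::
  List.replicate (@Fintype.card _ tm.kFin) 0 :: prog tm

theorem urun_ucode (ein : tm.Γ tm.k₀ ≃ Bool) (eout : tm.Γ tm.k₁ ≃ Bool) (x y : Str) (n t : ℕ)
    (h : Steps (TM2.step tm.m) n (initList tm (x.map ein.symm)) (haltList tm (y.map eout.symm)))
    (ht : (Q0 tm).sup (depth tm) * n ≤ t) : urun (ucode tm ein eout) x t = y := by
  classical
  have hstk : (initList tm (x.map ein.symm)).stk = update (fun _ => []) tm.k₀ (x.map ein.symm) := by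
    funext k
    by_cases hk : k = tm.k₀
    · subst hk; rw [initList_stk_self, update_self]
    · rw [initList_stk_ne _ _ hk, update_of_ne hk]
  have hG : Good tm (initList tm (x.map ein.symm)).stk := by
    intro k g hg
    by_cases hk : k = tm.k₀
    · subst hk; exact input_mem tm g
    · rw [initList_stk_ne _ _ hk] at hg; cases hg
  obtain ⟨t₁, ht₁, h1, h2⟩ := steps_sim tm n _ _ h hG
  have hi : uinit (ucode tm ein eout) x = code tm (initList tm (x.map ein.symm)) := by
    unfold uinit code
    rw [hstk, ← cs_set]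
    have : (List.replicate (@Fintype.card _ tm.kFin) 0).map (fun _ : ℕ => ([] : List ℕ)) =
        cs tm fun _ => [] := by
      apply List.ext_getElem <;> simp [cs, R]
    refine Prod.ext rfl ?_
    change ((List.replicate _ 0).map _).set (κ tm tm.k₀) _ = _
    rw [this, List.map_map]
    congr 1
    refine List.map_congr_left fun b _ => ?_
    cases b <;> rfl
  obtain ⟨d, rfl⟩ := Nat.exists_eq_add_of_le' (ht₁.trans ht)
  unfold urun
  have hd : (ucode tm ein eout).drop 2 = prog tm := rfl
  rw [hd, iterate_add_apply, hi, h1]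
  have hc : code tm (haltList tm (y.map eout.symm)) =
      (0, cs tm (haltList tm (y.map eout.symm)).stk) := rfl
  rw [hc, prog, ustep_halt_iter]
  change ((cs tm _).getD (κ tm tm.k₁) []).map
    (fun c => c == num (Sym tm) ⟨tm.k₁, eout.symm true⟩) = y
  have hG' := h2 tm.k₁
  rw [cs_getD, R, haltList_stk_self, List.map_map, List.map_map]
  rw [haltList_stk_self] at hG'
  conv_rhs => rw [← List.map_id y]
  refine List.map_congr_left fun b hb => ?_
  cases b
  · simp only [comp, id, beq_eq_false_iff_ne]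
    intro e
    have := num_inj (hG' _ (List.mem_map_of_mem hb)) e
    simp at this
  · simp

end Sim

variable {α β : Type} [N487b59b3 α] [N487b59b3 β]

/-- Universality: every polynomial-time function is computed by the clocked table machine. -/
theorem exists_code {f : α → β} (h : IsPolyTime f) :
    ∃ (e : List (List ℕ)) (p : Polynomial ℕ), ∀ a t, p.eval (sz a) ≤ t →
      urun e (bitEncode a) t = bitEncode (f a) := by
  obtain ⟨M⟩ := h
  refine ⟨Sim.ucode M.tm M.inputAlphabet M.outputAlphabet,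
    Polynomial.C ((Sim.Q0 M.tm).sup (Sim.depth M.tm)) * M.time, fun a t ht => ?_⟩
  have h1 := M.outputsFun a
  refine Sim.urun_ucode M.tm _ _ _ _ h1.steps t h1.evals_in_steps (le_trans ?_ ht)
  simp only [Polynomial.eval_mul, Polynomial.eval_C]
  exact Nat.mul_le_mul_left _ h1.steps_le_m

theorem PT.of_isPolyTime {f : α → β} (h : IsPolyTime f) : PT f := by
  obtain ⟨e, p, hp⟩ := exists_code h
  have : PT (fun a : α => PolyTime.urun e (N487b59b3.bitEncode a) (p.eval (PolyTime.sz a))) := by
    fun_prop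
  exact PT.of_bitEncode (this.congr fun a => (hp a _ le_rfl).symm)

theorem isPolyTime_iff {f : α → β} : IsPolyTime f ↔ PT f := ⟨PT.of_isPolyTime, PT.isPolyTime⟩

end Pool.Agent.Lib.PolyTime
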