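import Mathlib
import Pool.Prelude.Def_H_3587d628

/-! A small structured stack language and its compilation to `Turing.FinTM2`. -/

namespace Pool.Agent.Lib.PolyTime

open Function

/-- Bit strings. -/
abbrev Str := List Bool

/-- Stores: countably many stacks of bits. -/
abbrev St := ℕ → Str

/-- Structured programs over bit stacks. -/
inductive Cmd
  | skip
  | push (k : ℕ) (b : Bool)
  | pop (k : ℕ)
  | seq (c d : Cmd)
  | ite (k : ℕ) (e f t : Cmd)
  | loop (k : ℕ) (c : Cmd)
  deriving DecidableEq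

/-- Big-step semantics with an upper bound on the running time. -/
inductive Ev : Cmd → St → St → ℕ → Prop
  | skip (σ : St) : Ev .skip σ σ 1
  | push (k : ℕ) (b : Bool) (σ : St) : Ev (.push k b) σ (update σ k (b :: σ k)) 1
  | pop (k : ℕ) (σ : St) : Ev (.pop k) σ (update σ k (σ k).tail) 1
  | seq {c d : Cmd} {σ σ' σ'' : St} {t t' : ℕ} :
      Ev c σ σ' t → Ev d σ' σ'' t' → Ev (.seq c d) σ σ'' (t + t' + 1)
  | iteE {k : ℕ} {e f g : Cmd} {σ σ' : St} {t : ℕ} :
      σ k = [] → Ev e σ σ' t → Ev (.ite k e f g) σ σ' (t + 1)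
  | iteF {k : ℕ} {e f g : Cmd} {σ σ' : St} {t : ℕ} {l : Str} :
      σ k = false :: l → Ev f σ σ' t → Ev (.ite k e f g) σ σ' (t + 1)
  | iteT {k : ℕ} {e f g : Cmd} {σ σ' : St} {t : ℕ} {l : Str} :
      σ k = true :: l → Ev g σ σ' t → Ev (.ite k e f g) σ σ' (t + 1)
  | loopE {k : ℕ} {c : Cmd} {σ : St} : σ k = [] → Ev (.loop k c) σ σ 1
  | loopN {k : ℕ} {c : Cmd} {σ σ' σ'' : St} {t t' : ℕ} :
      σ k ≠ [] → Ev c σ σ' t → Ev (.loop k c) σ' σ'' t' → Ev (.loop k c) σ σ'' (t + t' + 1)
  | mono {c : Cmd} {σ σ' : St} {t t' : ℕ} : Ev c σ σ' t → t ≤ t' → Ev c σ σ' t'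

/-- Largest register used. -/
def Cmd.bnd : Cmd → ℕ
  | .skip => 0
  | .push k _ => k
  | .pop k => k
  | .seq c d => max c.bnd d.bnd
  | .ite k e f g => max k (max e.bnd (max f.bnd g.bnd))
  | .loop k c => max k c.bnd

/-- The continuations reachable while running `c` with continuation `r`. -/
def supp : Cmd → List Cmd → Finset (List Cmd)
  | .skip, r => {.skip :: r}
  | .push k b, r => {.push k b :: r}
  | .pop k, r => {.pop k :: r}
  | .seq c d, r => insert (.seq c d :: r) (supp c (d :: r) ∪ supp d r)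
  | .ite k e f g, r => insert (.ite k e f g :: r) (supp e r ∪ (supp f r ∪ supp g r))
  | .loop k c, r => insert (.loop k c :: r) (supp c (.loop k c :: r))

theorem self_mem_supp (c : Cmd) (r : List Cmd) : c :: r ∈ supp c r := by
  cases c <;> simp [supp]

section Compile

variable (c₀ : Cmd)

/-- Label set of the compiled machine. -/
def labs : Finset (List Cmd) := insert [] (supp c₀ [])

/-- Labels. -/
abbrev Lab := {l : List Cmd // l ∈ labs c₀}

/-- Projection of continuations to labels. -/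
def lab (l : List Cmd) : Lab c₀ :=
  if h : l ∈ labs c₀ then ⟨l, h⟩ else ⟨[], by simp [labs]⟩

theorem lab_val {l : List Cmd} (h : l ∈ labs c₀) : (lab c₀ l).1 = l := by
  simp [lab, h]

/-- Register index. -/
def reg (k : ℕ) : Fin (c₀.bnd + 1) := ⟨min k c₀.bnd, by omega⟩

open Turing.TM2.Stmt in
/-- The statement executed at a continuation. -/
def stmtOf : List Cmd → Turing.TM2.Stmt (fun _ : Fin (c₀.bnd + 1) => Bool) (Lab c₀) (Option Bool)
  | [] => load (fun _ => none) halt
  | .skip :: r => goto fun _ => lab c₀ r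
  | .push k b :: r => push (reg c₀ k) (fun _ => b) (goto fun _ => lab c₀ r)
  | .pop k :: r => pop (reg c₀ k) (fun v _ => v) (goto fun _ => lab c₀ r)
  | .seq c d :: r => goto fun _ => lab c₀ (c :: d :: r)
  | .ite k e f g :: r => peek (reg c₀ k) (fun _ o => o) (goto fun o =>
      match o with
      | none => lab c₀ (e :: r)
      | some false => lab c₀ (f :: r)
      | some true => lab c₀ (g :: r))
  | .loop k c :: r => peek (reg c₀ k) (fun _ o => o) (goto fun o =>
      match o with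
      | none => lab c₀ r
      | some _ => lab c₀ (c :: .loop k c :: r))

/-- The compiled machine. -/
def compile : Turing.FinTM2 where
  K := Fin (c₀.bnd + 1)
  k₀ := 0
  k₁ := 0
  Γ _ := Bool
  Λ := Lab c₀
  main := lab c₀ [c₀]
  σ := Option Bool
  initialState := none
  m l := stmtOf c₀ l.1

/-- Restriction of a store to the registers of the machine. -/
def rs (σ : St) : Fin (c₀.bnd + 1) → List Bool := fun j => σ j

/-- `n` steps of a transition function. -/
def Steps {α : Type} (f : α → Option α) (n : ℕ) (a b : α) : Prop :=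
  (flip bind f)^[n] (some a) = some b

theorem Steps.trans {α : Type} {f : α → Option α} {n m : ℕ} {a b c : α}
    (h₁ : Steps f n a b) (h₂ : Steps f m b c) : Steps f (n + m) a c := by
  unfold Steps at *
  rw [add_comm, iterate_add_apply, h₁, h₂]

theorem Steps.single {α : Type} {f : α → Option α} {a b : α} (h : f a = some b) :
    Steps f 1 a b := by
  simp [Steps, flip, h]

theorem rs_update {k : ℕ} (hk : k ≤ c₀.bnd) (σ : St) (l : Str) :
    rs c₀ (update σ k l) = update (rs c₀ σ) (reg c₀ k) l := by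
  funext j
  by_cases h : j = reg c₀ k
  · subst h
    simp [rs, reg, min_eq_left hk]
  · rw [update_of_ne h]
    have : (j : ℕ) ≠ k := fun h' => h (Fin.ext (by simp [reg, h', min_eq_left hk]))
    simp [rs, update_of_ne this]

theorem rs_reg {k : ℕ} (hk : k ≤ c₀.bnd) (σ : St) : rs c₀ σ (reg c₀ k) = σ k := by
  simp [rs, reg, min_eq_left hk]

/-- The step function of the compiled machine, on plain `TM2` configurations. -/
abbrev cstep := Turing.TM2.step (fun l : Lab c₀ => stmtOf c₀ l.1)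

theorem cstep_lab {l : List Cmd} (h : l ∈ labs c₀) (v : Option Bool)
    (S : Fin (c₀.bnd + 1) → List Bool) :
    cstep c₀ ⟨some (lab c₀ l), v, S⟩ = some (Turing.TM2.stepAux (stmtOf c₀ l) v S) := by
  simp [cstep, lab_val c₀ h]

theorem sim {c : Cmd} {σ σ' : St} {t : ℕ} (h : Ev c σ σ' t) :
    ∀ (r : List Cmd) (v : Option Bool), c.bnd ≤ c₀.bnd → supp c r ⊆ labs c₀ →
      ∃ n ≤ t, ∃ v', Steps (cstep c₀) n ⟨some (lab c₀ (c :: r)), v, rs c₀ σ⟩
        ⟨some (lab c₀ r), v', rs c₀ σ'⟩ := by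
  induction h with
  | skip σ =>
    intro r v _ hs
    refine ⟨1, le_rfl, v, Steps.single ?_⟩
    rw [cstep_lab c₀ (hs (self_mem_supp _ _))]
    simp [stmtOf]
  | push k b σ =>
    intro r v hb hs
    refine ⟨1, le_rfl, v, Steps.single ?_⟩
    rw [cstep_lab c₀ (hs (self_mem_supp _ _))]
    simp only [Cmd.bnd] at hb
    simp [stmtOf, rs_update c₀ hb, rs_reg c₀ hb]
  | pop k σ =>
    intro r v hb hs
    refine ⟨1, le_rfl, v, Steps.single ?_⟩
    rw [cstep_lab c₀ (hs (self_mem_supp _ _))]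
    simp only [Cmd.bnd] at hb
    simp [stmtOf, rs_update c₀ hb, rs_reg c₀ hb]
  | @seq c d σ σ' σ'' t t' _ _ ih₁ ih₂ =>
    intro r v hb hs
    simp only [Cmd.bnd, max_le_iff] at hb
    have hs1 : supp c (d :: r) ⊆ labs c₀ := fun x hx => hs (by simp [supp, hx])
    have hs2 : supp d r ⊆ labs c₀ := fun x hx => hs (by simp [supp, hx])
    obtain ⟨n₁, hn₁, v₁, h₁⟩ := ih₁ (d :: r) v hb.1 hs1
    obtain ⟨n₂, hn₂, v₂, h₂⟩ := ih₂ r v₁ hb.2 hs2
    refine ⟨1 + n₁ + n₂, by omega, v₂, (Steps.trans (Steps.single ?_) h₁).trans h₂⟩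
    rw [cstep_lab c₀ (hs (self_mem_supp _ _))]
    simp [stmtOf]
  | @iteE k e f g σ σ' t hk _ ih =>
    intro r v hb hs
    simp only [Cmd.bnd, max_le_iff] at hb
    have hs1 : supp e r ⊆ labs c₀ := fun x hx => hs (by simp [supp, hx])
    obtain ⟨n₁, hn₁, v₁, h₁⟩ := ih r none hb.2.1 hs1
    refine ⟨1 + n₁, by omega, v₁, Steps.trans (Steps.single ?_) h₁⟩
    rw [cstep_lab c₀ (hs (self_mem_supp _ _))]
    simp [stmtOf, rs_reg c₀ hb.1, hk]
  | @iteF k e f g σ σ' t l hk _ ih =>
    intro r v hb hs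
    simp only [Cmd.bnd, max_le_iff] at hb
    have hs1 : supp f r ⊆ labs c₀ := fun x hx => hs (by simp [supp, hx])
    obtain ⟨n₁, hn₁, v₁, h₁⟩ := ih r (some false) hb.2.2.1 hs1
    refine ⟨1 + n₁, by omega, v₁, Steps.trans (Steps.single ?_) h₁⟩
    rw [cstep_lab c₀ (hs (self_mem_supp _ _))]
    simp [stmtOf, rs_reg c₀ hb.1, hk]
  | @iteT k e f g σ σ' t l hk _ ih =>
    intro r v hb hs
    simp only [Cmd.bnd, max_le_iff] at hb
    have hs1 : supp g r ⊆ labs c₀ := fun x hx => hs (by simp [supp, hx])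
    obtain ⟨n₁, hn₁, v₁, h₁⟩ := ih r (some true) hb.2.2.2 hs1
    refine ⟨1 + n₁, by omega, v₁, Steps.trans (Steps.single ?_) h₁⟩
    rw [cstep_lab c₀ (hs (self_mem_supp _ _))]
    simp [stmtOf, rs_reg c₀ hb.1, hk]
  | @loopE k c σ hk =>
    intro r v hb hs
    simp only [Cmd.bnd, max_le_iff] at hb
    refine ⟨1, le_rfl, none, Steps.single ?_⟩
    rw [cstep_lab c₀ (hs (self_mem_supp _ _))]
    simp [stmtOf, rs_reg c₀ hb.1, hk]
  | @loopN k c σ σ' σ'' t t' hk _ _ ih₁ ih₂ =>
    intro r v hb hs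
    have hb' := hb
    simp only [Cmd.bnd, max_le_iff] at hb
    obtain ⟨b, l, hbl⟩ := List.exists_cons_of_ne_nil hk
    have hs1 : supp c (.loop k c :: r) ⊆ labs c₀ := fun x hx => hs (by simp [supp, hx])
    obtain ⟨n₁, hn₁, v₁, h₁⟩ := ih₁ (.loop k c :: r) (some b) hb.2 hs1
    obtain ⟨n₂, hn₂, v₂, h₂⟩ := ih₂ r v₁ hb' hs
    refine ⟨1 + n₁ + n₂, by omega, v₂, (Steps.trans (Steps.single ?_) h₁).trans h₂⟩
    rw [cstep_lab c₀ (hs (self_mem_supp _ _))]
    simp [stmtOf, rs_reg c₀ hb.1, hbl]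
  | mono _ hle ih =>
    intro r v hb hs
    obtain ⟨n, hn, v', h'⟩ := ih r v hb hs
    exact ⟨n, hn.trans hle, v', h'⟩

end Compile

/-- The store with `x` in register `0` and all other registers empty. -/
def one (x : Str) : St := fun k => if k = 0 then x else []

theorem initList_stk_self (tm : Turing.FinTM2) (s : List (tm.Γ tm.k₀)) :
    (Turing.initList tm s).stk tm.k₀ = s := by
  simp only [Turing.initList]
  rw [dif_pos trivial]
  rfl

theorem initList_stk_ne (tm : Turing.FinTM2) (s : List (tm.Γ tm.k₀)) {k : tm.K}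
    (h : k ≠ tm.k₀) : (Turing.initList tm s).stk k = [] := by
  simp only [Turing.initList]
  rw [dif_neg h]

theorem haltList_stk_self (tm : Turing.FinTM2) (s : List (tm.Γ tm.k₁)) :
    (Turing.haltList tm s).stk tm.k₁ = s := by
  simp only [Turing.haltList]
  rw [dif_pos trivial]
  rfl

theorem haltList_stk_ne (tm : Turing.FinTM2) (s : List (tm.Γ tm.k₁)) {k : tm.K}
    (h : k ≠ tm.k₁) : (Turing.haltList tm s).stk k = [] := by
  simp only [Turing.haltList]
  rw [dif_neg h]

theorem compile_outputs {c : Cmd} {x y : Str} {t : ℕ} (h : Ev c (one x) (one y) t) :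
    Nonempty (Turing.TM2OutputsInTime (compile c) x (some y) (t + 1)) := by
  obtain ⟨n, hn, v, hs⟩ := sim c h [] none le_rfl (fun x hx => by simp [labs, hx])
  have h2 : Steps (cstep c) 1 ⟨some (lab c []), v, rs c (one y)⟩ ⟨none, none, rs c (one y)⟩ := by
    apply Steps.single
    rw [cstep_lab c (by simp [labs])]
    simp [stmtOf]
  have h3 := hs.trans h2
  have e1 : ∀ z : Str, rs c (one z) = (Turing.initList (compile c) z).stk := by
    intro z
    funext j
    by_cases hj : j = 0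
    · subst hj
      exact (initList_stk_self (compile c) z).symm
    · have : (j : ℕ) ≠ 0 := fun h' => hj (Fin.ext h')
      rw [initList_stk_ne (compile c) z hj]
      simp only [rs, one, this, if_false]
      rfl
  have e2 : ∀ z : Str, rs c (one z) = (Turing.haltList (compile c) z).stk := by
    intro z
    funext j
    by_cases hj : j = 0
    · subst hj
      exact (haltList_stk_self (compile c) z).symm
    · have : (j : ℕ) ≠ 0 := fun h' => hj (Fin.ext h')
      rw [haltList_stk_ne (compile c) z hj]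
      simp only [rs, one, this, if_false]
      rfl
  rw [e1, e2] at h3
  exact ⟨⟨⟨n + 1, h3⟩, Nat.succ_le_succ hn⟩⟩

end Pool.Agent.Lib.PolyTime
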